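import Mathlib.ModelTheory.Semantics
import Mathlib.Data.Nat.Basic

/-!
Definitions: the language of arithmetic (with or without exponentiation), the
arithmetical hierarchy of formulas, the axioms of `PA` without induction, the schemes of
induction and collection, definability with parameters, and cuts.
-/

namespace Pool.Agent.Helper626

open FirstOrder FirstOrder.Language

/-- Function symbols of the language of arithmetic: `0`, `1`, `+`, `·`, and, exactly when
`e = true`, the binary exponential `x ^ y`. -/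
inductive AFunc (e : Bool) : ℕ → Type
  | zero : AFunc e 0
  | one : AFunc e 0
  | add : AFunc e 2
  | mul : AFunc e 2
  | pow (h : e = true) : AFunc e 2

/-- Relation symbols of the language of arithmetic: `<`. -/
inductive ARel : ℕ → Type
  | lt : ARel 2

/-- The language of arithmetic, with exponentiation when `e = true`. -/
def LA (e : Bool) : Language := ⟨AFunc e, ARel⟩

/-- A set with interpretations of `0`, `1`, `+`, `·`, `<`, `^`. -/
class ArithOps (M : Type) extends Zero M, One M, Add M, Mul M, LT M, Pow M M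

/-- The structure on `M` for the language of arithmetic given by its operations. -/
instance arithStructure (e : Bool) (M : Type) [ArithOps M] : (LA e).Structure M where
  funMap := fun {n} (f : AFunc e n) => match n, f with
    | _, .zero => fun _ => 0
    | _, .one => fun _ => 1
    | _, .add => fun v => v 0 + v 1
    | _, .mul => fun v => v 0 * v 1
    | _, .pow _ => fun v => v 0 ^ v 1
  RelMap := fun {n} (r : ARel n) => match n, r with
    | _, .lt => fun v => v 0 < v 1

/-- The standard model. -/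
instance : ArithOps ℕ where

/-- Formulas of arithmetic whose free variables are `x_0, …, x_{n-1}`. -/
abbrev Fml (e : Bool) (n : ℕ) : Type := (LA e).BoundedFormula Empty n

/-- Terms of arithmetic in the variables `x_0, …, x_{n-1}`. -/
abbrev Trm (e : Bool) (n : ℕ) : Type := (LA e).Term (Empty ⊕ Fin n)

/-- `M ⊨ φ(v_0, …, v_{n-1})`. -/
def Sat {e : Bool} {n : ℕ} {M : Type} [ArithOps M] (φ : Fml e n) (v : Fin n → M) : Prop :=
  φ.Realize (fun a : Empty => a.elim) v

/-- The formula `s < t`. -/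
def ltF {e : Bool} {n : ℕ} (s t : Trm e n) : Fml e n :=
  Relations.boundedFormula₂ (L := LA e) ARel.lt s t

/-- A term in the variables `x_0, …, x_{n-1}` as a term in `x_0, …, x_n`. -/
def liftT {e : Bool} {n : ℕ} (t : Trm e n) : Trm e (n + 1) :=
  t.relabel (Sum.map id Fin.castSucc)

/-- The variable `x_n` as a term in `x_0, …, x_n`. -/
def lastT {e : Bool} (n : ℕ) : Trm e (n + 1) := Term.var (Sum.inr (Fin.last n))

/-- `Δ_0` formulas: built from atomic formulas by the connectives (`⊥` and implication, which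
generate the others) and bounded quantification `∀ x_n < t`, where `t` is a term in
`x_0, …, x_{n-1}` (bounded existential quantification is `¬ ∀ x_n < t ¬`). -/
inductive IsDelta0 {e : Bool} : ∀ {n : ℕ}, Fml e n → Prop
  | falsum {n : ℕ} : IsDelta0 (⊥ : Fml e n)
  | eq {n : ℕ} (s t : Trm e n) : IsDelta0 (s.bdEqual t)
  | lt {n : ℕ} (s t : Trm e n) : IsDelta0 (ltF s t)
  | imp {n : ℕ} {φ ψ : Fml e n} : IsDelta0 φ → IsDelta0 ψ → IsDelta0 (φ.imp ψ)
  | ball {n : ℕ} (t : Trm e n) {φ : Fml e (n + 1)} : IsDelta0 φ →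
      IsDelta0 ((ltF (lastT n) (liftT t)).imp φ).all

/-- A block of `r` existential quantifiers: `∃ x_n … ∃ x_{n+r-1} φ`. -/
def exs {e : Bool} {n : ℕ} : ∀ r : ℕ, Fml e (n + r) → Fml e n
  | 0, φ => φ
  | r + 1, φ => exs r φ.ex

/-- A block of `r` universal quantifiers: `∀ x_n … ∀ x_{n+r-1} φ`. -/
def alls {e : Bool} {n : ℕ} : ∀ r : ℕ, Fml e (n + r) → Fml e n
  | 0, φ => φ
  | r + 1, φ => alls r φ.all

/-- `IsHier k true φ` says that `φ` is a `Σ_k` formula and `IsHier k false φ` that it is a `Π_k`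
formula: `Σ_0 = Π_0 = Δ_0`, a `Σ_{k+1}` formula is a block of existential quantifiers in front of
a `Π_k` formula, and a `Π_{k+1}` formula is a block of universal quantifiers in front of a `Σ_k`
formula. -/
def IsHier {e : Bool} : ℕ → Bool → ∀ {n : ℕ}, Fml e n → Prop
  | 0, _, _, φ => IsDelta0 φ
  | k + 1, true, n, φ => ∃ (r : ℕ) (ψ : Fml e (n + r)), IsHier k false ψ ∧ φ = exs r ψ
  | k + 1, false, n, φ => ∃ (r : ℕ) (ψ : Fml e (n + r)), IsHier k true ψ ∧ φ = alls r ψ

/-- `Σ_k` formulas. -/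
def IsSigma {e : Bool} (k : ℕ) {n : ℕ} (φ : Fml e n) : Prop := IsHier k true φ

/-- `Π_k` formulas. -/
def IsPi {e : Bool} (k : ℕ) {n : ℕ} (φ : Fml e n) : Prop := IsHier k false φ

/-- The axioms of `PA⁻` (the theory of nonnegative parts of discretely ordered rings). -/
structure PAminus (M : Type) [ArithOps M] : Prop where
  add_assoc : ∀ x y z : M, (x + y) + z = x + (y + z)
  add_comm : ∀ x y : M, x + y = y + x
  mul_assoc : ∀ x y z : M, (x * y) * z = x * (y * z)
  mul_comm : ∀ x y : M, x * y = y * x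
  mul_add : ∀ x y z : M, x * (y + z) = x * y + x * z
  add_zero : ∀ x : M, x + 0 = x
  mul_zero : ∀ x : M, x * 0 = 0
  mul_one : ∀ x : M, x * 1 = x
  lt_trans : ∀ x y z : M, x < y → y < z → x < z
  lt_irrefl : ∀ x : M, ¬ x < x
  lt_trichotomy : ∀ x y : M, x < y ∨ x = y ∨ y < x
  add_lt_add : ∀ x y z : M, x < y → x + z < y + z
  mul_lt_mul : ∀ x y z : M, 0 < z → x < y → x * z < y * z
  exists_add : ∀ x y : M, x < y → ∃ z : M, x + z = y
  zero_lt_one : (0 : M) < 1
  discrete : ∀ x : M, 0 < x → x = 1 ∨ 1 < x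
  nonneg : ∀ x : M, x = 0 ∨ 0 < x

/-- The axioms of `PA⁻` with exponentiation. -/
structure PAminusExp (M : Type) [ArithOps M] : Prop extends PAminus M where
  pow_zero : ∀ x : M, x ^ (0 : M) = 1
  pow_succ : ∀ x y : M, x ^ (y + 1) = x ^ y * x

/-- `M` satisfies `BΣ_k`, the collection scheme for `Σ_k` formulas with parameters. -/
def BSigma (e : Bool) (k : ℕ) (M : Type) [ArithOps M] : Prop :=
  ∀ (m : ℕ) (φ : Fml e (m + 2)), IsSigma k φ → ∀ (p : Fin m → M) (a : M),
    (∀ x : M, x < a → ∃ y : M, Sat φ (Fin.snoc (Fin.snoc p x : Fin (m + 1) → M) y)) →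
    ∃ t : M, ∀ x : M, x < a → ∃ y : M, y < t ∧ Sat φ (Fin.snoc (Fin.snoc p x : Fin (m + 1) → M) y)

/-- `M` satisfies `IΣ_k`, the induction scheme for `Σ_k` formulas with parameters. -/
def ISigma (e : Bool) (k : ℕ) (M : Type) [ArithOps M] : Prop :=
  ∀ (m : ℕ) (φ : Fml e (m + 1)), IsSigma k φ → ∀ p : Fin m → M,
    Sat φ (Fin.snoc p (0 : M)) → (∀ x : M, Sat φ (Fin.snoc p x) → Sat φ (Fin.snoc p (x + 1))) →
    ∀ x : M, Sat φ (Fin.snoc p x)

/-- `S ⊆ M` is defined in `M` by a `Σ_k` formula with parameters. -/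
def SigmaDef (e : Bool) (k : ℕ) {M : Type} [ArithOps M] (S : Set M) : Prop :=
  ∃ (m : ℕ) (φ : Fml e (m + 1)) (p : Fin m → M), IsSigma k φ ∧ ∀ x : M, x ∈ S ↔ Sat φ (Fin.snoc p x)

/-- `S ⊆ M` is defined in `M` by a `Π_k` formula with parameters. -/
def PiDef (e : Bool) (k : ℕ) {M : Type} [ArithOps M] (S : Set M) : Prop :=
  ∃ (m : ℕ) (φ : Fml e (m + 1)) (p : Fin m → M), IsPi k φ ∧ ∀ x : M, x ∈ S ↔ Sat φ (Fin.snoc p x)

/-- A cut of `M`: a nonempty proper subset closed downwards and under successor. -/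
def IsCut {M : Type} [ArithOps M] (I : Set M) : Prop :=
  I.Nonempty ∧ I ≠ Set.univ ∧ (∀ x ∈ I, ∀ y : M, y < x → y ∈ I) ∧ ∀ x ∈ I, x + 1 ∈ I

end Pool.Agent.Helper626
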