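import Mathlib
import Pool.Agent.Helper626.ArithDefs

namespace Pool.Agent.Helper626

open FirstOrder FirstOrder.Language

section

variable {e : Bool} {n : ℕ} {M : Type} [ArithOps M]

/-- value of a term -/
def tval (t : Trm e n) (v : Fin n → M) : M :=
  t.realize (Sum.elim (fun a : Empty => a.elim) v)

theorem sat_bot (v : Fin n → M) : Sat (⊥ : Fml e n) v ↔ False := Iff.rfl

theorem sat_imp (φ ψ : Fml e n) (v : Fin n → M) : Sat (φ.imp ψ) v ↔ (Sat φ v → Sat ψ v) := Iff.rfl

theorem sat_not (φ : Fml e n) (v : Fin n → M) : Sat φ.not v ↔ ¬ Sat φ v := Iff.rfl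

theorem sat_eq (s t : Trm e n) (v : Fin n → M) : Sat (s.bdEqual t) v ↔ tval s v = tval t v :=
  Iff.rfl

theorem sat_lt (s t : Trm e n) (v : Fin n → M) : Sat (ltF s t) v ↔ tval s v < tval t v := by
  unfold Sat ltF tval
  rw [BoundedFormula.realize_rel₂]
  rfl

theorem sat_all (φ : Fml e (n + 1)) (v : Fin n → M) :
    Sat φ.all v ↔ ∀ x : M, Sat φ (Fin.snoc v x) := Iff.rfl

theorem sat_ex (φ : Fml e (n + 1)) (v : Fin n → M) :
    Sat φ.ex v ↔ ∃ x : M, Sat φ (Fin.snoc v x) := by
  unfold Sat
  exact BoundedFormula.realize_ex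

theorem tval_lift (t : Trm e n) (v : Fin n → M) (x : M) :
    tval (liftT t) (Fin.snoc v x : Fin (n + 1) → M) = tval t v := by
  unfold tval liftT
  rw [Term.realize_relabel]
  congr 1
  funext a
  rcases a with a | i
  · exact a.elim
  · simp

theorem tval_last (v : Fin n → M) (x : M) :
    tval (lastT n : Trm e (n + 1)) (Fin.snoc v x : Fin (n + 1) → M) = x := by
  unfold tval lastT
  simp

theorem sat_ball (t : Trm e n) (φ : Fml e (n + 1)) (v : Fin n → M) :
    Sat ((ltF (lastT n) (liftT t)).imp φ).all v ↔
      ∀ x : M, x < tval t v → Sat φ (Fin.snoc v x) := by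
  rw [sat_all]
  apply forall_congr'
  intro x
  rw [sat_imp, sat_lt, tval_lift, tval_last]

theorem append_snoc' {r : ℕ} {α : Type} (v : Fin n → α) (w : Fin r → α) (x : α) :
    (Fin.append v (Fin.snoc w x : Fin (r + 1) → α) : Fin (n + (r + 1)) → α) =
      (Fin.snoc (Fin.append v w) x : Fin (n + r + 1) → α) :=
  Fin.append_snoc v w x

theorem sat_exs : ∀ (r : ℕ) (φ : Fml e (n + r)) (v : Fin n → M),
    Sat (exs r φ) v ↔ ∃ w : Fin r → M, Sat φ (Fin.append v w)
  | 0, φ, v => by
    constructor
    · intro h
      refine ⟨Fin.elim0, ?_⟩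
      have : Fin.append v (Fin.elim0 : Fin 0 → M) = v := by
        funext i
        have := Fin.append_left v (Fin.elim0 : Fin 0 → M) i
        exact this
      rw [this]
      exact h
    · rintro ⟨w, h⟩
      have : Fin.append v w = v := by
        funext i
        have := Fin.append_left v w i
        exact this
      rw [this] at h
      exact h
  | r + 1, φ, v => by
    have := sat_exs r φ.ex v
    refine this.trans ?_
    constructor
    · rintro ⟨w, h⟩
      rw [sat_ex] at h
      obtain ⟨x, hx⟩ := h
      refine ⟨Fin.snoc w x, ?_⟩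
      rw [append_snoc']
      exact hx
    · rintro ⟨w, h⟩
      refine ⟨Fin.init w, ?_⟩
      rw [sat_ex]
      refine ⟨w (Fin.last r), ?_⟩
      rw [← append_snoc', Fin.snoc_init_self]
      exact h

theorem sat_alls : ∀ (r : ℕ) (φ : Fml e (n + r)) (v : Fin n → M),
    Sat (alls r φ) v ↔ ∀ w : Fin r → M, Sat φ (Fin.append v w)
  | 0, φ, v => by
    have key : ∀ w : Fin 0 → M, Fin.append v w = v := by
      intro w
      funext i
      have := Fin.append_left v w i
      exact this
    constructor
    · intro h w
      rw [key]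
      exact h
    · intro h
      have := h Fin.elim0
      rw [key] at this
      exact this
  | r + 1, φ, v => by
    have := sat_alls r φ.all v
    refine this.trans ?_
    constructor
    · intro h w
      have := h (Fin.init w)
      rw [sat_all] at this
      have := this (w (Fin.last r))
      rw [← append_snoc', Fin.snoc_init_self] at this
      exact this
    · intro h w
      rw [sat_all]
      intro x
      have := h (Fin.snoc w x)
      rw [append_snoc'] at this
      exact this

end

end Pool.Agent.Helper626
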