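import Pool.Agent.Helper626.Basic

namespace Pool.Agent.Helper626

open FirstOrder FirstOrder.Language

/-- a choice problem: relations between tuples, depending on a point -/
abbrev TOp : Type := Σ (n r : ℕ), (List ℚ → (Fin n → ℕ) → (Fin r → ℕ) → Prop)

open Classical in
/-- a solution of a choice problem -/
noncomputable def solve (T : TOp) (d : List ℚ) (v : Fin T.1 → ℕ) : Fin T.2.1 → ℕ :=
  if h : ∃ w, T.2.2 d v w then Classical.choose h else fun _ => 0

theorem solve_spec (T : TOp) (d : List ℚ) (v : Fin T.1 → ℕ) (h : ∃ w, T.2.2 d v w) :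
    T.2.2 d v (solve T d v) := by
  unfold solve
  rw [dif_pos h]
  exact Classical.choose_spec h

theorem exists_closed (𝒯 : Set TOp) (h𝒯 : 𝒯.Countable) :
    ∃ F : Set (List ℚ → ℕ), F.Countable ∧ ∀ T ∈ 𝒯, ∀ f : Fin T.1 → (List ℚ → ℕ),
      (∀ a, f a ∈ F) → ∃ g : Fin T.2.1 → (List ℚ → ℕ), (∀ b, g b ∈ F) ∧
        ∀ d, (∃ w, T.2.2 d (fun a => f a d) w) → T.2.2 d (fun a => f a d) (fun b => g b d) := by
  classical
  haveI : Countable 𝒯 := h𝒯
  let α : Type := Σ T : 𝒯, Fin T.1.2.1
  let β : α → Type := fun a => Fin a.1.1.1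
  haveI : Encodable 𝒯 := Encodable.ofCountable _
  haveI : Encodable α := Encodable.ofCountable _
  haveI : ∀ a, Encodable (β a) := fun a => Encodable.ofCountable _
  haveI : ∀ a, Fintype (β a) := fun a => inferInstanceAs (Fintype (Fin _))
  haveI : Countable (WType β) := Encodable.countable
  let ev : WType β → (List ℚ → ℕ) := fun w =>
    WType.elim (List ℚ → ℕ) (fun (x : Σ a : α, β a → (List ℚ → ℕ)) =>
      fun d => solve x.1.1.1 d (fun b => x.2 b d) x.1.2) w
  have hev : ∀ (a : α) (c : β a → WType β),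
      ev (WType.mk a c) = fun d => solve a.1.1 d (fun b => ev (c b) d) a.2 := fun a c => rfl
  refine ⟨Set.range ev, Set.countable_range ev, ?_⟩
  intro T hT f hf
  choose c hc using hf
  refine ⟨fun b => ev (WType.mk (⟨⟨T, hT⟩, b⟩ : α) c), fun b => ⟨_, rfl⟩, fun d hd => ?_⟩
  have : (fun b => ev (WType.mk (⟨⟨T, hT⟩, b⟩ : α) c) d) = solve T d (fun a => f a d) := by
    funext b
    rw [hev]
    beta_reduce
    have : (fun a => ev (c a) d) = fun a => f a d := by
      funext a
      rw [hc a]
    exact congrFun (congrArg (solve T d) this) b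
  rw [this]
  exact solve_spec T d _ hd

/-- encoding of function symbols -/
def fcode {e : Bool} : (Σ l, (LA e).Functions l) → ℕ
  | ⟨_, AFunc.zero⟩ => 0
  | ⟨_, AFunc.one⟩ => 1
  | ⟨_, AFunc.add⟩ => 2
  | ⟨_, AFunc.mul⟩ => 3
  | ⟨_, AFunc.pow _⟩ => 4

theorem fcode_injective {e : Bool} : Function.Injective (fcode (e := e)) := by
  rintro ⟨_, f⟩ ⟨_, g⟩ h
  change AFunc e _ at f
  change AFunc e _ at g
  cases f <;> cases g <;> first | rfl | (exact absurd h (by simp [fcode]))

/-- encoding of relation symbols -/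
def rcode {e : Bool} : (Σ l, (LA e).Relations l) → ℕ := fun _ => 0

theorem rcode_injective {e : Bool} : Function.Injective (rcode (e := e)) := by
  rintro ⟨_, f⟩ ⟨_, g⟩ _
  change ARel _ at f
  change ARel _ at g
  cases f
  cases g
  rfl

instance countable_symbols (e : Bool) : Countable (LA e).Symbols := by
  haveI : Countable (Σ l, (LA e).Functions l) := fcode_injective.countable
  haveI : Countable (Σ l, (LA e).Relations l) := rcode_injective.countable
  unfold Language.Symbols
  infer_instance

instance countable_fml (e : Bool) (n : ℕ) : Countable (Fml e n) := by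
  have h : Function.Injective (fun φ : Fml e n => (⟨n, φ⟩ : Σ n, (LA e).BoundedFormula Empty n)) := by
    intro a b h
    simpa using h
  exact h.countable

end Pool.Agent.Helper626
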