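import Mathlib

namespace Pool.Agent.Helper626

open Filter

/-- `τ'` extends `τ` by entries in `(u, v)` -/
def Ext (u v : ℚ) (τ τ' : List ℚ) : Prop := ∃ l : List ℚ, τ' = τ ++ l ∧ ∀ q ∈ l, u < q ∧ q < v

theorem Ext.refl (u v : ℚ) (τ : List ℚ) : Ext u v τ τ := ⟨[], by simp, by simp⟩

theorem Ext.trans {u v : ℚ} {τ τ' τ'' : List ℚ} (h : Ext u v τ τ') (h' : Ext u v τ' τ'') :
    Ext u v τ τ'' := by
  obtain ⟨l, rfl, hl⟩ := h
  obtain ⟨l', rfl, hl'⟩ := h'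
  refine ⟨l ++ l', by simp, ?_⟩
  intro q hq
  rcases List.mem_append.1 hq with h | h
  · exact hl q h
  · exact hl' q h

theorem Ext.mono {u v u' v' : ℚ} {τ τ' : List ℚ} (h : Ext u' v' τ τ') (hu : u ≤ u') (hv : v' ≤ v) :
    Ext u v τ τ' := by
  obtain ⟨l, rfl, hl⟩ := h
  exact ⟨l, rfl, fun q hq => ⟨hu.trans_lt (hl q hq).1, (hl q hq).2.trans_le hv⟩⟩

/-- sequences extending `τ` -/
def cyl (τ : List ℚ) : Set (List ℚ) := {d | ∃ l, d = τ ++ l}

theorem Ext.cyl_subset {u v : ℚ} {τ τ' : List ℚ} (h : Ext u v τ τ') : cyl τ' ⊆ cyl τ := by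
  obtain ⟨l, rfl, _⟩ := h
  rintro d ⟨l', rfl⟩
  exact ⟨l ++ l', by simp⟩

/-- forcing conditions -/
structure Cond where
  G : Filter (List ℚ)
  τ : List ℚ
  u : ℚ
  v : ℚ
  huv : u < v
  ok : ∀ τ', Ext u v τ τ' → (G ⊓ 𝓟 (cyl τ')).NeBot

/-- the first condition -/
def Cond.init : Cond where
  G := ⊤
  τ := []
  u := 0
  v := 1
  huv := by norm_num
  ok := by
    intro τ' _
    rw [top_inf_eq]
    exact principal_neBot_iff.2 ⟨τ', [], by simp⟩

/-- The successor relation: the test `B` is decided. -/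
structure Step (B : ℕ → ℚ → ℚ → Set (List ℚ)) (c c' : Cond) : Prop where
  hG : c'.G ≤ c.G
  hτ : Ext c.u c.v c.τ c'.τ
  hlen : c.τ.length < c'.τ.length
  hu : c.u < c'.u
  hv : c'.v < c.v
  dec : (∃ k w1 w2, c.u ≤ w1 ∧ w1 < w2 ∧ w2 ≤ c.v ∧ w1 < c'.u ∧ c'.v < w2 ∧ B k w1 w2 ∈ c'.G) ∨
    (∀ k w1 w2, c.u ≤ w1 → w1 < w2 → w2 ≤ c.v → (B k w1 w2)ᶜ ∈ c'.G)

/-- densely forced sets -/
def denseFilter (c : Cond) : Filter (List ℚ) where
  sets := {S | ∀ τ', Ext c.u c.v c.τ τ' → ∃ τ'', Ext c.u c.v τ' τ'' ∧ S ∈ c.G ⊓ 𝓟 (cyl τ'')}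
  univ_sets := fun τ' _ => ⟨τ', Ext.refl _ _ _, univ_mem⟩
  sets_of_superset := by
    intro S T hS hST τ' hτ'
    obtain ⟨τ'', h1, h2⟩ := hS τ' hτ'
    exact ⟨τ'', h1, mem_of_superset h2 hST⟩
  inter_sets := by
    intro S T hS hT τ' hτ'
    obtain ⟨τ1, h1, h2⟩ := hS τ' hτ'
    obtain ⟨τ2, h3, h4⟩ := hT τ1 (hτ'.trans h1)
    refine ⟨τ2, h1.trans h3, inter_mem ?_ h4⟩
    exact (inf_le_inf_left _ (principal_mono.2 h3.cyl_subset)) h2

theorem exists_step (B : ℕ → ℚ → ℚ → Set (List ℚ)) (c : Cond) : ∃ c', Step B c c' := by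
  by_cases h : ∃ k w1 w2, c.u ≤ w1 ∧ w1 < w2 ∧ w2 ≤ c.v ∧ ∃ τ', Ext c.u c.v c.τ τ' ∧
      ∀ τ'', Ext c.u c.v τ' τ'' → (c.G ⊓ 𝓟 (cyl τ'') ⊓ 𝓟 (B k w1 w2)).NeBot
  · obtain ⟨k, w1, w2, h1, h2, h3, τ', h4, h5⟩ := h
    have hm : w1 < (w1 + w2) / 2 ∧ (w1 + w2) / 2 < w2 := ⟨by linarith, by linarith⟩
    have hm1 : w1 < (w1 + (w1 + w2) / 2) / 2 ∧ (w1 + (w1 + w2) / 2) / 2 < (w1 + w2) / 2 :=
      ⟨by linarith, by linarith⟩
    set q := (w1 + w2) / 2 with hq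
    set p := (w1 + q) / 2 with hp
    have hm2 : q < (q + w2) / 2 ∧ (q + w2) / 2 < w2 := ⟨by linarith, by linarith⟩
    set r := (q + w2) / 2 with hr
    have hextq : Ext p r τ' (τ' ++ [q]) := ⟨[q], rfl, by
      intro x hx
      simp only [List.mem_singleton] at hx
      subst hx
      exact ⟨hm1.2, hm2.1⟩⟩
    have hup : c.u ≤ p := h1.trans hm1.1.le
    have hrv : r ≤ c.v := hm2.2.le.trans h3
    refine ⟨⟨c.G ⊓ 𝓟 (B k w1 w2), τ' ++ [q], p, r, by linarith, ?_⟩, ?_, ?_, ?_, ?_, ?_, ?_⟩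
    · intro τ'' hτ''
      have := h5 τ'' ((hextq.trans hτ'').mono hup hrv)
      rwa [inf_right_comm]
    · exact inf_le_left
    · exact h4.trans (hextq.mono hup hrv)
    · obtain ⟨l, hl, _⟩ := h4
      simp only [hl, List.length_append, List.length_singleton]
      omega
    · exact h1.trans_lt hm1.1
    · exact hm2.2.trans_le h3
    · left
      exact ⟨k, w1, w2, h1, h2, h3, hm1.1, hm2.2, mem_inf_of_right (mem_principal_self _)⟩
  · have huv := c.huv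
    have hm : c.u < (c.u + c.v) / 2 ∧ (c.u + c.v) / 2 < c.v := ⟨by linarith, by linarith⟩
    have hm1 : c.u < (c.u + (c.u + c.v) / 2) / 2 ∧ (c.u + (c.u + c.v) / 2) / 2 < (c.u + c.v) / 2 :=
      ⟨by linarith, by linarith⟩
    set q := (c.u + c.v) / 2 with hq
    set p := (c.u + q) / 2 with hp
    have hm2 : q < (q + c.v) / 2 ∧ (q + c.v) / 2 < c.v := ⟨by linarith, by linarith⟩
    set r := (q + c.v) / 2 with hr
    have hextq : Ext p r c.τ (c.τ ++ [q]) := ⟨[q], rfl, by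
      intro x hx
      simp only [List.mem_singleton] at hx
      subst hx
      exact ⟨hm1.2, hm2.1⟩⟩
    refine ⟨⟨denseFilter c, c.τ ++ [q], p, r, by linarith, ?_⟩, ?_, ?_, ?_, ?_, ?_, ?_⟩
    · intro τ' hτ'
      have hτ1 : Ext c.u c.v c.τ τ' := (hextq.trans hτ').mono hm1.1.le hm2.2.le
      rw [inf_principal_neBot_iff]
      intro S hS
      obtain ⟨τ'', h1, h2⟩ := hS τ' hτ1
      have h3 := c.ok τ'' (hτ1.trans h1)
      have h4 : S ∩ cyl τ'' ∈ c.G ⊓ 𝓟 (cyl τ'') :=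
        inter_mem h2 (mem_inf_of_right (mem_principal_self _))
      obtain ⟨d, hd⟩ := h3.nonempty_of_mem h4
      exact ⟨d, hd.1, h1.cyl_subset hd.2⟩
    · intro S hS τ' _
      exact ⟨τ', Ext.refl _ _ _, mem_inf_of_left hS⟩
    · exact hextq.mono hm1.1.le hm2.2.le
    · simp only [List.length_append, List.length_singleton]
      omega
    · exact hm1.1
    · exact hm2.2
    · right
      intro k w1 w2 h1 h2 h3 τ' hτ'
      by_contra hcon
      apply h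
      refine ⟨k, w1, w2, h1, h2, h3, τ', hτ', ?_⟩
      intro τ'' hτ''
      by_contra hcon2
      apply hcon
      refine ⟨τ'', hτ'', ?_⟩
      rw [not_neBot] at hcon2
      rw [← disjoint_iff] at hcon2
      rw [disjoint_principal_right] at hcon2
      exact hcon2

theorem core (B : ℕ → ℕ → ℚ → ℚ → Set (List ℚ)) :
    ∃ (U : Ultrafilter (List ℚ)) (z u v : ℕ → ℚ),
      u 0 = 0 ∧ v 0 = 1 ∧ (∀ j, u j < u (j + 1)) ∧ (∀ j, v (j + 1) < v j) ∧ (∀ j, u j < v j) ∧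
      (∀ t, ∀ᶠ d in (U : Filter (List ℚ)), t ≤ d.length ∧ ∀ s, s < t → d.getD s 0 = z s) ∧
      (∀ j, ∃ m, ∀ s, m ≤ s → u j < z s ∧ z s < v j) ∧
      (∀ i, (∃ k w1 w2 j, w1 < u j ∧ v j < w2 ∧ w1 < w2 ∧ ∀ᶠ d in (U : Filter (List ℚ)), d ∈ B i k w1 w2) ∨
        (∃ j, ∀ k w1 w2, u j ≤ w1 → w1 < w2 → w2 ≤ v j →
          ∀ᶠ d in (U : Filter (List ℚ)), d ∉ B i k w1 w2)) := by
  choose nxt hnxt using fun (i : ℕ) (c : Cond) => exists_step (B i) c
  let c : ℕ → Cond := fun j => Nat.rec Cond.init (fun i c => nxt i c) j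
  have hc : ∀ j, Step (B j) (c j) (c (j + 1)) := fun j => hnxt j (c j)
  have hG : ∀ j j', j ≤ j' → (c j').G ≤ (c j).G := by
    intro j j' h
    induction j', h using Nat.le_induction with
    | base => exact le_rfl
    | succ j' _ ih => exact (hc j').hG.trans ih
  have hu : Monotone (fun j => (c j).u) := monotone_nat_of_le_succ fun j => (hc j).hu.le
  have hv : Antitone (fun j => (c j).v) := antitone_nat_of_succ_le fun j => (hc j).hv.le
  have hext : ∀ j j', j ≤ j' → Ext (c j).u (c j).v (c j).τ (c j').τ := by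
    intro j j' h
    induction j', h using Nat.le_induction with
    | base => exact Ext.refl _ _ _
    | succ j' h ih => exact ih.trans ((hc j').hτ.mono (hu h) (hv h))
  have hlen : ∀ j, j ≤ (c j).τ.length := by
    intro j
    induction j with
    | zero => exact Nat.zero_le _
    | succ j ih =>
      have := (hc j).hlen
      omega
  have hne : ∀ j, ((c j).G ⊓ 𝓟 (cyl (c j).τ)).NeBot := fun j => (c j).ok _ (Ext.refl _ _ _)
  have hdec : ∀ j j', j ≤ j' → ((c j').G ⊓ 𝓟 (cyl (c j').τ)) ≤ ((c j).G ⊓ 𝓟 (cyl (c j).τ)) :=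
    fun j j' h => inf_le_inf (hG j j' h) (principal_mono.2 (hext j j' h).cyl_subset)
  have hInf : (⨅ j, ((c j).G ⊓ 𝓟 (cyl (c j).τ))).NeBot := by
    apply iInf_neBot_of_directed'
    · intro i j
      exact ⟨max i j, hdec i _ (le_max_left _ _), hdec j _ (le_max_right _ _)⟩
    · exact hne
  obtain ⟨U, hU⟩ := Ultrafilter.exists_le (⨅ j, ((c j).G ⊓ 𝓟 (cyl (c j).τ)))
  have hU' : ∀ j, (U : Filter (List ℚ)) ≤ (c j).G ⊓ 𝓟 (cyl (c j).τ) :=
    fun j => hU.trans (iInf_le _ j)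
  have hUG : ∀ j, (U : Filter (List ℚ)) ≤ (c j).G := fun j => (hU' j).trans inf_le_left
  have hUc : ∀ j, ∀ᶠ d in (U : Filter (List ℚ)), d ∈ cyl (c j).τ :=
    fun j => (hU' j) (mem_inf_of_right (mem_principal_self _))
  refine ⟨U, fun s => (c (s + 1)).τ.getD s 0, fun j => (c j).u, fun j => (c j).v, rfl, rfl,
    fun j => (hc j).hu, fun j => (hc j).hv, fun j => (c j).huv, ?_, ?_, ?_⟩
  · intro t
    filter_upwards [hUc t] with d hd
    obtain ⟨l, rfl⟩ := hd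
    have h1 := hlen t
    refine ⟨by rw [List.length_append]; omega, fun s hs => ?_⟩
    rw [List.getD_append _ _ _ _ (by omega)]
    obtain ⟨l', hl', _⟩ := hext (s + 1) t hs
    rw [hl', List.getD_append _ _ _ _ (by have := hlen (s + 1); omega)]
  · intro j
    refine ⟨(c j).τ.length, fun s hs => ?_⟩
    have h1 := hlen j
    obtain ⟨l, hl, hl'⟩ := hext j (s + 1) (by omega)
    have h2 := hlen (s + 1)
    beta_reduce
    rw [hl, List.getD_append_right _ _ _ _ hs]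
    have h3 : s - (c j).τ.length < l.length := by
      rw [hl, List.length_append] at h2
      omega
    rw [List.getD_eq_getElem _ _ h3]
    exact hl' _ (List.getElem_mem _)
  · intro i
    rcases (hc i).dec with ⟨k, w1, w2, h1, h2, h3, h4, h5, h6⟩ | h
    · left
      exact ⟨k, w1, w2, i + 1, h4, h5, h2, hUG (i + 1) h6⟩
    · right
      refine ⟨i, fun k w1 w2 h1 h2 h3 => hUG (i + 1) (h k w1 w2 h1 h2 h3)⟩

end Pool.Agent.Helper626
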