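import Pool.Agent.Helper626.Model

namespace Pool.Agent.Helper626

open FirstOrder FirstOrder.Language Filter

/-- closure of a set of functions under solutions of a choice problem -/
def ClosedU {n r : ℕ} (T : List ℚ → (Fin n → ℕ) → (Fin r → ℕ) → Prop) (F : Set (List ℚ → ℕ)) :
    Prop :=
  ∀ f : Fin n → (List ℚ → ℕ), (∀ a, f a ∈ F) → ∃ g : Fin r → (List ℚ → ℕ), (∀ b, g b ∈ F) ∧
    ∀ d, (∃ w, T d (fun a => f a d) w) → T d (fun a => f a d) (fun b => g b d)

/-- side conditions -/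
def side (C : Option (Bool × ℚ)) (d : List ℚ) (x : ℕ) : Prop :=
  match C with
  | none => True
  | some (true, q) => q * bb d < x
  | some (false, q) => (x : ℚ) < q * bb d

/-- choice problem: bounded witnesses -/
def opGen (e : Bool) (m r : ℕ) (π : Fml e (m + 1 + r)) (k : ℕ) (C : Option (Bool × ℚ))
    (d : List ℚ) (v : Fin m → ℕ) (u : Fin (r + 1) → ℕ) : Prop :=
  (∀ i, u i ≤ hh^[k] (bb d)) ∧
    Sat π (Fin.append (Fin.snoc v (u (Fin.last r)) : Fin (m + 1) → ℕ) (Fin.init u)) ∧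
    side C d (u (Fin.last r))

/-- the bad stages -/
def Bad {e : Bool} {m r : ℕ} (π : Fml e (m + 2 + r)) (d : List ℚ) (v : Fin m → ℕ) (k x : ℕ) : Prop :=
  ∀ y, y ≤ hh^[k] (bb d) → ∀ w : Fin r → ℕ, (∀ i, w i ≤ hh^[k] (bb d)) →
    ¬ Sat π (Fin.append (Fin.snoc (Fin.snoc v x : Fin (m + 1) → ℕ) y : Fin (m + 2) → ℕ) w)

/-- choice problem: the least bad argument for the last bad stage -/
def opBs (e : Bool) (m r : ℕ) (π : Fml e (m + 2 + r)) (d : List ℚ) (v : Fin (m + 1) → ℕ)
    (u : Fin 1 → ℕ) : Prop :=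
  u 0 < v (Fin.last m) ∧ ∃ κ, κ ≤ bb d ∧ Bad π d (Fin.init v) κ (u 0) ∧
    ∀ κ', κ' ≤ bb d → κ < κ' → ∀ x', x' < v (Fin.last m) → ¬ Bad π d (Fin.init v) κ' x'

/-- choice problem: a point where induction fails -/
def opInd (e : Bool) (m : ℕ) (φ : Fml e (m + 1)) (_ : List ℚ) (v : Fin (m + 1) → ℕ)
    (u : Fin 1 → ℕ) : Prop :=
  u 0 < v (Fin.last m) ∧ Sat φ (Fin.snoc (Fin.init v) (u 0) : Fin (m + 1) → ℕ) ∧
    ¬ Sat φ (Fin.snoc (Fin.init v) (u 0 + 1) : Fin (m + 1) → ℕ)

section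

variable {F : Set (List ℚ → ℕ)} {U : Ultrafilter (List ℚ)} [hA : Fact (Adm F U)]

/-- the elements `h^k(b)` -/
noncomputable def Hm (k : ℕ) : Mod F U :=
  mkM (fun d => hh^[k] (bb d)) ⟨hA.out.bbc k, k, Eventually.of_forall fun _ => le_rfl⟩

theorem rep_Hm (k : ℕ) : ∀ᶠ d in (U : Filter (List ℚ)), rep (Hm k : Mod F U) d = hh^[k] (bb d) :=
  rep_mk _ _

/-- the elements coding the numerators and the denominators -/
noncomputable def cNM : Mod F U :=
  mkM cN ⟨hA.out.cN, 0, Eventually.of_forall fun d => by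
    change cN d ≤ bb d
    unfold bb
    omega⟩

noncomputable def cDM : Mod F U :=
  mkM cD ⟨hA.out.cD, 0, Eventually.of_forall fun d => by
    change cD d ≤ bb d
    unfold bb
    omega⟩

theorem rep_cNM : ∀ᶠ d in (U : Filter (List ℚ)), rep (cNM : Mod F U) d = cN d := rep_mk _ _

theorem rep_cDM : ∀ᶠ d in (U : Filter (List ℚ)), rep (cDM : Mod F U) d = cD d := rep_mk _ _

/-- the standard cut -/
def std (F : Set (List ℚ → ℕ)) (U : Ultrafilter (List ℚ)) : Set (Mod F U) :=
  {x | ∃ k : ℕ, ∀ᶠ d in (U : Filter (List ℚ)), rep x d = k}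

omit hA in
theorem const_of_bounded (f : List ℚ → ℕ) (n : ℕ) (h : ∀ᶠ d in (U : Filter (List ℚ)), f d ≤ n) :
    ∃ k, ∀ᶠ d in (U : Filter (List ℚ)), f d = k := by
  induction n with
  | zero => exact ⟨0, h.mono fun d hd => by omega⟩
  | succ n ih =>
    have h1 : ∀ᶠ d in (U : Filter (List ℚ)), f d ≤ n ∨ f d = n + 1 := h.mono fun d hd => by omega
    rw [Ultrafilter.eventually_or] at h1
    rcases h1 with h1 | h1
    · exact ih h1
    · exact ⟨n + 1, h1⟩

omit hA in
theorem lt_of_not_std {x : Mod F U} (hx : x ∉ std F U) (n : ℕ) :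
    ∀ᶠ d in (U : Filter (List ℚ)), n < rep x d := by
  by_contra h
  rw [← Ultrafilter.eventually_not] at h
  exact hx (const_of_bounded (rep x) n (h.mono fun d hd => by omega))

theorem exists_nat (n : ℕ) : ∃ x : Mod F U, ∀ᶠ d in (U : Filter (List ℚ)), rep x d = n :=
  exists_term (e := true) (n := 0) (T0.const n) Fin.elim0

theorem zero_mem_std : (0 : Mod F U) ∈ std F U := ⟨0, rep_zero⟩

theorem succ_mem_std {x : Mod F U} (h : x ∈ std F U) : x + 1 ∈ std F U := by
  obtain ⟨k, hk⟩ := h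
  refine ⟨k + 1, ?_⟩
  filter_upwards [hk, rep_add x 1, rep_one (F := F) (U := U)] with d h1 h2 h3
  rw [h2, h1, h3]

theorem lt_mem_std {x y : Mod F U} (h : x ∈ std F U) (hy : y < x) : y ∈ std F U := by
  obtain ⟨k, hk⟩ := h
  refine const_of_bounded (rep y) k ?_
  filter_upwards [hk, hy] with d h1 h2
  omega

theorem Hm_not_std (k : ℕ) : (Hm k : Mod F U) ∉ std F U := by
  rintro ⟨n, hn⟩
  obtain ⟨d, h1, h2, h3⟩ := (hn.and ((rep_Hm (F := F) (U := U) k).and (hA.out.len n))).exists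
  have h4 := le_iter k (bb d)
  have h5 : n < bb d := by
    unfold bb
    omega
  omega

theorem std_isCut : IsCut (std F U) := by
  refine ⟨⟨0, zero_mem_std⟩, ?_, fun x hx y hy => lt_mem_std hx hy, fun x hx => succ_mem_std hx⟩
  intro h
  exact Hm_not_std (F := F) (U := U) 0 (h ▸ Set.mem_univ _)

/-- `s` codes a sequence of length more than `k` starting with `b` and growing by `hh` -/
def seqOK (b k s : ℕ) : Prop := Nat.beta s 0 = b ∧ ∀ i, i < k → hh (Nat.beta s i) ≤ Nat.beta s (i + 1)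

theorem beta_le (s i : ℕ) : Nat.beta s i ≤ s := by
  unfold Nat.beta
  exact (Nat.mod_le _ _).trans (Nat.unpair_left_le s)

theorem seqOK_growth {b k s : ℕ} (h : seqOK b k s) : ∀ i, i ≤ k → hh^[i] b ≤ Nat.beta s i := by
  intro i
  induction i with
  | zero => intro _; exact h.1.ge
  | succ i ih =>
    intro hi
    rw [Function.iterate_succ_apply']
    exact (hh_mono (ih (by omega))).trans (h.2 i (by omega))

theorem mem_std_iff (k : Mod F U) : k ∈ std F U ↔
    ∃ s : Mod F U, ∀ᶠ d in (U : Filter (List ℚ)), seqOK (bb d) (rep k d) (rep s d) := by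
  constructor
  · rintro ⟨n, hn⟩
    obtain ⟨s, hs⟩ := exists_fun (e := true) (n := n + 1) (F := F) (U := U)
      (P := fun u : Fin (n + 1 + 1) → ℕ => ∀ i : Fin (n + 1), Nat.beta (u (Fin.last _)) i = u i.castSucc)
      (D0.all_fin fun i => D0.beta T0.last (T0.const _) (T0.var _)) (fun i => Hm i) (by
        have h1 : ∀ᶠ d in (U : Filter (List ℚ)), ∀ i : Fin (n + 1),
            rep (Hm i : Mod F U) d = hh^[i] (bb d) := by
          rw [eventually_all]
          exact fun i => rep_Hm _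
        filter_upwards [h1] with d hd
        obtain ⟨s, hs⟩ := beta_exists (fun i => hh^[i] (bb d)) n
        refine ⟨s, fun i => ?_⟩
        rw [Fin.snoc_last, Fin.snoc_castSucc, hd i]
        exact hs i (by omega))
    have h1 : ∀ᶠ d in (U : Filter (List ℚ)), ∀ i : Fin (n + 1),
        rep (Hm i : Mod F U) d = hh^[i] (bb d) := by
      rw [eventually_all]
      exact fun i => rep_Hm _
    refine ⟨s, ?_⟩
    filter_upwards [hs, hn, h1] with d h2 h3 h4
    simp only [Fin.snoc_last, Fin.snoc_castSucc] at h2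
    have h5 : ∀ i, i ≤ n → Nat.beta (rep s d) i = hh^[i] (bb d) := by
      intro i hi
      have := h2 ⟨i, by omega⟩
      rw [h4] at this
      exact this
    refine ⟨h5 0 (Nat.zero_le _), fun i hi => ?_⟩
    rw [h3] at hi
    rw [h5 i (by omega), h5 (i + 1) (by omega), Function.iterate_succ_apply']
  · rintro ⟨s, hs⟩
    by_contra hk
    obtain ⟨j, hj⟩ := (rep_pre s).2
    have h1 := lt_of_not_std hk (j + 1)
    obtain ⟨d, h2, h3, h4⟩ := (hs.and (hj.and h1)).exists
    have h5 := seqOK_growth h2 (j + 1) (by omega)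
    have h6 := beta_le (rep s d) (j + 1)
    have h7 := iter_strict (show j < j + 1 by omega) (bb d)
    omega

/-- the bounded matrix of the definition of the standard cut -/
def th (R : ℕ → ℕ → ℕ → Prop) (b k s z : ℕ) : Prop :=
  Nat.beta s 0 = b ∧ ∀ i, i < k → ∀ x, x < s + 1 → ∀ y, y < s + 1 →
    (Nat.beta s i = x → (Nat.beta s (i + 1) = y → R x y z))

theorem th_iff {R : ℕ → ℕ → ℕ → Prop} (hR : ∀ x y, hh x ≤ y ↔ ∀ z, R x y z) (b k s : ℕ) :
    (∀ z, th R b k s z) ↔ seqOK b k s := by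
  constructor
  · intro h
    refine ⟨(h 0).1, fun i hi => ?_⟩
    rw [hR]
    intro z
    exact (h z).2 i hi _ (Nat.lt_succ_of_le (beta_le s i)) _
      (Nat.lt_succ_of_le (beta_le s (i + 1))) rfl rfl
  · rintro ⟨h1, h2⟩ z
    refine ⟨h1, fun i hi x _ y _ hx hy => ?_⟩
    have := (hR _ _).1 (h2 i hi) z
    rw [hx, hy] at this
    exact this

theorem th_D0 {e : Bool} {R : ℕ → ℕ → ℕ → Prop}
    (hR : D0 e (fun v : Fin 3 → ℕ => R (v 0) (v 1) (v 2))) {n : ℕ} {b k s z : (Fin n → ℕ) → ℕ}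
    (hb : T0 e b) (hk : T0 e k) (hs : T0 e s) (hz : T0 e z) :
    D0 e (fun v => th R (b v) (k v) (s v) (z v)) := by
  unfold th
  refine D0.and (D0.beta hs T0.zero hb) ?_
  refine D0.ball hk (D0.ball (hs.init.add T0.one) (D0.ball (hs.init.init.add T0.one) ?_))
  refine D0.imp (D0.beta hs.init.init.init T0.last.init.init T0.last.init) ?_
  refine D0.imp (D0.beta hs.init.init.init (T0.last.init.init.add T0.one) T0.last) ?_
  have := hR.comp (n := n + 3) (t := ![fun w => w (Fin.last (n + 1)).castSucc,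
    fun w => w (Fin.last (n + 2)), fun w => z (Fin.init (Fin.init (Fin.init w)))]) (by
      intro i
      fin_cases i
      · exact T0.var _
      · exact T0.var _
      · exact hz.init.init.init)
  exact this

/-- `BΣ_2` holds in the model -/
theorem mod_BSigma (e : Bool) (hbs : ∀ m r π, ClosedU (opBs e m r π) F)
    (hgen : ∀ m r π k C, ClosedU (opGen e m r π k C) F) : BSigma e 2 (Mod F U) := by
  rintro m _ ⟨r, π, hπ, rfl⟩ p a h
  simp only [sat_exs] at h ⊢
  have claim : ∃ k, ∀ᶠ d in (U : Filter (List ℚ)), ∀ x', x' < rep a d →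
      ¬ Bad π d (fun i => rep (p i) d) k x' := by
    by_contra hcon
    push Not at hcon
    have hcon' : ∀ k, ∀ᶠ d in (U : Filter (List ℚ)), ∃ x', x' < rep a d ∧
        Bad π d (fun i => rep (p i) d) k x' := by
      intro k
      exact hcon k
    obtain ⟨g, hg, hg'⟩ := hbs m r π (Fin.snoc (fun i => rep (p i)) (rep a)) (by
      intro i
      refine Fin.lastCases ?_ (fun i => ?_) i
      · simpa using (rep_pre a).1
      · simpa using (rep_pre (p i)).1)
    have e1 : ∀ d, (Fin.init (fun i => (Fin.snoc (fun i => rep (p i)) (rep a) :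
        Fin (m + 1) → List ℚ → ℕ) i d) : Fin m → ℕ) = fun i => rep (p i) d := by
      intro d
      funext i
      simp [Fin.init]
    have h2 : ∀ᶠ d in (U : Filter (List ℚ)), g 0 d < rep a d ∧ ∃ κ, κ ≤ bb d ∧
        Bad π d (fun i => rep (p i) d) κ (g 0 d) ∧
        ∀ κ', κ' ≤ bb d → κ < κ' → ∀ x', x' < rep a d → ¬ Bad π d (fun i => rep (p i) d) κ' x' := by
      filter_upwards [hcon' 0] with d hd
      have h3 := hg' d
      unfold opBs at h3
      simp only [e1, Fin.snoc_last] at h3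
      refine h3 ?_
      classical
      have h4 : ∃ κ, κ ≤ bb d ∧ ∃ x', x' < rep a d ∧ Bad π d (fun i => rep (p i) d) κ x' :=
        ⟨0, Nat.zero_le _, hd⟩
      obtain ⟨κ0, hκ0, hx0⟩ := h4
      have h5 := Nat.findGreatest_spec (P := fun κ => ∃ x', x' < rep a d ∧
        Bad π d (fun i => rep (p i) d) κ x') hκ0 hx0
      have h6 : Nat.findGreatest (fun κ => ∃ x', x' < rep a d ∧
        Bad π d (fun i => rep (p i) d) κ x') (bb d) ≤ bb d := Nat.findGreatest_le _
      obtain ⟨x', hx', hx''⟩ := h5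
      refine ⟨fun _ => x', hx', _, h6, hx'', ?_⟩
      intro κ' h7 h8 x2 h9 h10
      exact Nat.findGreatest_is_greatest h8 h7 ⟨x2, h9, h10⟩
    obtain ⟨ka, hka⟩ := (rep_pre a).2
    have hx : IsPre F U (g 0) := ⟨hg 0, ka, by
      filter_upwards [h2, hka] with d h3 h4
      exact h3.1.le.trans h4⟩
    obtain ⟨x, hx⟩ := exists_rep (g 0) hx
    have hxa : x < a := by
      rw [lt_iff]
      filter_upwards [h2, hx] with d h3 h4
      rw [h4]
      exact h3.1
    obtain ⟨y, w, hw⟩ := h x hxa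
    rw [los_pi hπ] at hw
    simp only [rep_append, rep_snoc] at hw
    obtain ⟨K, hK⟩ := exists_common_bound (Fin.snoc w y : Fin (r + 1) → Mod F U)
    obtain ⟨d, h3, h4, h5, h6, h7, h8⟩ := (h2.and (hx.and (hw.and (hK.and
      ((hcon' K).and (hA.out.len K)))))).exists
    obtain ⟨_, κ, hκ, h9, h10⟩ := h3
    have h11 : K ≤ κ := by
      by_contra hlt
      obtain ⟨x', hx', hx''⟩ := h7
      exact h10 K (by unfold bb; omega) (by omega) x' hx' hx''
    refine h9 (rep y d) ?_ (fun i => rep (w i) d) ?_ ?_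
    · have := h6 (Fin.last r)
      rw [Fin.snoc_last] at this
      exact this.trans (iter_mono_left h11 _)
    · intro i
      have := h6 i.castSucc
      rw [Fin.snoc_castSucc] at this
      exact this.trans (iter_mono_left h11 _)
    · rw [← h4]
      exact h5
  obtain ⟨k, hk⟩ := claim
  refine ⟨Hm (k + 1), fun x hx => ?_⟩
  obtain ⟨g, hg, hg'⟩ := hgen (m + 1) r π k none (Fin.snoc (fun i => rep (p i)) (rep x)) (by
      intro i
      refine Fin.lastCases ?_ (fun i => ?_) i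
      · simpa using (rep_pre x).1
      · simpa using (rep_pre (p i)).1)
  have e1 : ∀ d, (fun i => (Fin.snoc (fun i => rep (p i)) (rep x) :
        Fin (m + 1) → List ℚ → ℕ) i d) = (Fin.snoc (fun i => rep (p i) d) (rep x d) : Fin (m + 1) → ℕ) := by
    intro d
    funext i
    refine Fin.lastCases ?_ (fun i => ?_) i
    · simp
    · simp
  have h2 : ∀ᶠ d in (U : Filter (List ℚ)), (∀ i, g i d ≤ hh^[k] (bb d)) ∧
      Sat π (Fin.append (Fin.snoc (Fin.snoc (fun i => rep (p i) d) (rep x d) : Fin (m + 1) → ℕ)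
        (g (Fin.last r) d) : Fin (m + 2) → ℕ) (fun i => g i.castSucc d)) := by
    filter_upwards [hk, hx] with d hd hxd
    have h3 := hg' d
    unfold opGen at h3
    simp only [e1] at h3
    have h4 := hd _ hxd
    unfold Bad at h4
    push Not at h4
    obtain ⟨y, hy, w, hw, hs⟩ := h4
    have h5 := h3 ⟨Fin.snoc w y, fun i => by
        refine Fin.lastCases ?_ (fun i => ?_) i
        · simpa using hy
        · simpa using hw i, by
        simp only [Fin.snoc_last, Fin.init_snoc]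
        exact hs, trivial⟩
    exact ⟨h5.1, h5.2.1⟩
  have hpre : ∀ i, IsPre F U (g i) := fun i => ⟨hg i, k, h2.mono fun d hd => hd.1 i⟩
  refine ⟨mkM (g (Fin.last r)) (hpre _), ?_, fun i => mkM (g i.castSucc) (hpre _), ?_⟩
  · rw [lt_iff]
    filter_upwards [rep_mk _ (hpre (Fin.last r)), h2, rep_Hm (F := F) (U := U) (k + 1)] with d h3 h4 h5
    rw [h3, h5]
    exact (h4.1 _).trans_lt (iter_strict (show k < k + 1 by omega) _)
  · rw [los_pi hπ]
    simp only [rep_append, rep_snoc]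
    have h6 : ∀ᶠ d in (U : Filter (List ℚ)), ∀ i : Fin r,
        rep (mkM (g i.castSucc) (hpre _)) d = g i.castSucc d := by
      rw [eventually_all]
      exact fun i => rep_mk _ _
    filter_upwards [rep_mk _ (hpre (Fin.last r)), h2, h6] with d h3 h4 h5
    have e2 : (fun i : Fin r => rep (mkM (g i.castSucc) (hpre _)) d) = fun i => g i.castSucc d :=
      funext h5
    rw [e2, h3]
    exact h4.2

theorem nat_ind_fail (P : ℕ → Prop) (c : ℕ) (h0 : P 0) (hc : ¬ P c) :
    ∃ y, y < c ∧ P y ∧ ¬ P (y + 1) := by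
  induction c with
  | zero => exact absurd h0 hc
  | succ c ih =>
    by_cases h : P c
    · exact ⟨c, Nat.lt_succ_self c, h, hc⟩
    · obtain ⟨y, h1, h2⟩ := ih h
      exact ⟨y, by omega, h2⟩

/-- `IΣ_1` holds in the model -/
theorem mod_ISigma (e : Bool) (hind : ∀ m φ, ClosedU (opInd e m φ) F) : ISigma e 1 (Mod F U) := by
  intro m φ hφ p h0 hs c
  by_contra hc
  rw [los_sigma hφ, ← Ultrafilter.eventually_not] at hc
  rw [los_sigma hφ] at h0
  simp only [rep_snoc] at h0 hc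
  obtain ⟨g, hg, hg'⟩ := hind m φ (Fin.snoc (fun i => rep (p i)) (rep c)) (by
      intro i
      refine Fin.lastCases ?_ (fun i => ?_) i
      · simpa using (rep_pre c).1
      · simpa using (rep_pre (p i)).1)
  have e1 : ∀ d, (Fin.init (fun i => (Fin.snoc (fun i => rep (p i)) (rep c) :
      Fin (m + 1) → List ℚ → ℕ) i d) : Fin m → ℕ) = fun i => rep (p i) d := by
    intro d
    funext i
    simp [Fin.init]
  have h2 : ∀ᶠ d in (U : Filter (List ℚ)), g 0 d < rep c d ∧
      Sat φ (Fin.snoc (fun i => rep (p i) d) (g 0 d) : Fin (m + 1) → ℕ) ∧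
      ¬ Sat φ (Fin.snoc (fun i => rep (p i) d) (g 0 d + 1) : Fin (m + 1) → ℕ) := by
    filter_upwards [h0, hc, rep_zero (F := F) (U := U)] with d h3 h4 h5
    have h6 := hg' d
    unfold opInd at h6
    simp only [e1, Fin.snoc_last] at h6
    refine h6 ?_
    rw [h5] at h3
    obtain ⟨y, hy⟩ := nat_ind_fail (fun y => Sat φ (Fin.snoc (fun i => rep (p i) d) y :
      Fin (m + 1) → ℕ)) (rep c d) h3 h4
    exact ⟨fun _ => y, hy⟩
  obtain ⟨kc, hkc⟩ := (rep_pre c).2
  have hpre : IsPre F U (g 0) := ⟨hg 0, kc, by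
    filter_upwards [h2, hkc] with d h3 h4
    exact h3.1.le.trans h4⟩
  obtain ⟨y, hy⟩ := exists_rep (g 0) hpre
  have h3 : Sat φ (Fin.snoc p y : Fin (m + 1) → Mod F U) := by
    rw [los_sigma hφ]
    simp only [rep_snoc]
    filter_upwards [h2, hy] with d h4 h5
    rw [h5]
    exact h4.2.1
  have h4 := hs y h3
  rw [los_sigma hφ] at h4
  simp only [rep_snoc] at h4
  obtain ⟨d, h5, h6, h7, h8, h9⟩ := (h4.and (h2.and (hy.and ((rep_add y 1).and
    (rep_one (F := F) (U := U)))))).exists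
  rw [h8, h9, h7] at h5
  exact h6.2.2 h5

/-- the standard cut is `Σ_2` -/
theorem std_sigma (e : Bool) : ∃ φ : Fml e 2, IsSigma 2 φ ∧
    ∀ k : Mod F U, k ∈ std F U ↔ Sat φ (Fin.snoc (fun _ : Fin 1 => (Hm 0 : Mod F U)) k : Fin 2 → Mod F U) := by
  obtain ⟨R, hR, hR'⟩ := hh_pi e
  obtain ⟨θ, hθ, hθ'⟩ := (th_D0 (n := 4) hR (T0.var 0) (T0.var 1) (T0.var 2) (T0.var 3)).syn
  refine ⟨exs 1 (alls 1 θ), ⟨1, _, ⟨1, θ, hθ, rfl⟩, rfl⟩, fun k => ?_⟩
  rw [mem_std_iff, sat_exs]
  have key : ∀ s : Mod F U, (∀ᶠ d in (U : Filter (List ℚ)), seqOK (bb d) (rep k d) (rep s d)) ↔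
      Sat (alls 1 θ : Fml e 3) (Fin.append (Fin.snoc (fun _ : Fin 1 => (Hm 0 : Mod F U)) k :
        Fin 2 → Mod F U) (fun _ : Fin 1 => s)) := by
    intro s
    rw [los_pi (φ := (alls 1 θ : Fml e 3)) ⟨1, θ, hθ, rfl⟩]
    have e3 : ∀ d, (fun i : Fin 3 => rep ((Fin.append (Fin.snoc (fun _ : Fin 1 =>
        (Hm 0 : Mod F U)) k : Fin 2 → Mod F U) (fun _ : Fin 1 => s) : Fin 3 → Mod F U) i) d) =
        (Fin.append (Fin.snoc (fun _ : Fin 1 => rep (Hm 0 : Mod F U) d)
          (rep k d) : Fin 2 → ℕ) (fun _ : Fin 1 => rep s d) : Fin 3 → ℕ) := by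
      intro d
      have h1 := rep_append (Fin.snoc (fun _ : Fin 1 => (Hm 0 : Mod F U)) k : Fin 2 → Mod F U)
        (fun _ : Fin 1 => s) d
      have h2 := rep_snoc (fun _ : Fin 1 => (Hm 0 : Mod F U)) k d
      rw [h2] at h1
      exact h1
    simp only [e3]
    have h1 : ∀ᶠ d in (U : Filter (List ℚ)), (seqOK (bb d) (rep k d) (rep s d) ↔
        Sat (alls 1 θ : Fml e 3) (Fin.append (Fin.snoc (fun _ : Fin 1 => rep (Hm 0 : Mod F U) d)
          (rep k d) : Fin 2 → ℕ) (fun _ : Fin 1 => rep s d))) := by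
      filter_upwards [rep_Hm (F := F) (U := U) 0] with d hd
      rw [sat_alls, ← th_iff hR', hd]
      constructor
      · intro h w
        rw [hθ']
        exact h (w 0)
      · intro h z
        have := h (fun _ => z)
        rw [hθ'] at this
        exact this
    constructor
    · intro h
      filter_upwards [h, h1] with d h2 h3
      exact h3.1 h2
    · intro h
      filter_upwards [h, h1] with d h2 h3
      exact h3.2 h2
  constructor
  · rintro ⟨s, hs⟩
    exact ⟨fun _ => s, (key s).1 hs⟩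
  · rintro ⟨w, hw⟩
    refine ⟨w 0, (key (w 0)).2 ?_⟩
    have : w = fun _ => w 0 := by
      funext i
      fin_cases i
      rfl
    rw [this] at hw
    exact hw

theorem not_ISigma (e : Bool) : ¬ ISigma e 2 (Mod F U) := by
  intro h
  obtain ⟨φ, hφ, h1⟩ := std_sigma (F := F) (U := U) e
  have h2 := h 1 φ hφ (fun _ : Fin 1 => (Hm 0 : Mod F U)) ((h1 0).1 zero_mem_std)
    (fun x hx => (h1 _).1 (succ_mem_std ((h1 x).2 hx))) (Hm 0)
  exact Hm_not_std 0 ((h1 _).2 h2)

end

end Pool.Agent.Helper626
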