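import Pool.Agent.Helper626.ArithDefs

/-!
Definitions: finite sets coded by elements of a model, c.e. sets, and Turing reducibility between
subsets of a model of arithmetic.
-/

namespace Pool.Agent.Helper626

/-- The `x`-th binary digit of `a` is `1`. -/
def Digit {M : Type} [ArithOps M] (x a : M) : Prop :=
  ∃ q r : M, a = q * (1 + 1) ^ (x + 1) + (1 + 1) ^ x + r ∧ r < (1 + 1) ^ x

/-- The `M`-finite set coded by `a`: the set of places at which `a` has binary digit `1`. -/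
def fset {M : Type} [ArithOps M] (a : M) : Set M := {x | Digit x a}

/-- `W` is a c.e. set of quadruples: definable in `M` by a `Σ_1` formula with parameters. -/
def CE (e : Bool) {M : Type} [ArithOps M] (W : M → M → M → M → Prop) : Prop :=
  ∃ (m : ℕ) (φ : Fml e (m + 4)) (p : Fin m → M), IsSigma 1 φ ∧
    ∀ a i s t : M, W a i s t ↔ Sat φ (Fin.append p ![a, i, s, t])

/-- `X ≤_T Y`: there is a c.e. set `W` such that for every `M`-finite set `K` (with code `a`),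
`K ⊆ X` iff there are `M`-finite `σ ⊆ Y` and `τ ⊆ M ∖ Y` with `⟨K, 1, σ, τ⟩ ∈ W`, and
`K ⊆ M ∖ X` iff there are `M`-finite `σ ⊆ Y` and `τ ⊆ M ∖ Y` with `⟨K, 0, σ, τ⟩ ∈ W`. -/
def TuringLE (e : Bool) {M : Type} [ArithOps M] (X Y : Set M) : Prop :=
  ∃ W : M → M → M → M → Prop, CE e W ∧ ∀ a : M,
    (fset a ⊆ X ↔ ∃ s t : M, fset s ⊆ Y ∧ fset t ⊆ Yᶜ ∧ W a 1 s t) ∧
    (fset a ⊆ Xᶜ ↔ ∃ s t : M, fset s ⊆ Y ∧ fset t ⊆ Yᶜ ∧ W a 0 s t)

end Pool.Agent.Helper626
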