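import Pool.Agent.Helper626.JNot
import Pool.Agent.Helper626.DegDefs

namespace Pool.Agent.Helper626

open FirstOrder FirstOrder.Language Filter

/-! ### Relations on the natural numbers -/

theorem T0.mono {e : Bool} {n : ℕ} {s : (Fin n → ℕ) → ℕ} (h : T0 e s) : T0 true s := by
  induction h with
  | var => exact T0.var _
  | zero => exact T0.zero
  | one => exact T0.one
  | add _ _ ih1 ih2 => exact ih1.add ih2
  | mul _ _ ih1 ih2 => exact ih1.mul ih2
  | pow _ _ _ ih1 ih2 => exact T0.pow rfl ih1 ih2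

theorem D0.mono {e : Bool} {n : ℕ} {P : (Fin n → ℕ) → Prop} (h : D0 e P) : D0 true P := by
  induction h with
  | fls => exact D0.fls
  | eq h1 h2 => exact D0.eq h1.mono h2.mono
  | lt h1 h2 => exact D0.lt h1.mono h2.mono
  | imp _ _ ih1 ih2 => exact ih1.imp ih2
  | ball0 h1 _ ih => exact D0.ball0 h1.mono ih

theorem S1.mono {e : Bool} {n : ℕ} {P : (Fin n → ℕ) → Prop} (h : S1 e P) : S1 true P := by
  obtain ⟨P', hP', h⟩ := h
  exact ⟨P', hP'.mono, h⟩

theorem S1.syn {e : Bool} {n : ℕ} {P : (Fin n → ℕ) → Prop} (h : S1 e P) :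
    ∃ φ : Fml e n, IsSigma 1 φ ∧ ∀ v : Fin n → ℕ, Sat φ v ↔ P v := by
  obtain ⟨P', hP', h⟩ := h
  obtain ⟨θ, hθ, hθ'⟩ := hP'.syn
  refine ⟨exs 1 θ, ⟨1, θ, hθ, rfl⟩, fun v => ?_⟩
  rw [sat_exs, h]
  constructor
  · rintro ⟨w, hw⟩
    rw [hθ', Fin.append_right_eq_snoc] at hw
    exact ⟨_, hw⟩
  · rintro ⟨z, hz⟩
    refine ⟨fun _ => z, ?_⟩
    rw [hθ', Fin.append_right_eq_snoc]
    exact hz

theorem S1.of_exs {e : Bool} {n : ℕ} : ∀ (r : ℕ) (ψ : Fml e (n + r)),
    S1 e (fun v : Fin (n + r) → ℕ => Sat ψ v) → S1 e (fun v : Fin n → ℕ => Sat (exs r ψ) v)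
  | 0, _, h => h
  | r + 1, ψ, h => by
    refine S1.of_exs r ψ.ex ?_
    refine (S1.ex (Q := fun (v : Fin (n + r) → ℕ) x => Sat ψ (Fin.snoc v x : Fin (n + r + 1) → ℕ))
      ?_).of_iff fun v => ?_
    · refine h.of_iff fun w => ?_
      rw [Fin.snoc_init_self]
    · rw [sat_ex]

theorem S1.of_sigma {e : Bool} {n : ℕ} {φ : Fml e n} (h : IsSigma 1 φ) :
    S1 e (fun v : Fin n → ℕ => Sat φ v) := by
  obtain ⟨r, ψ, hψ, rfl⟩ := h
  have hψ' : IsDelta0 ψ := hψ
  exact S1.of_exs r ψ (D0.of_delta0 hψ').s1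

theorem S1.encT {e : Bool} : ∀ {n m : ℕ} {t : Fin n → (Fin m → ℕ) → ℕ} {c : (Fin m → ℕ) → ℕ},
    (∀ i, T0 e (t i)) → T0 e c → S1 e (fun v => Helper626.enc n (fun i => t i v) = c v)
  | 0, m, t, c, _, hc => S1.eq T0.zero hc
  | n + 1, m, t, c, ht, hc => by
    refine (S1.ex (Q := fun v a => Helper626.enc n (fun i => t i.castSucc v) = a ∧
      Nat.pair a (t (Fin.last n) v) = c v) (S1.and (S1.encT (fun i => (ht _).init) T0.last)
        (D0.pair T0.last (ht _).init hc.init).s1)).of_iff fun v => ?_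
    constructor
    · intro h
      exact ⟨_, rfl, h⟩
    · rintro ⟨a, rfl, h⟩
      exact h

theorem S1.of_D0 {e e' : Bool} {n : ℕ} {P : (Fin n → ℕ) → Prop} (hP : D0 e P) : S1 e' P := by
  obtain ⟨inst, h2⟩ := hP.primrec (dec n) (dec_primrec n)
  have h3 : Primrec (fun z : ℕ => if decide (P (dec n z)) = true then 1 else 0) :=
    Primrec.ite (Primrec.eq.comp h2 (Primrec.const true)) (Primrec.const 1) (Primrec.const 0)
  have h4 : Nat.Partrec (fun z => Part.some (if decide (P (dec n z)) = true then 1 else 0)) := by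
    rw [← Partrec.nat_iff]
    exact h3.to_comp.partrec
  refine (S1.ex (Q := fun v c => Helper626.enc n v = c ∧ ∃ y, y = 1 ∧
    y ∈ (Part.some (if decide (P (dec n c)) = true then 1 else 0) : Part ℕ))
    (S1.and (S1.encT (t := fun i w => w i.castSucc) (fun i => T0.var _) T0.last)
      (S1.ex (S1.and (S1.eq T0.last T0.one)
        ((S1.of_partrec h4).app (R := fun x y => y ∈ (Part.some
          (if decide (P (dec n x)) = true then 1 else 0) : Part ℕ)) T0.last.init T0.last))))).of_iff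
    fun v => ?_
  constructor
  · intro h
    refine ⟨_, rfl, 1, rfl, ?_⟩
    have h5 : P (dec n (enc n v)) := by rw [dec_enc]; exact h
    have h6 : decide (P (dec n (enc n v))) = true := decide_eq_true h5
    rw [if_pos h6]
    exact Part.mem_some _
  · rintro ⟨c, rfl, y, rfl, h⟩
    by_contra hcon
    have h5 : ¬ P (dec n (enc n v)) := by rw [dec_enc]; exact hcon
    have h6 : ¬ decide (P (dec n (enc n v))) = true := by
      rw [decide_eq_true_eq]; exact h5
    rw [if_neg h6, Part.mem_some_iff] at h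
    exact absurd h (by norm_num)

theorem digit_nat (x a : ℕ) : Digit x a ↔ Nat.testBit a x = true := by
  have h0 : Digit x a ↔ ∃ q r : ℕ, a = q * 2 ^ (x + 1) + 2 ^ x + r ∧ r < 2 ^ x := Iff.rfl
  rw [h0, Nat.testBit_eq_decide_div_mod_eq, decide_eq_true_eq]
  constructor
  · rintro ⟨q, r, h, hr⟩
    have h1 : a = 2 ^ x * (2 * q + 1) + r := by
      rw [h, pow_succ]
      ring
    rw [h1, Nat.mul_add_div (by positivity), Nat.div_eq_of_lt hr]
    omega
  · intro h
    refine ⟨a / 2 ^ x / 2, a % 2 ^ x, ?_, Nat.mod_lt _ (by positivity)⟩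
    have h1 := Nat.div_add_mod a (2 ^ x)
    have h2 := Nat.div_add_mod (a / 2 ^ x) 2
    rw [h] at h2
    calc a = 2 ^ x * (a / 2 ^ x) + a % 2 ^ x := h1.symm
      _ = 2 ^ x * (2 * (a / 2 ^ x / 2) + 1) + a % 2 ^ x := by rw [h2]
      _ = _ := by rw [pow_succ]; ring

theorem D0.two {n : ℕ} {s : (Fin n → ℕ) → ℕ} (hs : T0 true s) :
    T0 true (fun v => (1 + 1) ^ s v) := T0.pow rfl (T0.one.add T0.one) hs

theorem digit_bound (x a : ℕ) : Digit x a ↔ ∃ q, q < a + 1 ∧ ∃ r, r < a + 1 ∧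
    a = q * (1 + 1) ^ (x + 1) + (1 + 1) ^ x + r ∧ r < (1 + 1) ^ x := by
  constructor
  · rintro ⟨q, r, h, hr⟩
    refine ⟨q, ?_, r, ?_, h, hr⟩
    · have h1 : q ≤ q * (1 + 1) ^ (x + 1) := Nat.le_mul_of_pos_right _ (by positivity)
      omega
    · omega
  · rintro ⟨q, _, r, _, h, hr⟩
    exact ⟨q, r, h, hr⟩

theorem D0.digit {n : ℕ} {x a : (Fin n → ℕ) → ℕ} (hx : T0 true x) (ha : T0 true a) :
    D0 true (fun v => Digit (x v) (a v)) := by
  simp only [digit_bound]
  refine D0.bex (ha.add T0.one) (D0.bex (ha.init.add T0.one) (D0.and ?_ ?_))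
  · exact D0.eq ha.init.init (((T0.last.init.mul (D0.two (hx.init.init.add T0.one))).add
      (D0.two hx.init.init)).add T0.last)
  · exact D0.lt T0.last (D0.two hx.init.init)

theorem digit_le {x a : ℕ} (h : Digit x a) : x ≤ a := by
  rw [digit_nat] at h
  by_contra hcon
  push Not at hcon
  have h1 : a < 2 ^ x := hcon.trans Nat.lt_two_pow_self
  rw [Nat.testBit_lt_two_pow h1] at h
  exact absurd h (by simp)

theorem digit_pow (x y : ℕ) : Digit x ((1 + 1) ^ y) ↔ x = y := by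
  rw [digit_nat]
  have : (1 + 1 : ℕ) ^ y = 2 ^ y := rfl
  rw [this, Nat.testBit_two_pow]
  simp only [decide_eq_true_eq]
  exact eq_comm

theorem not_digit_zero (x : ℕ) : ¬ Digit x 0 := by
  rw [digit_nat]
  simp

theorem exists_digit {a : ℕ} (h : a ≠ 0) : ∃ x, Digit x a := by
  obtain ⟨x, hx, _⟩ := Nat.exists_most_significant_bit h
  exact ⟨x, (digit_nat x a).2 hx⟩

theorem exists_max_digit {a : ℕ} (h : ∃ x, Digit x a) : ∃ x, Digit x a ∧ ∀ y, Digit y a → y ≤ x := by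
  classical
  obtain ⟨x, hx⟩ := h
  refine ⟨Nat.findGreatest (fun x => Digit x a) a, ?_, fun y hy => ?_⟩
  · exact Nat.findGreatest_spec (P := fun x => Digit x a) (digit_le hx) hx
  · exact Nat.le_findGreatest (digit_le hy) hy

theorem exists_min_digit {a : ℕ} (h : ∃ x, Digit x a) : ∃ x, Digit x a ∧ ∀ y, Digit y a → x ≤ y := by
  classical
  exact ⟨Nat.find h, Nat.find_spec h, fun y hy => Nat.find_min' h hy⟩

section

variable {F : Set (List ℚ → ℕ)} {U : Ultrafilter (List ℚ)} [hA : Fact (Adm F U)]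

/-! ### Elements of the model -/

theorem rep_two : ∀ᶠ d in (U : Filter (List ℚ)), rep (1 + 1 : Mod F U) d = 1 + 1 := by
  filter_upwards [rep_add (F := F) (U := U) 1 1, rep_one (F := F) (U := U)] with d h1 h2
  rw [h1, h2]

theorem rep_two_pow (x : Mod F U) :
    ∀ᶠ d in (U : Filter (List ℚ)), rep ((1 + 1 : Mod F U) ^ x) d = (1 + 1) ^ rep x d := by
  filter_upwards [rep_pow (1 + 1 : Mod F U) x, rep_two (F := F) (U := U)] with d h1 h2
  rw [h1, h2]

theorem digit_iff (x a : Mod F U) :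
    Digit x a ↔ ∀ᶠ d in (U : Filter (List ℚ)), Digit (rep x d) (rep a d) := by
  constructor
  · rintro ⟨q, r, h, hr⟩
    rw [eq_iff] at h
    rw [lt_iff] at hr
    filter_upwards [h, hr, rep_add (q * (1 + 1) ^ (x + 1) + (1 + 1) ^ x) r,
      rep_add (q * (1 + 1) ^ (x + 1)) ((1 + 1) ^ x), rep_mul q ((1 + 1) ^ (x + 1)),
      rep_two_pow (x + 1), rep_two_pow x, rep_add x 1, rep_one (F := F) (U := U)] with
      d h1 h2 h3 h4 h5 h6 h7 h8 h9
    refine ⟨rep q d, rep r d, ?_, ?_⟩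
    · rw [h1, h3, h4, h5, h6, h7, h8, h9]
    · rw [← h7]
      exact h2
  · intro h
    obtain ⟨z, hz⟩ := skolem (e := true) (n := 2) (r := 2) (F := F) (U := U)
      (P := fun w : Fin 4 → ℕ => w 1 = w 2 * (1 + 1) ^ (w 0 + 1) + (1 + 1) ^ w 0 + w 3 ∧
        w 3 < (1 + 1) ^ w 0)
      (D0.and (D0.eq (T0.var 1) ((((T0.var 2).mul (D0.two ((T0.var 0).add T0.one))).add
        (D0.two (T0.var 0))).add (T0.var 3))) (D0.lt (T0.var 3) (D0.two (T0.var 0))))
      ![x, a] (by
        filter_upwards [h] with d hd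
        obtain ⟨q, r, h1, h2⟩ := hd
        exact ⟨![q, r], h1, h2⟩)
    have hz' : ∀ᶠ d in (U : Filter (List ℚ)),
        rep a d = rep (z 0) d * (1 + 1) ^ (rep x d + 1) + (1 + 1) ^ rep x d + rep (z 1) d ∧
        rep (z 1) d < (1 + 1) ^ rep x d := hz
    refine ⟨z 0, z 1, ?_, ?_⟩
    · rw [eq_iff]
      filter_upwards [hz', rep_add (z 0 * (1 + 1) ^ (x + 1) + (1 + 1) ^ x) (z 1),
        rep_add (z 0 * (1 + 1) ^ (x + 1)) ((1 + 1) ^ x), rep_mul (z 0) ((1 + 1) ^ (x + 1)),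
        rep_two_pow (x + 1), rep_two_pow x, rep_add x 1, rep_one (F := F) (U := U)] with
        d h1 h3 h4 h5 h6 h7 h8 h9
      rw [h3, h4, h5, h6, h7, h8, h9]
      exact h1.1
    · rw [lt_iff]
      filter_upwards [hz', rep_two_pow x] with d h1 h7
      rw [h7]
      exact h1.2

theorem fset_pow (x : Mod F U) : fset ((1 + 1 : Mod F U) ^ x) = {x} := by
  ext y
  change Digit y ((1 + 1 : Mod F U) ^ x) ↔ y = x
  rw [digit_iff, eq_iff]
  constructor
  · intro h
    filter_upwards [h, rep_two_pow x] with d h1 h2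
    rw [h2, digit_pow] at h1
    exact h1
  · intro h
    filter_upwards [h, rep_two_pow x] with d h1 h2
    rw [h2, digit_pow]
    exact h1

theorem fset_zero : fset (0 : Mod F U) = ∅ := by
  ext y
  change Digit y (0 : Mod F U) ↔ False
  rw [digit_iff]
  refine ⟨fun h => ?_, fun h => h.elim⟩
  obtain ⟨d, h1, h2⟩ := (h.and (rep_zero (F := F) (U := U))).exists
  rw [h2] at h1
  exact not_digit_zero _ h1

/-- a nonzero code has a largest and a smallest element -/
theorem fset_max {a : Mod F U} (ha : a ≠ 0) : ∃ x ∈ fset a,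
    ∀ᶠ d in (U : Filter (List ℚ)), ∀ y, Digit y (rep a d) → y ≤ rep x d := by
  have h0 : ∀ᶠ d in (U : Filter (List ℚ)), rep a d ≠ 0 := by
    have h1 : ¬ ∀ᶠ d in (U : Filter (List ℚ)), rep a d = 0 := by
      intro h
      apply ha
      rw [eq_iff]
      filter_upwards [h, rep_zero (F := F) (U := U)] with d h1 h2
      rw [h1, h2]
    rw [← Ultrafilter.eventually_not] at h1
    exact h1
  obtain ⟨x, hx⟩ := exists_fun (e := true) (n := 1) (F := F) (U := U)
    (P := fun w : Fin 2 → ℕ => Digit (w 1) (w 0) ∧ ∀ y, y < w 0 + 1 → (Digit y (w 0) → y ≤ w 1))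
    (D0.and (D0.digit (T0.var 1) (T0.var 0)) (D0.ball ((T0.var 0).add T0.one)
      ((D0.digit T0.last (T0.var 0).init).imp (D0.le T0.last (T0.var 1).init)))) (fun _ => a) (by
      filter_upwards [h0] with d hd
      obtain ⟨x, h1, h2⟩ := exists_max_digit (exists_digit hd)
      exact ⟨x, h1, fun y _ hy => h2 y hy⟩)
  have hx' : ∀ᶠ d in (U : Filter (List ℚ)), Digit (rep x d) (rep a d) ∧
      ∀ y, y < rep a d + 1 → (Digit y (rep a d) → y ≤ rep x d) := hx
  refine ⟨x, (digit_iff x a).2 (hx'.mono fun d hd => hd.1), hx'.mono fun d hd y hy => ?_⟩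
  exact hd.2 y (Nat.lt_succ_of_le (digit_le hy)) hy

theorem fset_min {a : Mod F U} (ha : a ≠ 0) : ∃ x ∈ fset a,
    ∀ᶠ d in (U : Filter (List ℚ)), ∀ y, Digit y (rep a d) → rep x d ≤ y := by
  have h0 : ∀ᶠ d in (U : Filter (List ℚ)), rep a d ≠ 0 := by
    have h1 : ¬ ∀ᶠ d in (U : Filter (List ℚ)), rep a d = 0 := by
      intro h
      apply ha
      rw [eq_iff]
      filter_upwards [h, rep_zero (F := F) (U := U)] with d h1 h2
      rw [h1, h2]
    rw [← Ultrafilter.eventually_not] at h1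
    exact h1
  obtain ⟨x, hx⟩ := exists_fun (e := true) (n := 1) (F := F) (U := U)
    (P := fun w : Fin 2 → ℕ => Digit (w 1) (w 0) ∧ ∀ y, y < w 0 + 1 → (Digit y (w 0) → w 1 ≤ y))
    (D0.and (D0.digit (T0.var 1) (T0.var 0)) (D0.ball ((T0.var 0).add T0.one)
      ((D0.digit T0.last (T0.var 0).init).imp (D0.le (T0.var 1).init T0.last)))) (fun _ => a) (by
      filter_upwards [h0] with d hd
      obtain ⟨x, h1, h2⟩ := exists_min_digit (exists_digit hd)
      exact ⟨x, h1, fun y _ hy => h2 y hy⟩)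
  have hx' : ∀ᶠ d in (U : Filter (List ℚ)), Digit (rep x d) (rep a d) ∧
      ∀ y, y < rep a d + 1 → (Digit y (rep a d) → rep x d ≤ y) := hx
  refine ⟨x, (digit_iff x a).2 (hx'.mono fun d hd => hd.1), hx'.mono fun d hd y hy => ?_⟩
  exact hd.2 y (Nat.lt_succ_of_le (digit_le hy)) hy

theorem fset_empty_iff (a : Mod F U) : fset a ⊆ ∅ ↔ a = 0 := by
  constructor
  · intro h
    by_contra ha
    obtain ⟨x, hx, _⟩ := fset_max ha
    exact h hx
  · rintro rfl
    rw [fset_zero]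

/-- overspill -/
theorem overspill {e : Bool} {n : ℕ} {P : (Fin (n + 1) → ℕ) → Prop} (hP : D0 e P)
    (x : Fin n → Mod F U) (m0 : ℕ)
    (h : ∀ k, m0 ≤ k → ∀ᶠ d in (U : Filter (List ℚ)), P (Fin.snoc (fun i => rep (x i) d) k)) :
    ∃ t : Mod F U, t ∉ std F U ∧ ∀ᶠ d in (U : Filter (List ℚ)), ∀ y, y ≤ rep t d → m0 ≤ y →
      P (Fin.snoc (fun i => rep (x i) d) y) := by
  have hQ : ∀ {k : ℕ} {y : (Fin k → ℕ) → ℕ} {s : Fin n → (Fin k → ℕ) → ℕ}, T0 e y →
      (∀ i, T0 e (s i)) → D0 e (fun w => ∀ z, z < y w + 1 → (m0 ≤ z →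
        P (Fin.snoc (fun i => s i w) z))) := by
    intro k y s hy hs
    refine D0.ball (hy.add T0.one) (D0.imp (D0.le (T0.const m0) T0.last) ?_)
    exact hP.comp_snoc (s := fun i w => s i (Fin.init w)) (fun i => (hs i).init) T0.last
  obtain ⟨t, ht⟩ := exists_fun (e := e) (n := n + 1) (F := F) (U := U)
    (P := fun w : Fin (n + 1 + 1) → ℕ =>
      (∀ z, z < w (Fin.last (n + 1)) + 1 → (m0 + 1 ≤ z → P (Fin.snoc (fun i : Fin n => w i.castSucc.castSucc) z))) ∧
      (w (Fin.last (n + 1)) = w (Fin.last n).castSucc ∨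
        ¬ (∀ z, z < (w (Fin.last (n + 1)) + 1) + 1 →
          (m0 + 1 ≤ z → P (Fin.snoc (fun i : Fin n => w i.castSucc.castSucc) z)))))
    (by
      have hQ' : ∀ {k : ℕ} {y : (Fin k → ℕ) → ℕ} {s : Fin n → (Fin k → ℕ) → ℕ}, T0 e y →
          (∀ i, T0 e (s i)) → D0 e (fun w => ∀ z, z < y w + 1 → (m0 + 1 ≤ z →
            P (Fin.snoc (fun i => s i w) z))) := by
        intro k y s hy hs
        refine D0.ball (hy.add T0.one) (D0.imp (D0.le (T0.const (m0 + 1)) T0.last) ?_)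
        exact hP.comp_snoc (s := fun i w => s i (Fin.init w)) (fun i => (hs i).init) T0.last
      exact (hQ' T0.last (s := fun i w => w i.castSucc.castSucc) (fun i => T0.var _)).and
        ((D0.eq T0.last (T0.var _)).or (hQ' (T0.last.add T0.one)
          (s := fun i w => w i.castSucc.castSucc) (fun i => T0.var _)).not))
    (Fin.snoc x (Hm 0)) (Eventually.of_forall fun d => by
      classical
      have h1 : ∀ z, z < 0 + 1 → (m0 + 1 ≤ z → P (Fin.snoc (fun i => rep (x i) d) z)) :=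
        fun z hz1 hz2 => by omega
      have h2 := Nat.findGreatest_spec (P := fun t => ∀ z, z < t + 1 → (m0 + 1 ≤ z →
        P (Fin.snoc (fun i => rep (x i) d) z))) (Nat.zero_le (rep (Hm 0 : Mod F U) d)) h1
      refine ⟨Nat.findGreatest (fun t => ∀ z, z < t + 1 → (m0 + 1 ≤ z →
        P (Fin.snoc (fun i => rep (x i) d) z))) (rep (Hm 0 : Mod F U) d), ?_⟩
      simp only [Fin.snoc_last, Fin.snoc_castSucc]
      refine ⟨h2, ?_⟩
      by_contra hcon
      push Not at hcon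
      obtain ⟨h3, h4⟩ := hcon
      have h5 := Nat.findGreatest_le (P := fun t => ∀ z, z < t + 1 → (m0 + 1 ≤ z →
        P (Fin.snoc (fun i => rep (x i) d) z))) (rep (Hm 0 : Mod F U) d)
      have h6 := Nat.findGreatest_is_greatest (P := fun t => ∀ z, z < t + 1 → (m0 + 1 ≤ z →
        P (Fin.snoc (fun i => rep (x i) d) z))) (Nat.lt_succ_self _)
        (show _ + 1 ≤ rep (Hm 0 : Mod F U) d by omega)
      exact h6 h4)
  have ht' : ∀ᶠ d in (U : Filter (List ℚ)),
      (∀ z, z < rep t d + 1 → (m0 + 1 ≤ z → P (Fin.snoc (fun i => rep (x i) d) z))) ∧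
      (rep t d = rep (Hm 0 : Mod F U) d ∨
        ¬ (∀ z, z < (rep t d + 1) + 1 →
          (m0 + 1 ≤ z → P (Fin.snoc (fun i => rep (x i) d) z)))) := by
    filter_upwards [ht] with d hd
    simp only [Fin.snoc_last, Fin.snoc_castSucc] at hd
    exact hd
  refine ⟨t, ?_, ?_⟩
  · rintro ⟨k, hk⟩
    have h1 : ∀ᶠ d in (U : Filter (List ℚ)), ∀ z : Fin (k + 2), m0 + 1 ≤ (z : ℕ) →
        P (Fin.snoc (fun i => rep (x i) d) (z : ℕ)) := by
      rw [eventually_all]
      intro z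
      by_cases hz : m0 + 1 ≤ (z : ℕ)
      · exact (h z (by omega)).mono fun d hd _ => hd
      · exact Eventually.of_forall fun d h => absurd h hz
    obtain ⟨d, h2, h3, h4, h5⟩ := (ht'.and (hk.and (h1.and
      (lt_of_not_std (Hm_not_std (F := F) (U := U) 0) k)))).exists
    rcases h2.2 with h6 | h6
    · omega
    · apply h6
      intro z hz1 hz2
      exact h4 ⟨z, by omega⟩ hz2
  · filter_upwards [ht', h m0 le_rfl] with d h1 h2 y hy hmy
    rcases Nat.eq_or_lt_of_le hmy with h3 | h3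
    · rw [← h3]
      exact h2
    · exact h1.1 y (by omega) h3

end

end Pool.Agent.Helper626
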