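import Pool.Agent.Helper626.Deg

namespace Pool.Agent.Helper626

open FirstOrder FirstOrder.Language Filter

section

variable {F : Set (List ℚ → ℕ)} {U : Ultrafilter (List ℚ)} [hA : Fact (Adm F U)]

theorem skolemS1 {e : Bool} {n r : ℕ} {P : (Fin (n + r) → ℕ) → Prop} (hP : S1 e P)
    (x : Fin n → Mod F U)
    (h : ∀ᶠ d in (U : Filter (List ℚ)), ∃ w : Fin r → ℕ, P (Fin.append (fun i => rep (x i) d) w)) :
    ∃ z : Fin r → Mod F U, ∀ᶠ d in (U : Filter (List ℚ)),
      P (Fin.append (fun i => rep (x i) d) (fun j => rep (z j) d)) := by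
  obtain ⟨P', hP', h1⟩ := hP
  obtain ⟨z, hz⟩ := skolem (r := r + 1) (n := n) (P := P') hP' x (h.mono fun d hd => by
    obtain ⟨w, hw⟩ := hd
    rw [h1] at hw
    obtain ⟨y, hy⟩ := hw
    refine ⟨Fin.snoc w y, ?_⟩
    rw [append_snoc']
    exact hy)
  refine ⟨fun i => z i.castSucc, hz.mono fun d hd => ?_⟩
  rw [h1]
  refine ⟨rep (z (Fin.last r)) d, ?_⟩
  have e1 : (fun j => rep (z j) d) = (Fin.snoc (fun j : Fin r => rep (z j.castSucc) d)
      (rep (z (Fin.last r)) d) : Fin (r + 1) → ℕ) := by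
    funext j
    refine Fin.lastCases ?_ (fun j => ?_) j
    · simp
    · simp
  rw [e1, append_snoc'] at hd
  exact hd

/-! ### `∅` is below every set -/

theorem empty_le (e : Bool) (X : Set (Mod F U)) : TuringLE e ∅ X := by
  obtain ⟨φ, hφ, hφ'⟩ := S1.syn (e := e) (P := fun w : Fin 4 → ℕ => w 1 = 0 ∨ (w 1 = 1 ∧ w 0 = 0))
    (((D0.eq (T0.var 1) T0.zero).or ((D0.eq (T0.var 1) T0.one).and (D0.eq (T0.var 0) T0.zero))).s1)
  have key : ∀ a i s t : Mod F U, Sat φ (Fin.append (Fin.elim0 : Fin 0 → Mod F U) ![a, i, s, t]) ↔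
      ∀ᶠ d in (U : Filter (List ℚ)), rep i d = 0 ∨ (rep i d = 1 ∧ rep a d = 0) := by
    intro a i s t
    rw [los_sigma (n := 0 + 4) (φ := φ) hφ]
    apply iff_of_eq
    congr 1
    funext d
    apply propext
    refine (hφ' _).trans ?_
    exact Iff.rfl
  refine ⟨fun a i s t => Sat φ (Fin.append (Fin.elim0 : Fin 0 → Mod F U) ![a, i, s, t]),
    ⟨0, φ, Fin.elim0, hφ, fun _ _ _ _ => Iff.rfl⟩, fun a => ⟨?_, ?_⟩⟩
  · rw [fset_empty_iff]
    constructor
    · rintro rfl
      refine ⟨0, 0, by rw [fset_zero]; exact Set.empty_subset _, by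
        rw [fset_zero]; exact Set.empty_subset _, ?_⟩
      beta_reduce
      rw [key]
      filter_upwards [rep_zero (F := F) (U := U), rep_one (F := F) (U := U)] with d h1 h2
      exact Or.inr ⟨h2, h1⟩
    · rintro ⟨s, t, _, _, h⟩
      beta_reduce at h
      rw [key] at h
      rw [eq_iff]
      filter_upwards [h, rep_zero (F := F) (U := U), rep_one (F := F) (U := U)] with d h1 h2 h3
      omega
  · constructor
    · intro _
      refine ⟨0, 0, by rw [fset_zero]; exact Set.empty_subset _, by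
        rw [fset_zero]; exact Set.empty_subset _, ?_⟩
      beta_reduce
      rw [key]
      filter_upwards [rep_zero (F := F) (U := U)] with d h1
      exact Or.inl h1
    · intro _ x _
      simp

/-! ### `J` is below the standard cut -/

/-- matrix for the positive part -/
def QP (b n c a s t m t' : ℕ) : Prop := Digit m s ∧ Digit t' t ∧
  ∀ x, x < a + 1 → (Digit x a → ∀ y, y < t' + 1 → (m ≤ y → rho x y n c b))

/-- matrix for the negative part -/
def QN (b n c a s t m t' : ℕ) : Prop := Digit m s ∧ Digit t' t ∧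
  ∀ x, x < a + 1 → (Digit x a → ∀ y, y < t' + 1 → (m ≤ y → ¬ rho x y n c b))

theorem QP_D0 {k : ℕ} {b n c a s t m t' : (Fin k → ℕ) → ℕ} (hb : T0 true b) (hn : T0 true n)
    (hc : T0 true c) (ha : T0 true a) (hs : T0 true s) (ht : T0 true t) (hm : T0 true m)
    (ht' : T0 true t') :
    D0 true (fun w => QP (b w) (n w) (c w) (a w) (s w) (t w) (m w) (t' w)) := by
  unfold QP
  refine (D0.digit hm hs).and ((D0.digit ht' ht).and (D0.ball (ha.add T0.one)
    ((D0.digit T0.last ha.init).imp (D0.ball (ht'.init.add T0.one)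
      ((D0.le hm.init.init T0.last).imp (rho_D0 T0.last.init T0.last hn.init.init hc.init.init
        hb.init.init))))))

theorem QN_D0 {k : ℕ} {b n c a s t m t' : (Fin k → ℕ) → ℕ} (hb : T0 true b) (hn : T0 true n)
    (hc : T0 true c) (ha : T0 true a) (hs : T0 true s) (ht : T0 true t) (hm : T0 true m)
    (ht' : T0 true t') :
    D0 true (fun w => QN (b w) (n w) (c w) (a w) (s w) (t w) (m w) (t' w)) := by
  unfold QN
  refine (D0.digit hm hs).and ((D0.digit ht' ht).and (D0.ball (ha.add T0.one)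
    ((D0.digit T0.last ha.init).imp (D0.ball (ht'.init.add T0.one)
      ((D0.le hm.init.init T0.last).imp (rho_D0 T0.last.init T0.last hn.init.init hc.init.init
        hb.init.init).not)))))

/-- the c.e. set -/
def QW (w : Fin 7 → ℕ) : Prop :=
  (w 4 = 1 ∧ ∃ m, m < w 5 + 1 ∧ ∃ t', t' < w 6 + 1 ∧ QP (w 0) (w 1) (w 2) (w 3) (w 5) (w 6) m t') ∨
  (w 4 = 0 ∧ ∃ m, m < w 5 + 1 ∧ ∃ t', t' < w 6 + 1 ∧ QN (w 0) (w 1) (w 2) (w 3) (w 5) (w 6) m t')

theorem QW_D0 : D0 true QW := by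
  unfold QW
  refine D0.or ((D0.eq (T0.var 4) T0.one).and (D0.bex ((T0.var 5).add T0.one)
    (D0.bex ((T0.var 6).init.add T0.one) ?_))) ((D0.eq (T0.var 4) T0.zero).and
      (D0.bex ((T0.var 5).add T0.one) (D0.bex ((T0.var 6).init.add T0.one) ?_)))
  · exact QP_D0 (T0.var 0).init.init (T0.var 1).init.init (T0.var 2).init.init
      (T0.var 3).init.init (T0.var 5).init.init (T0.var 6).init.init T0.last.init T0.last
  · exact QN_D0 (T0.var 0).init.init (T0.var 1).init.init (T0.var 2).init.init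
      (T0.var 3).init.init (T0.var 5).init.init (T0.var 6).init.init T0.last.init T0.last

theorem rho_anti {x x' s n c b : ℕ} (h : x ≤ x') (h' : rho x' s n c b) : rho x s n c b :=
  (Nat.mul_le_mul_right _ h).trans_lt h'


theorem QW_pos (a s t : Mod F U) :
    (∀ᶠ d in (U : Filter (List ℚ)), QW ![rep (Hm 0 : Mod F U) d, rep (cNM : Mod F U) d,
      rep (cDM : Mod F U) d, rep a d, rep (1 : Mod F U) d, rep s d, rep t d]) ↔
    ∃ m t' : Mod F U, ∀ᶠ d in (U : Filter (List ℚ)), QP (rep (Hm 0 : Mod F U) d)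
      (rep (cNM : Mod F U) d) (rep (cDM : Mod F U) d) (rep a d) (rep s d) (rep t d)
      (rep m d) (rep t' d) := by
  constructor
  · intro h
    obtain ⟨w, hw⟩ := skolem (e := true) (n := 6) (r := 2) (F := F) (U := U)
      (P := fun w : Fin 8 → ℕ => QP (w 0) (w 1) (w 2) (w 3) (w 4) (w 5) (w 6) (w 7))
      (QP_D0 (T0.var 0) (T0.var 1) (T0.var 2) (T0.var 3) (T0.var 4) (T0.var 5) (T0.var 6)
        (T0.var 7)) ![Hm 0, cNM, cDM, a, s, t] (by
        filter_upwards [h, rep_one (F := F) (U := U)] with d h1 h2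
        rcases h1 with h1 | h1
        · obtain ⟨_, m, _, t', _, h3⟩ := h1
          exact ⟨![m, t'], h3⟩
        · have h3 : rep (1 : Mod F U) d = 0 := h1.1
          omega)
    exact ⟨w 0, w 1, hw⟩
  · rintro ⟨m, t', h⟩
    filter_upwards [h, rep_one (F := F) (U := U)] with d h1 h2
    refine Or.inl ⟨h2, rep m d, ?_, rep t' d, ?_, h1⟩
    · exact Nat.lt_succ_of_le (digit_le h1.1)
    · exact Nat.lt_succ_of_le (digit_le h1.2.1)

theorem QW_neg (a s t : Mod F U) :
    (∀ᶠ d in (U : Filter (List ℚ)), QW ![rep (Hm 0 : Mod F U) d, rep (cNM : Mod F U) d,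
      rep (cDM : Mod F U) d, rep a d, rep (0 : Mod F U) d, rep s d, rep t d]) ↔
    ∃ m t' : Mod F U, ∀ᶠ d in (U : Filter (List ℚ)), QN (rep (Hm 0 : Mod F U) d)
      (rep (cNM : Mod F U) d) (rep (cDM : Mod F U) d) (rep a d) (rep s d) (rep t d)
      (rep m d) (rep t' d) := by
  constructor
  · intro h
    obtain ⟨w, hw⟩ := skolem (e := true) (n := 6) (r := 2) (F := F) (U := U)
      (P := fun w : Fin 8 → ℕ => QN (w 0) (w 1) (w 2) (w 3) (w 4) (w 5) (w 6) (w 7))
      (QN_D0 (T0.var 0) (T0.var 1) (T0.var 2) (T0.var 3) (T0.var 4) (T0.var 5) (T0.var 6)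
        (T0.var 7)) ![Hm 0, cNM, cDM, a, s, t] (by
        filter_upwards [h, rep_zero (F := F) (U := U)] with d h1 h2
        rcases h1 with h1 | h1
        · have h3 : rep (0 : Mod F U) d = 1 := h1.1
          omega
        · obtain ⟨_, m, _, t', _, h3⟩ := h1
          exact ⟨![m, t'], h3⟩)
    exact ⟨w 0, w 1, hw⟩
  · rintro ⟨m, t', h⟩
    filter_upwards [h, rep_zero (F := F) (U := U)] with d h1 h2
    refine Or.inr ⟨h2, rep m d, ?_, rep t' d, ?_, h1⟩
    · exact Nat.lt_succ_of_le (digit_le h1.1)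
    · exact Nat.lt_succ_of_le (digit_le h1.2.1)

theorem not_std_of_fset {m : Mod F U} (hm : m ∉ std F U) :
    fset ((1 + 1 : Mod F U) ^ m) ⊆ (std F U)ᶜ := by
  rw [fset_pow]
  rintro x hx
  rw [Set.mem_singleton_iff] at hx
  rw [hx]
  exact hm

theorem std_of_fset {m : Mod F U} (hm : m ∈ std F U) :
    fset ((1 + 1 : Mod F U) ^ m) ⊆ std F U := by
  rw [fset_pow]
  rintro x hx
  rw [Set.mem_singleton_iff] at hx
  rw [hx]
  exact hm

variable {z u v : ℕ → ℚ} (hR : RData F U z u v)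

include hR

theorem rho_std_d {s : ℕ} (hs : 0 < z s) (x : Mod F U) :
    ∀ᶠ d in (U : Filter (List ℚ)), (rho (rep x d) s (rep (cNM : Mod F U) d)
      (rep (cDM : Mod F U) d) (rep (Hm 0 : Mod F U) d) ↔ (rep x d : ℚ) < z s * bb d) := by
  filter_upwards [rep_cNM (F := F) (U := U), rep_cDM (F := F) (U := U),
    rep_Hm (F := F) (U := U) 0, hR.pref (s + 1)] with d h2 h3 h4 h5
  rw [h2, h3, h4]
  unfold rho
  rw [beta_cN d s (by omega), beta_cD d s (by omega), h5.2 s (by omega)]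
  exact rho_iff (z s) hs _ _

theorem z_pos {j m s : ℕ} (hm : ∀ s, m ≤ s → u j < z s ∧ z s < v j) (hs : m ≤ s) : 0 < z s :=
  (hR.u_nonneg j).trans_lt (hm s hs).1

theorem J_pos (a : Mod F U) : fset a ⊆ Jcut F U u ↔ ∃ s t : Mod F U, fset s ⊆ std F U ∧
    fset t ⊆ (std F U)ᶜ ∧ ∃ m t' : Mod F U, ∀ᶠ d in (U : Filter (List ℚ)),
      QP (rep (Hm 0 : Mod F U) d) (rep (cNM : Mod F U) d) (rep (cDM : Mod F U) d) (rep a d)
        (rep s d) (rep t d) (rep m d) (rep t' d) := by
  constructor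
  · intro h
    by_cases ha : a = 0
    · subst ha
      refine ⟨(1 + 1) ^ (0 : Mod F U), (1 + 1) ^ (Hm 0 : Mod F U), std_of_fset zero_mem_std,
        not_std_of_fset (Hm_not_std 0), 0, Hm 0, ?_⟩
      filter_upwards [rep_two_pow (0 : Mod F U), rep_two_pow (Hm 0 : Mod F U),
        rep_zero (F := F) (U := U)] with d h1 h2 h3
      refine ⟨?_, ?_, ?_⟩
      · rw [h1, digit_pow]
      · rw [h2, digit_pow]
      · intro x _ hx
        rw [h3] at hx
        exact absurd hx (not_digit_zero x)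
    · obtain ⟨x0, hx0, hx0'⟩ := fset_max ha
      obtain ⟨j, hj⟩ := h hx0
      obtain ⟨m, hm⟩ := hR.lim j
      obtain ⟨m', hm'⟩ := exists_nat (F := F) (U := U) m
      obtain ⟨t', ht', ht''⟩ := overspill (e := true) (n := 4) (F := F) (U := U)
        (P := fun w : Fin 5 → ℕ => rho (w 0) (w 4) (w 1) (w 2) (w 3))
        (rho_D0 (T0.var 0) (T0.var 4) (T0.var 1) (T0.var 2) (T0.var 3))
        ![x0, cNM, cDM, Hm 0] m (by
          intro k hk
          filter_upwards [hj, rho_std_d hR (z_pos hR hm hk) x0] with d h1 h2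
          refine h2.2 ?_
          have h3 : u j * bb d < z k * bb d := mul_lt_mul_of_pos_right (hm k hk).1 (bb_pos d)
          linarith)
      refine ⟨(1 + 1) ^ m', (1 + 1) ^ t', std_of_fset ⟨m, hm'⟩, not_std_of_fset ht', m', t', ?_⟩
      filter_upwards [rep_two_pow m', rep_two_pow t', ht'', hx0', hm'] with d h1 h2 h3 h4 h5
      refine ⟨?_, ?_, ?_⟩
      · rw [h1, digit_pow]
      · rw [h2, digit_pow]
      · intro x _ hx y hy hmy
        have h6 := h3 y (by omega) (by omega)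
        exact rho_anti (h4 x hx) h6
  · rintro ⟨s, t, hs, ht, m, t', h⟩ x hx
    have hm : m ∈ std F U := hs ((digit_iff m s).2 (h.mono fun d hd => hd.1))
    have ht' : t' ∉ std F U := ht ((digit_iff t' t).2 (h.mono fun d hd => hd.2.1))
    rw [mem_J_iff1 hR]
    refine ⟨m, hm, ?_⟩
    rintro y ⟨k, hk⟩ hmy
    have hx' := (digit_iff x a).1 hx
    filter_upwards [h, hx', hmy, hk, lt_of_not_std ht' k] with d h1 h2 h3 h4 h5
    exact h1.2.2 _ (Nat.lt_succ_of_le (digit_le h2)) h2 _ (by omega) h3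

theorem J_neg (a : Mod F U) : fset a ⊆ (Jcut F U u)ᶜ ↔ ∃ s t : Mod F U, fset s ⊆ std F U ∧
    fset t ⊆ (std F U)ᶜ ∧ ∃ m t' : Mod F U, ∀ᶠ d in (U : Filter (List ℚ)),
      QN (rep (Hm 0 : Mod F U) d) (rep (cNM : Mod F U) d) (rep (cDM : Mod F U) d) (rep a d)
        (rep s d) (rep t d) (rep m d) (rep t' d) := by
  constructor
  · intro h
    by_cases ha : a = 0
    · subst ha
      refine ⟨(1 + 1) ^ (0 : Mod F U), (1 + 1) ^ (Hm 0 : Mod F U), std_of_fset zero_mem_std,
        not_std_of_fset (Hm_not_std 0), 0, Hm 0, ?_⟩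
      filter_upwards [rep_two_pow (0 : Mod F U), rep_two_pow (Hm 0 : Mod F U),
        rep_zero (F := F) (U := U)] with d h1 h2 h3
      refine ⟨?_, ?_, ?_⟩
      · rw [h1, digit_pow]
      · rw [h2, digit_pow]
      · intro x _ hx
        rw [h3] at hx
        exact absurd hx (not_digit_zero x)
    · obtain ⟨x0, hx0, hx0'⟩ := fset_min ha
      obtain ⟨j, hj⟩ : ∃ j, ∀ᶠ d in (U : Filter (List ℚ)), v j * bb d < rep x0 d := by
        rcases dich hR x0 with h1 | h1
        · exact absurd h1 (h hx0)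
        · exact h1
      obtain ⟨m, hm⟩ := hR.lim j
      obtain ⟨m', hm'⟩ := exists_nat (F := F) (U := U) m
      obtain ⟨t', ht', ht''⟩ := overspill (e := true) (n := 4) (F := F) (U := U)
        (P := fun w : Fin 5 → ℕ => ¬ rho (w 0) (w 4) (w 1) (w 2) (w 3))
        (rho_D0 (T0.var 0) (T0.var 4) (T0.var 1) (T0.var 2) (T0.var 3)).not
        ![x0, cNM, cDM, Hm 0] m (by
          intro k hk
          filter_upwards [hj, rho_std_d hR (z_pos hR hm hk) x0] with d h1 h2 h4
          have h5 := h2.1 h4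
          have h3 : z k * bb d < v j * bb d := mul_lt_mul_of_pos_right (hm k hk).2 (bb_pos d)
          linarith)
      refine ⟨(1 + 1) ^ m', (1 + 1) ^ t', std_of_fset ⟨m, hm'⟩, not_std_of_fset ht', m', t', ?_⟩
      filter_upwards [rep_two_pow m', rep_two_pow t', ht'', hx0', hm'] with d h1 h2 h3 h4 h5
      refine ⟨?_, ?_, ?_⟩
      · rw [h1, digit_pow]
      · rw [h2, digit_pow]
      · intro x _ hx y hy hmy h7
        have h6 := h3 y (by omega) (by omega)
        exact h6 (rho_anti (h4 x hx) h7)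
  · rintro ⟨s, t, hs, ht, m, t', h⟩ x hx hxJ
    have hm : m ∈ std F U := hs ((digit_iff m s).2 (h.mono fun d hd => hd.1))
    have ht' : t' ∉ std F U := ht ((digit_iff t' t).2 (h.mono fun d hd => hd.2.1))
    obtain ⟨y, ⟨k, hk⟩, hmy, h1⟩ := (mem_J_iff2 hR x).1 hxJ m hm
    have hx' := (digit_iff x a).1 hx
    obtain ⟨d, h2, h3, h4, h5, h6, h7⟩ := (h.and (hx'.and (hmy.and (hk.and (h1.and
      (lt_of_not_std ht' k)))))).exists
    exact h2.2.2 _ (Nat.lt_succ_of_le (digit_le h3)) h3 _ (by omega) h4 h6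

theorem J_le_std (e : Bool) : TuringLE e (Jcut F U u) (std F U) := by
  obtain ⟨φ, hφ, hφ'⟩ := (S1.of_D0 (e' := e) QW_D0).syn
  have key : ∀ a i s t : Mod F U, Sat (φ : Fml e (3 + 4))
      (Fin.append (![Hm 0, cNM, cDM] : Fin 3 → Mod F U) ![a, i, s, t]) ↔
      ∀ᶠ d in (U : Filter (List ℚ)), QW ![rep (Hm 0 : Mod F U) d, rep (cNM : Mod F U) d,
      rep (cDM : Mod F U) d, rep a d, rep i d, rep s d, rep t d] := by
    intro a i s t
    rw [los_sigma (n := 3 + 4) (φ := φ) hφ]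
    apply iff_of_eq
    congr 1
    funext d
    apply propext
    refine (hφ' _).trans ?_
    exact Iff.rfl
  refine ⟨fun a i s t => Sat (φ : Fml e (3 + 4))
    (Fin.append (![Hm 0, cNM, cDM] : Fin 3 → Mod F U) ![a, i, s, t]),
    ⟨3, φ, _, hφ, fun _ _ _ _ => Iff.rfl⟩, fun a => ⟨?_, ?_⟩⟩
  · simp only [key, QW_pos]
    exact J_pos hR a
  · simp only [key, QW_neg]
    exact J_neg hR a

end

end Pool.Agent.Helper626
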