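import Pool.Agent.Helper626.Deg2

namespace Pool.Agent.Helper626

open FirstOrder FirstOrder.Language Filter

theorem S1.comp_append {e : Bool} {n m r : ℕ} {P : (Fin (m + r) → ℕ) → Prop} (hP : S1 e P)
    {s : Fin m → (Fin n → ℕ) → ℕ} {t : Fin r → (Fin n → ℕ) → ℕ} (hs : ∀ i, T0 e (s i))
    (ht : ∀ i, T0 e (t i)) :
    S1 e (fun v => P (Fin.append (fun i => s i v) (fun i => t i v))) := by
  have := hP.comp (n := n) (t := Fin.append s t) (by
    intro i
    refine Fin.addCases (fun i => ?_) (fun i => ?_) i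
    · rw [Fin.append_left]; exact hs i
    · rw [Fin.append_right]; exact ht i)
  refine this.of_iff fun v => ?_
  have h2 : (fun i => Fin.append s t i v) = Fin.append (fun i => s i v) (fun i => t i v) := by
    funext i
    refine Fin.addCases (fun i => ?_) (fun i => ?_) i
    · rw [Fin.append_left, Fin.append_left]
    · rw [Fin.append_right, Fin.append_right]
  rw [h2]

theorem append_zero_nat {n : ℕ} (v : Fin n → ℕ) (w : Fin 0 → ℕ) : Fin.append v w = v := by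
  funext i
  have := Fin.append_left v w i
  exact this

theorem S1.exb {e : Bool} {n : ℕ} : ∀ (r : ℕ) {P : (Fin (n + r) → ℕ) → Prop}, S1 e P →
    S1 e (fun v : Fin n → ℕ => ∃ w : Fin r → ℕ, P (Fin.append v w))
  | 0, P, h => by
    refine S1.of_iff (P := P) h fun v => ?_
    constructor
    · rintro ⟨w, hw⟩
      rwa [append_zero_nat] at hw
    · intro h
      refine ⟨Fin.elim0, ?_⟩
      rwa [append_zero_nat]
  | r + 1, P, h => by
    have h1 : S1 e (fun v : Fin (n + r) → ℕ => ∃ x, P (Fin.snoc v x : Fin (n + r + 1) → ℕ)) := by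
      refine S1.ex (Q := fun v x => P (Fin.snoc v x : Fin (n + r + 1) → ℕ)) ?_
      refine S1.of_iff (P := P) h fun w => ?_
      rw [Fin.snoc_init_self]
    refine (S1.exb r h1).of_iff fun v => ?_
    constructor
    · rintro ⟨w, hw⟩
      refine ⟨Fin.init w, w (Fin.last r), ?_⟩
      rw [← append_snoc', Fin.snoc_init_self]
      exact hw
    · rintro ⟨w, x, hw⟩
      refine ⟨Fin.snoc w x, ?_⟩
      rw [append_snoc']
      exact hw

section

variable {F : Set (List ℚ → ℕ)} {U : Ultrafilter (List ℚ)} [hA : Fact (Adm F U)]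

theorem S1.los {e : Bool} {n : ℕ} {P : (Fin n → ℕ) → Prop} (hP : S1 e P) :
    ∃ φ : Fml e n, IsSigma 1 φ ∧ ∀ x : Fin n → Mod F U, Sat φ x ↔
      ∀ᶠ d in (U : Filter (List ℚ)), P (fun i => rep (x i) d) := by
  obtain ⟨φ, hφ, hφ'⟩ := hP.syn
  refine ⟨φ, hφ, fun x => ?_⟩
  rw [los_sigma hφ]
  simp only [hφ']

theorem SigmaDef.succ {e : Bool} {X : Set (Mod F U)} (h : SigmaDef e 1 X) : SigmaDef e 2 X := by
  obtain ⟨m, φ, p, ⟨r, ψ, hψ, rfl⟩, h⟩ := h
  exact ⟨m, _, p, ⟨r, ψ, ⟨0, ψ, hψ, rfl⟩, rfl⟩, h⟩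

/-- the relation expressing membership through the reduction to the empty set -/
def RJ {e : Bool} {m : ℕ} (φ : Fml e (m + 4)) (w : Fin (m + 1 + 2) → ℕ) : Prop :=
  w (Fin.natAdd (m + 1) 0) = (1 + 1) ^ w (Fin.castAdd 2 (Fin.last m)) ∧
  Sat φ (Fin.append (fun i : Fin m => w (Fin.castAdd 2 i.castSucc))
    ![w (Fin.natAdd (m + 1) 0), 1, 0, w (Fin.natAdd (m + 1) 1)])

theorem RJ_S1 {e : Bool} {m : ℕ} {φ : Fml e (m + 4)} (hφ : IsSigma 1 φ) : S1 e (RJ φ) := by
  unfold RJ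
  refine S1.and (S1.of_D0 (e := true) (D0.eq (T0.var _) (D0.two (T0.var _)))) ?_
  refine ((S1.of_sigma hφ).comp_append (s := fun i w => w (Fin.castAdd 2 i.castSucc))
    (t := ![fun w => w (Fin.natAdd (m + 1) 0), fun _ => 1, fun _ => 0,
      fun w => w (Fin.natAdd (m + 1) 1)]) (fun i => T0.var _) (fun i => ?_)).of_iff fun w => ?_
  · fin_cases i
    · exact T0.var _
    · exact T0.one
    · exact T0.zero
    · exact T0.var _
  · apply iff_of_eq
    congr 2
    funext i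
    fin_cases i <;> rfl

theorem subset_empty_iff (s : Mod F U) : fset s ⊆ ∅ ↔ s = 0 := fset_empty_iff s

theorem sigma_of_le_empty {e : Bool} {X : Set (Mod F U)} (h : TuringLE e X ∅) : SigmaDef e 1 X := by
  obtain ⟨W, ⟨m, φ, p, hφ, hW⟩, h⟩ := h
  obtain ⟨ψ, hψ, hψ'⟩ := ((RJ_S1 hφ).exb 2).los (F := F) (U := U)
  refine ⟨m, ψ, p, hψ, fun x => ?_⟩
  have h1 : x ∈ X ↔ ∃ t : Mod F U, Sat φ (Fin.append p ![(1 + 1) ^ x, 1, 0, t]) := by
    have h2 := (h ((1 + 1) ^ x)).1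
    rw [fset_pow, Set.singleton_subset_iff] at h2
    rw [h2]
    constructor
    · rintro ⟨s, t, hs, _, h3⟩
      rw [fset_empty_iff] at hs
      subst hs
      exact ⟨t, (hW _ _ _ _).1 h3⟩
    · rintro ⟨t, ht⟩
      refine ⟨0, t, by rw [fset_zero], by simp, (hW _ _ _ _).2 ht⟩
  have e4 : ∀ (a t : Mod F U) (d : List ℚ),
      (fun i => rep (Fin.append p ![a, 1, 0, t] i) d) =
      Fin.append (fun i => rep (p i) d) ![rep a d, rep (1 : Mod F U) d, rep (0 : Mod F U) d,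
        rep t d] := by
    intro a t d
    rw [rep_append]
    congr 1
    funext i
    fin_cases i <;> rfl
  have e5 : ∀ (v : Fin m → ℕ) (x : ℕ) (w : Fin 2 → ℕ), RJ φ (Fin.append (Fin.snoc v x :
      Fin (m + 1) → ℕ) w) ↔ (w 0 = (1 + 1) ^ x ∧ Sat φ (Fin.append v ![w 0, 1, 0, w 1])) := by
    intro v x w
    unfold RJ
    simp only [Fin.append_left, Fin.append_right, Fin.snoc_last, Fin.snoc_castSucc]
  rw [h1, hψ']
  simp only [rep_snoc]
  constructor
  · rintro ⟨t, ht⟩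
    rw [los_sigma hφ] at ht
    simp only [e4] at ht
    filter_upwards [ht, rep_two_pow x, rep_zero (F := F) (U := U), rep_one (F := F) (U := U)]
      with d h2 h3 h4 h5
    refine ⟨![(1 + 1) ^ rep x d, rep t d], ?_⟩
    rw [e5]
    rw [h3, h4, h5] at h2
    exact ⟨rfl, h2⟩
  · intro h2
    have h3 : ∀ᶠ d in (U : Filter (List ℚ)), ∃ w : Fin 2 → ℕ, RJ φ (Fin.append
        (fun i => rep ((Fin.snoc p x : Fin (m + 1) → Mod F U) i) d) w) := by
      filter_upwards [h2] with d hd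
      rw [rep_snoc]
      exact hd
    obtain ⟨w, hw⟩ := skolemS1 (RJ_S1 hφ) _ h3
    refine ⟨w 1, ?_⟩
    rw [los_sigma hφ]
    simp only [e4]
    filter_upwards [hw, rep_two_pow x, rep_zero (F := F) (U := U), rep_one (F := F) (U := U)]
      with d h2 h3 h4 h5
    rw [rep_snoc, e5] at h2
    rw [h3, h4, h5, ← h2.1]
    exact h2.2

/-! ### the standard cut is not below `J` -/

/-- the relation used in the diagonalization -/
def Psi {e : Bool} {m : ℕ} (φ : Fml e (m + 4)) (d : List ℚ) (v : Fin m → ℕ) (n : ℕ) (w1 w2 : ℚ) :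
    Prop :=
  ∃ σ τ : ℕ, (∀ x, Digit x σ → (x : ℚ) ≤ w1 * bb d) ∧ (∀ x, Digit x τ → w2 * bb d ≤ x) ∧
    Sat φ (Fin.append v ![(1 + 1) ^ n, 0, σ, τ])

theorem Psi.mono {e : Bool} {m : ℕ} {φ : Fml e (m + 4)} {d : List ℚ} {v : Fin m → ℕ} {n : ℕ}
    {w1 w2 w1' w2' : ℚ} (h : Psi φ d v n w1 w2) (h1 : w1 ≤ w1') (h2 : w2' ≤ w2) :
    Psi φ d v n w1' w2' := by
  obtain ⟨σ, τ, h3, h4, h5⟩ := h
  refine ⟨σ, τ, fun x hx => ?_, fun x hx => ?_, h5⟩
  · have := mul_le_mul_of_nonneg_right h1 (bb_pos d).le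
    exact (h3 x hx).trans this
  · have := mul_le_mul_of_nonneg_right h2 (bb_pos d).le
    exact this.trans (h4 x hx)

/-- an enumeration of the pairs of rationals -/
noncomputable def pr : ℕ → ℚ × ℚ := Classical.choose (exists_surjective_nat (ℚ × ℚ))

theorem pr_surj : Function.Surjective pr := Classical.choose_spec (exists_surjective_nat (ℚ × ℚ))

/-- good stages -/
def Good {e : Bool} {m : ℕ} (φ : Fml e (m + 4)) (lo hi : ℚ) (d : List ℚ) (v : Fin m → ℕ)
    (κ : ℕ) : Prop :=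
  ∀ n, n < κ → ∀ i, i < κ → lo ≤ (pr i).1 → (pr i).1 < (pr i).2 → (pr i).2 ≤ hi →
    ¬ Psi φ d v n (pr i).1 (pr i).2

/-- choice problem: the last good stage -/
def opDiag (e : Bool) (m : ℕ) (φ : Fml e (m + 4)) (lo hi : ℚ) (d : List ℚ) (v : Fin m → ℕ)
    (w : Fin 1 → ℕ) : Prop :=
  w 0 ≤ bb d ∧ Good φ lo hi d v (w 0) ∧ (w 0 = bb d ∨ ¬ Good φ lo hi d v (w 0 + 1))

/-- the test for the diagonalization -/
def tDiag (e : Bool) (m : ℕ) (φ : Fml e (m + 4)) (f : Fin m → (List ℚ → ℕ)) : Test :=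
  fun n w1 w2 => {d | Psi φ d (fun a => f a d) n w1 w2}

theorem opDiag_exists {e : Bool} {m : ℕ} (φ : Fml e (m + 4)) (lo hi : ℚ) (d : List ℚ)
    (v : Fin m → ℕ) : ∃ w, opDiag e m φ lo hi d v w := by
  classical
  have h0 : Good φ lo hi d v 0 := fun n hn => absurd hn (Nat.not_lt_zero _)
  have h1 := Nat.findGreatest_spec (P := fun κ => Good φ lo hi d v κ) (Nat.zero_le (bb d)) h0
  have h2 : Nat.findGreatest (fun κ => Good φ lo hi d v κ) (bb d) ≤ bb d := Nat.findGreatest_le _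
  refine ⟨fun _ => Nat.findGreatest (fun κ => Good φ lo hi d v κ) (bb d), h2, h1, ?_⟩
  by_contra hcon
  push Not at hcon
  exact Nat.findGreatest_is_greatest (P := fun κ => Good φ lo hi d v κ) (Nat.lt_succ_self _)
    (by omega) hcon.2

/-- the relation for the Skolem functions of `Psi` -/
def RP {e : Bool} {m : ℕ} (φ : Fml e (m + 4)) (A1 B1 A2 B2 : ℕ) (w : Fin (m + 2 + 3) → ℕ) : Prop :=
  (w (Fin.natAdd (m + 2) 0) = (1 + 1) ^ w (Fin.castAdd 3 (Fin.last m).castSucc) ∧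
  ((∀ x, x < w (Fin.natAdd (m + 2) 1) + 1 → (Digit x (w (Fin.natAdd (m + 2) 1)) →
    x * B1 ≤ A1 * w (Fin.castAdd 3 (Fin.last (m + 1))))) ∧
  (∀ x, x < w (Fin.natAdd (m + 2) 2) + 1 → (Digit x (w (Fin.natAdd (m + 2) 2)) →
    A2 * w (Fin.castAdd 3 (Fin.last (m + 1))) ≤ x * B2)))) ∧
  Sat φ (Fin.append (fun i : Fin m => w (Fin.castAdd 3 i.castSucc.castSucc))
    ![w (Fin.natAdd (m + 2) 0), 0, w (Fin.natAdd (m + 2) 1), w (Fin.natAdd (m + 2) 2)])

theorem RP_S1 {e : Bool} {m : ℕ} {φ : Fml e (m + 4)} (hφ : IsSigma 1 φ) (A1 B1 A2 B2 : ℕ) :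
    S1 e (RP φ A1 B1 A2 B2) := by
  unfold RP
  refine S1.and (S1.of_D0 (e := true) ((D0.eq (T0.var _) (D0.two (T0.var _))).and
    ((D0.ball ((T0.var _).add T0.one) ((D0.digit T0.last (T0.var _).init).imp
      (D0.le (T0.last.mul (T0.const _)) ((T0.const _).mul (T0.var _).init)))).and
    (D0.ball ((T0.var _).add T0.one) ((D0.digit T0.last (T0.var _).init).imp
      (D0.le ((T0.const _).mul (T0.var _).init) (T0.last.mul (T0.const _)))))))) ?_
  refine ((S1.of_sigma hφ).comp_append (s := fun i w => w (Fin.castAdd 3 i.castSucc.castSucc))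
    (t := ![fun w => w (Fin.natAdd (m + 2) 0), fun _ => 0, fun w => w (Fin.natAdd (m + 2) 1),
      fun w => w (Fin.natAdd (m + 2) 2)]) (fun i => T0.var _) (fun i => ?_)).of_iff fun w => ?_
  · fin_cases i
    · exact T0.var _
    · exact T0.zero
    · exact T0.var _
    · exact T0.var _
  · apply iff_of_eq
    congr 2
    funext i
    fin_cases i <;> rfl

theorem rat_le_iff (q : ℚ) (hq : 0 ≤ q) (x b : ℕ) :
    x * q.den ≤ q.num.toNat * b ↔ (x : ℚ) ≤ q * b := by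
  have h1 : (0 : ℚ) < q.den := by exact_mod_cast q.den_pos
  have h2 : 0 ≤ q.num := Rat.num_nonneg.2 hq
  have h3 : (q.num.toNat : ℤ) = q.num := Int.toNat_of_nonneg h2
  have h3' : (q.num.toNat : ℚ) = q.num := by exact_mod_cast h3
  have h4 : q * q.den = q.num := Rat.mul_den_eq_num q
  constructor
  · intro h
    have h5 : ((x * q.den : ℕ) : ℚ) ≤ ((q.num.toNat * b : ℕ) : ℚ) := by exact_mod_cast h
    push_cast at h5
    rw [h3', ← h4] at h5
    have h6 : (x : ℚ) * q.den ≤ (q * b) * q.den := by linarith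
    exact le_of_mul_le_mul_right h6 h1
  · intro h
    have h6 : (x : ℚ) * q.den ≤ (q * b) * q.den := mul_le_mul_of_nonneg_right h h1.le
    have h5 : ((x * q.den : ℕ) : ℚ) ≤ ((q.num.toNat * b : ℕ) : ℚ) := by
      push_cast
      rw [h3', ← h4]
      linarith
    exact_mod_cast h5

theorem rat_ge_iff (q : ℚ) (hq : 0 ≤ q) (x b : ℕ) :
    q.num.toNat * b ≤ x * q.den ↔ q * b ≤ (x : ℚ) := by
  have h1 : (0 : ℚ) < q.den := by exact_mod_cast q.den_pos
  have h2 : 0 ≤ q.num := Rat.num_nonneg.2 hq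
  have h3 : (q.num.toNat : ℤ) = q.num := Int.toNat_of_nonneg h2
  have h3' : (q.num.toNat : ℚ) = q.num := by exact_mod_cast h3
  have h4 : q * q.den = q.num := Rat.mul_den_eq_num q
  constructor
  · intro h
    have h5 : ((q.num.toNat * b : ℕ) : ℚ) ≤ ((x * q.den : ℕ) : ℚ) := by exact_mod_cast h
    push_cast at h5
    rw [h3', ← h4] at h5
    have h6 : (q * b) * q.den ≤ (x : ℚ) * q.den := by linarith
    exact le_of_mul_le_mul_right h6 h1
  · intro h
    have h6 : (q * b) * q.den ≤ (x : ℚ) * q.den := mul_le_mul_of_nonneg_right h h1.le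
    have h5 : ((q.num.toNat * b : ℕ) : ℚ) ≤ ((x * q.den : ℕ) : ℚ) := by
      push_cast
      rw [h3', ← h4]
      linarith
    exact_mod_cast h5

variable {z u v : ℕ → ℚ} (hR : RData F U z u v)

include hR

theorem Psi_solution {e : Bool} {m : ℕ} {φ : Fml e (m + 4)} (hφ : IsSigma 1 φ)
    (p : Fin m → Mod F U) (n : Mod F U) (j : ℕ)
    (h : ∀ᶠ d in (U : Filter (List ℚ)), Psi φ d (fun i => rep (p i) d) (rep n d) (u j) (v j)) :
    ∃ σ τ : Mod F U, fset σ ⊆ Jcut F U u ∧ fset τ ⊆ (Jcut F U u)ᶜ ∧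
      Sat φ (Fin.append p ![(1 + 1) ^ n, 0, σ, τ]) := by
  have hu := hR.u_nonneg j
  have hv : 0 ≤ v j := hu.trans (hR.huv j).le
  have e5 : ∀ (v' : Fin m → ℕ) (x b : ℕ) (w : Fin 3 → ℕ), RP φ (u j).num.toNat (u j).den
      (v j).num.toNat (v j).den (Fin.append (Fin.snoc (Fin.snoc v' x :
      Fin (m + 1) → ℕ) b : Fin (m + 2) → ℕ) w) ↔ ((w 0 = (1 + 1) ^ x ∧
        ((∀ x, x < w 1 + 1 → (Digit x (w 1) → x * (u j).den ≤ (u j).num.toNat * b)) ∧
        (∀ x, x < w 2 + 1 → (Digit x (w 2) → (v j).num.toNat * b ≤ x * (v j).den)))) ∧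
          Sat φ (Fin.append v' ![w 0, 0, w 1, w 2])) := by
    intro v x b w
    unfold RP
    simp only [Fin.append_left, Fin.append_right, Fin.snoc_last, Fin.snoc_castSucc]
  have h3 : ∀ᶠ d in (U : Filter (List ℚ)), ∃ w : Fin 3 → ℕ, RP φ (u j).num.toNat (u j).den
      (v j).num.toNat (v j).den (Fin.append (fun i => rep ((Fin.snoc (Fin.snoc p n :
        Fin (m + 1) → Mod F U) (Hm 0) : Fin (m + 2) → Mod F U) i) d) w) := by
    filter_upwards [h, rep_Hm (F := F) (U := U) 0] with d h1 h2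
    obtain ⟨σ, τ, h3, h4, h5⟩ := h1
    refine ⟨![(1 + 1) ^ rep n d, σ, τ], ?_⟩
    rw [rep_snoc, rep_snoc, e5]
    refine ⟨⟨rfl, ?_, ?_⟩, h5⟩
    · intro x _ hx
      rw [h2]
      exact (rat_le_iff (u j) hu _ _).2 (h3 x hx)
    · intro x _ hx
      rw [h2]
      exact (rat_ge_iff (v j) hv _ _).2 (h4 x hx)
  obtain ⟨w, hw⟩ := skolemS1 (RP_S1 hφ _ _ _ _) _ h3
  have hw' : ∀ᶠ d in (U : Filter (List ℚ)), (rep (w 0) d = (1 + 1) ^ rep n d ∧
        ((∀ x, Digit x (rep (w 1) d) → (x : ℚ) ≤ u j * bb d) ∧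
        (∀ x, Digit x (rep (w 2) d) → v j * bb d ≤ x))) ∧
          Sat φ (Fin.append (fun i => rep (p i) d) ![rep (w 0) d, 0, rep (w 1) d, rep (w 2) d]) := by
    filter_upwards [hw, rep_Hm (F := F) (U := U) 0] with d h1 h2
    rw [rep_snoc, rep_snoc, e5] at h1
    obtain ⟨⟨h3, h4, h5⟩, h6⟩ := h1
    refine ⟨⟨h3, fun x hx => ?_, fun x hx => ?_⟩, h6⟩
    · have h7 := h4 x (Nat.lt_succ_of_le (digit_le hx)) hx
      rw [h2] at h7
      exact (rat_le_iff (u j) hu _ _).1 h7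
    · have h7 := h5 x (Nat.lt_succ_of_le (digit_le hx)) hx
      rw [h2] at h7
      exact (rat_ge_iff (v j) hv _ _).1 h7
  refine ⟨w 1, w 2, ?_, ?_, ?_⟩
  · intro x hx
    have hx' := (digit_iff x (w 1)).1 hx
    refine ⟨j + 1, ?_⟩
    filter_upwards [hx', hw'] with d h1 h2
    have h4 := h2.1.2.1 _ h1
    have h5 : u j * bb d < u (j + 1) * bb d := mul_lt_mul_of_pos_right (hR.hu j) (bb_pos d)
    linarith
  · intro x hx
    have hx' := (digit_iff x (w 2)).1 hx
    refine not_mem_J hR (j := j + 1) ?_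
    filter_upwards [hx', hw'] with d h1 h2
    have h4 := h2.1.2.2 _ h1
    have h5 : v (j + 1) * bb d < v j * bb d := mul_lt_mul_of_pos_right (hR.hv j) (bb_pos d)
    linarith
  · rw [los_sigma hφ]
    filter_upwards [hw', rep_two_pow n, rep_zero (F := F) (U := U)] with d h1 h2 h3
    have e4 : (fun i => rep (Fin.append p ![(1 + 1) ^ n, 0, w 1, w 2] i) d) =
      Fin.append (fun i => rep (p i) d) ![rep (w 0) d, 0, rep (w 1) d, rep (w 2) d] := by
      rw [rep_append]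
      congr 1
      funext i
      fin_cases i
      · change rep ((1 + 1 : Mod F U) ^ n) d = rep (w 0) d
        rw [h2, h1.1.1]
      · exact h3
      · rfl
      · rfl
    rw [e4]
    exact h1.2

theorem J_bound {σ : Mod F U} (h : fset σ ⊆ Jcut F U u) : ∃ i,
    ∀ᶠ d in (U : Filter (List ℚ)), ∀ x, Digit x (rep σ d) → (x : ℚ) ≤ u i * bb d := by
  by_cases ha : σ = 0
  · subst ha
    refine ⟨0, ?_⟩
    filter_upwards [rep_zero (F := F) (U := U)] with d hd x hx
    rw [hd] at hx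
    exact absurd hx (not_digit_zero x)
  · obtain ⟨x0, hx0, hx0'⟩ := fset_max ha
    obtain ⟨i, hi⟩ := h hx0
    refine ⟨i, ?_⟩
    filter_upwards [hi, hx0'] with d h1 h2 x hx
    have h3 : (x : ℚ) ≤ rep x0 d := by exact_mod_cast h2 x hx
    linarith

theorem J_cobound {τ : Mod F U} (h : fset τ ⊆ (Jcut F U u)ᶜ) : ∃ i,
    ∀ᶠ d in (U : Filter (List ℚ)), ∀ x, Digit x (rep τ d) → v i * bb d ≤ x := by
  by_cases ha : τ = 0
  · subst ha
    refine ⟨0, ?_⟩
    filter_upwards [rep_zero (F := F) (U := U)] with d hd x hx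
    rw [hd] at hx
    exact absurd hx (not_digit_zero x)
  · obtain ⟨x0, hx0, hx0'⟩ := fset_min ha
    rcases dich hR x0 with h1 | ⟨i, hi⟩
    · exact absurd h1 (h hx0)
    · refine ⟨i, ?_⟩
      filter_upwards [hi, hx0'] with d h1 h2 x hx
      have h3 : (rep x0 d : ℚ) ≤ x := by exact_mod_cast h2 x hx
      linarith

theorem std_not_le_J (e : Bool)
    (hop : ∀ m φ lo hi, ClosedU (opDiag e m φ lo hi) F)
    (ht : ∀ (m : ℕ) (φ : Fml e (m + 4)) (f : Fin m → (List ℚ → ℕ)), (∀ a, f a ∈ F) →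
      Decided U u v (tDiag e m φ f)) :
    ¬ TuringLE e (std F U) (Jcut F U u) := by
  rintro ⟨W, ⟨m, φ, p, hφ, hW⟩, h⟩
  rcases ht m φ (fun i => rep (p i)) (fun i => (rep_pre (p i)).1) with
    ⟨k, w1, w2, j, h1, h2, _, h4⟩ | ⟨j, hj⟩
  · obtain ⟨n, hn⟩ := exists_nat (F := F) (U := U) k
    obtain ⟨σ, τ, h5, h6, h7⟩ := Psi_solution hR hφ p n j (by
      filter_upwards [h4, hn] with d h8 h9
      have h10 : Psi φ d (fun i => rep (p i) d) k w1 w2 := h8
      rw [h9]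
      exact h10.mono h1.le h2.le)
    have h8 := (h ((1 + 1) ^ n)).2.2 ⟨σ, τ, h5, h6, (hW _ _ _ _).2 h7⟩
    rw [fset_pow, Set.singleton_subset_iff] at h8
    exact h8 ⟨k, hn⟩
  · obtain ⟨g, hg, hg'⟩ := hop m φ (u j) (v j) (fun i => rep (p i)) (fun i => (rep_pre (p i)).1)
    have hg2 : ∀ d, opDiag e m φ (u j) (v j) d (fun i => rep (p i) d) (fun b => g b d) :=
      fun d => hg' d (opDiag_exists _ _ _ _ _)
    have hpre : IsPre F U (g 0) := ⟨hg 0, 0, Eventually.of_forall fun d => (hg2 d).1⟩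
    obtain ⟨κ, hκ⟩ := exists_rep (g 0) hpre
    have hκ' : κ ∉ std F U := by
      rintro ⟨k, hk⟩
      have h1 : ∀ᶠ d in (U : Filter (List ℚ)), ∀ n : Fin (k + 1), ∀ i : Fin (k + 1),
          u j ≤ (pr i).1 → (pr i).1 < (pr i).2 → (pr i).2 ≤ v j →
          ¬ Psi φ d (fun i => rep (p i) d) n (pr i).1 (pr i).2 := by
        rw [eventually_all]
        intro n
        rw [eventually_all]
        intro i
        by_cases hi : u j ≤ (pr i).1 ∧ (pr i).1 < (pr i).2 ∧ (pr i).2 ≤ v j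
        · exact (hj n _ _ hi.1 hi.2.1 hi.2.2).mono fun d hd _ _ _ => hd
        · exact Eventually.of_forall fun d h1 h2 h3 => absurd ⟨h1, h2, h3⟩ hi
      obtain ⟨d, h2, h3, h4, h5, h6⟩ := (h1.and (hk.and (hκ.and ((rep_Hm (F := F) (U := U) 0).and
        (lt_of_not_std (Hm_not_std (F := F) (U := U) 0) k))))).exists
      obtain ⟨_, _, h7⟩ := hg2 d
      beta_reduce at h7
      rw [← h4, h3] at h7
      rcases h7 with h7 | h7
      · rw [h5] at h6
        simp only [Function.iterate_zero, id_eq] at h6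
        omega
      · exact h7 fun n hn i hi => h2 ⟨n, hn⟩ ⟨i, hi⟩
    obtain ⟨κ', hκ1⟩ := exists_fun (e := true) (n := 1) (F := F) (U := U)
      (P := fun w : Fin 2 → ℕ => w 1 + 1 = w 0) (D0.eq ((T0.var 1).add T0.one) (T0.var 0))
      (fun _ => κ) (by
        filter_upwards [lt_of_not_std hκ' 0] with d hd
        refine ⟨rep κ d - 1, ?_⟩
        change rep κ d - 1 + 1 = rep κ d
        omega)
    have hκ2 : ∀ᶠ d in (U : Filter (List ℚ)), rep κ' d + 1 = rep κ d := hκ1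
    have hκ3 : κ' ∉ std F U := by
      rintro ⟨k, hk⟩
      exact hκ' ⟨k + 1, by
        filter_upwards [hk, hκ2] with d h1 h2
        omega⟩
    obtain ⟨σ, τ, h1, h2, h3⟩ := (h ((1 + 1) ^ κ')).2.1 (not_std_of_fset hκ3)
    obtain ⟨i1, hi1⟩ := J_bound hR h1
    obtain ⟨i2, hi2⟩ := J_cobound hR h2
    rw [hW, los_sigma hφ] at h3
    obtain ⟨N, hN⟩ := pr_surj (u (max j (max i1 i2)), v (max j (max i1 i2)))
    obtain ⟨d, h4, h5, h6, h7, h8, h9, h10, h11⟩ := (h3.and (hi1.and (hi2.and (hκ2.and (hκ.and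
      ((lt_of_not_std hκ' N).and ((rep_two_pow κ').and (rep_zero (F := F) (U := U))))))))).exists
    obtain ⟨_, h12, _⟩ := hg2 d
    beta_reduce at h12
    rw [← h8] at h12
    refine h12 (rep κ' d) (by omega) N h9 ?_ ?_ ?_ ?_
    · rw [hN]
      exact hR.umono (le_max_left _ _)
    · rw [hN]
      exact hR.huv _
    · rw [hN]
      exact hR.vanti (le_max_left _ _)
    · rw [hN]
      refine ⟨rep σ d, rep τ d, fun x hx => ?_, fun x hx => ?_, ?_⟩
      · have := mul_le_mul_of_nonneg_right (hR.umono ((le_max_left i1 i2).trans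
          (le_max_right j (max i1 i2)))) (bb_pos d).le
        exact (h5 x hx).trans this
      · have := mul_le_mul_of_nonneg_right (hR.vanti ((le_max_right i1 i2).trans
          (le_max_right j (max i1 i2)))) (bb_pos d).le
        exact this.trans (h6 x hx)
      · have e4 : (fun i => rep (Fin.append p ![(1 + 1) ^ κ', 0, σ, τ] i) d) =
          Fin.append (fun i => rep (p i) d) ![(1 + 1) ^ rep κ' d, 0, rep σ d, rep τ d] := by
          rw [rep_append]
          congr 1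
          funext i
          fin_cases i
          · exact h10
          · exact h11
          · rfl
          · rfl
        rw [e4] at h4
        exact h4

end

/-- the additional choice problems -/
def diagOps : Set TOp :=
  Set.range (fun x : Σ (e : Bool) (m : ℕ), Fml e (m + 4) × ℚ × ℚ =>
    (⟨x.2.1, 1, opDiag x.1 x.2.1 x.2.2.1 x.2.2.2.1 x.2.2.2.2⟩ : TOp))

/-- the additional tests -/
def diagTests (F : Set (List ℚ → ℕ)) : Set Test :=
  Set.range (fun x : Σ (e : Bool) (m : ℕ), Fml e (m + 4) × (Fin m → F) =>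
    tDiag x.1 x.2.1 x.2.2.1 (fun a => (x.2.2.2 a).1))

theorem exists_nonminimal : ∃ (M : Type) (_ : ArithOps M), PAminusExp M ∧
    (∀ e, ISigma e 1 M ∧ BSigma e 2 M) ∧ ∃ I X : Set M, IsCut I ∧ (∀ e, SigmaDef e 2 I) ∧
      ∀ e, TuringLE e ∅ X ∧ ¬ TuringLE e X ∅ ∧ TuringLE e X I ∧ ¬ TuringLE e I X := by
  obtain ⟨F, U, z, u, v, hA, hR, hgen, hbs, hind, hT, hB⟩ :=
    exists_data diagOps (Set.countable_range _) diagTests (fun F hF => by
      haveI : Countable F := hF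
      exact Set.countable_range _)
  haveI : Fact (Adm F U) := ⟨hA⟩
  refine ⟨Mod F U, inferInstance, mod_PAminusExp, fun e => ⟨mod_ISigma e (hind e),
    mod_BSigma e (hbs e) (hgen e)⟩, std F U, Jcut F U u, std_isCut, fun e => ?_, fun e =>
      ⟨empty_le e _, fun h => J_not_sigma hR e (hgen e) (sigma_of_le_empty h).succ,
        J_le_std hR e, std_not_le_J hR e ?_ ?_⟩⟩
  · obtain ⟨φ, hφ, h1⟩ := std_sigma (F := F) (U := U) e
    exact ⟨1, φ, _, hφ, h1⟩
  · intro m φ lo hi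
    exact hT ⟨m, 1, opDiag e m φ lo hi⟩ ⟨⟨e, m, φ, lo, hi⟩, rfl⟩
  · intro m φ f hf
    exact hB _ ⟨⟨e, m, φ, fun a => ⟨f a, hf a⟩⟩, rfl⟩

end Pool.Agent.Helper626
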