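import Pool.Agent.Helper626.Cut
import Pool.Agent.Helper626.Core

namespace Pool.Agent.Helper626

open FirstOrder FirstOrder.Language Filter

/-- tests -/
abbrev Test : Type := ℕ → ℚ → ℚ → Set (List ℚ)

/-- the test `B` is decided -/
def Decided (U : Ultrafilter (List ℚ)) (u v : ℕ → ℚ) (B : Test) : Prop :=
  (∃ k w1 w2 j, w1 < u j ∧ v j < w2 ∧ w1 < w2 ∧ ∀ᶠ d in (U : Filter (List ℚ)), d ∈ B k w1 w2) ∨
    (∃ j, ∀ k w1 w2, u j ≤ w1 → w1 < w2 → w2 ≤ v j →
      ∀ᶠ d in (U : Filter (List ℚ)), d ∉ B k w1 w2)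

/-- the test deciding the position of an element -/
def tConst (f : List ℚ → ℕ) : Test := fun _ _ w2 => {d | w2 * bb d < f d}

/-- the test for definitions -/
def tSig (e : Bool) (m r : ℕ) (π : Fml e (m + 1 + r)) (f : Fin m → (List ℚ → ℕ)) (b : Bool) : Test :=
  fun k w1 w2 => {d | ∃ x, opGen e m r π k (some (b, if b then w2 else w1)) d (fun a => f a d) x}

/-- the data of the generic real -/
structure RData (F : Set (List ℚ → ℕ)) (U : Ultrafilter (List ℚ)) (z u v : ℕ → ℚ) : Prop where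
  u0 : u 0 = 0
  v0 : v 0 = 1
  hu : ∀ j, u j < u (j + 1)
  hv : ∀ j, v (j + 1) < v j
  huv : ∀ j, u j < v j
  pref : ∀ t, ∀ᶠ d in (U : Filter (List ℚ)), t ≤ d.length ∧ ∀ s, s < t → d.getD s 0 = z s
  lim : ∀ j, ∃ m, ∀ s, m ≤ s → u j < z s ∧ z s < v j
  tc : ∀ f ∈ F, Decided U u v (tConst f)
  ts : ∀ (e : Bool) (m r : ℕ) (π : Fml e (m + 1 + r)) (f : Fin m → (List ℚ → ℕ)) (b : Bool),
    (∀ a, f a ∈ F) → Decided U u v (tSig e m r π f b)

section

variable {F : Set (List ℚ → ℕ)} {U : Ultrafilter (List ℚ)} [hA : Fact (Adm F U)]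

/-- the cut -/
def Jcut (F : Set (List ℚ → ℕ)) (U : Ultrafilter (List ℚ)) (u : ℕ → ℚ) : Set (Mod F U) :=
  {x | ∃ j, ∀ᶠ d in (U : Filter (List ℚ)), (rep x d : ℚ) < u j * bb d}

variable {z u v : ℕ → ℚ} (hR : RData F U z u v)

theorem bb_pos (d : List ℚ) : (0 : ℚ) < bb d := by
  have : 0 < bb d := by
    unfold bb
    omega
  exact_mod_cast this

include hR

omit hA in
theorem RData.umono : Monotone u := monotone_nat_of_le_succ fun j => (hR.hu j).le

omit hA in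
theorem RData.vanti : Antitone v := antitone_nat_of_succ_le fun j => (hR.hv j).le

omit hA in
theorem RData.u_lt_v (i j : ℕ) : u i < v j :=
  ((hR.umono (le_max_left i j)).trans_lt (hR.huv _)).trans_le (hR.vanti (le_max_right i j))

omit hA in
theorem RData.u_nonneg (j : ℕ) : 0 ≤ u j := by
  have := hR.umono (Nat.zero_le j)
  rwa [hR.u0] at this

omit hA in
theorem not_mem_J {x : Mod F U} {j : ℕ}
    (h : ∀ᶠ d in (U : Filter (List ℚ)), v j * bb d < rep x d) : x ∉ Jcut F U u := by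
  rintro ⟨i, hi⟩
  obtain ⟨d, h1, h2⟩ := (h.and hi).exists
  have h3 := hR.u_lt_v i j
  have h4 := bb_pos d
  have h5 : u i * bb d < v j * bb d := mul_lt_mul_of_pos_right h3 h4
  linarith

omit hA in
theorem dich (x : Mod F U) : x ∈ Jcut F U u ∨
    ∃ j, ∀ᶠ d in (U : Filter (List ℚ)), v j * bb d < rep x d := by
  rcases hR.tc (rep x) (rep_pre x).1 with ⟨k, w1, w2, j, _, h2, _, h4⟩ | ⟨j, hj⟩
  · right
    refine ⟨j, h4.mono fun d hd => ?_⟩
    have h5 : w2 * bb d < rep x d := hd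
    have h6 := bb_pos d
    have h7 : v j * bb d < w2 * bb d := mul_lt_mul_of_pos_right h2 h6
    linarith
  · left
    have h1 := hj 0 (u j) (u (j + 1)) le_rfl (hR.hu j) (hR.u_lt_v _ _).le
    refine ⟨j + 2, h1.mono fun d hd => ?_⟩
    have h5 : ¬ (u (j + 1) * bb d < rep x d) := hd
    have h6 := bb_pos d
    have h7 : u (j + 1) * bb d < u (j + 2) * bb d := mul_lt_mul_of_pos_right (hR.hu (j + 1)) h6
    push Not at h5
    linarith

theorem large (q : ℚ) (hq : 0 < q) : ∀ᶠ d in (U : Filter (List ℚ)), 1 < q * bb d := by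
  obtain ⟨n, hn⟩ := exists_nat_gt (1 / q)
  filter_upwards [hA.out.len n] with d hd
  have h1 : (n : ℚ) ≤ bb d := by
    have : n ≤ bb d := by
      unfold bb
      omega
    exact_mod_cast this
  have h2 : 1 / q < bb d := hn.trans_le h1
  rw [div_lt_iff₀ hq] at h2
  linarith

theorem J_isCut : IsCut (Jcut F U u) := by
  refine ⟨⟨0, 1, ?_⟩, ?_, ?_, ?_⟩
  · filter_upwards [rep_zero (F := F) (U := U)] with d hd
    rw [hd]
    have h1 := hR.hu 0
    rw [hR.u0] at h1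
    have := mul_pos h1 (bb_pos d)
    simpa using this
  · intro h
    have h1 : (Hm 0 : Mod F U) ∈ Jcut F U u := h ▸ Set.mem_univ _
    obtain ⟨j, hj⟩ := h1
    obtain ⟨d, h2, h3⟩ := (hj.and (rep_Hm (F := F) (U := U) 0)).exists
    rw [h3] at h2
    have h4 := hR.u_lt_v j 0
    rw [hR.v0] at h4
    have h5 := bb_pos d
    have h6 : u j * bb d < 1 * bb d := mul_lt_mul_of_pos_right h4 h5
    simp only [Function.iterate_zero, id_eq] at h2
    linarith
  · rintro x ⟨j, hj⟩ y hy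
    refine ⟨j, ?_⟩
    filter_upwards [hj, hy] with d h1 h2
    have : (rep y d : ℚ) < rep x d := by exact_mod_cast h2
    linarith
  · rintro x ⟨j, hj⟩
    refine ⟨j + 1, ?_⟩
    filter_upwards [hj, rep_add x 1, rep_one (F := F) (U := U),
      large hR (u (j + 1) - u j) (by have := hR.hu j; linarith)] with d h1 h2 h3 h4
    rw [h2, h3]
    push_cast
    linarith

omit hR hA in
theorem rho_iff (q : ℚ) (hq : 0 < q) (x b : ℕ) : x * q.den < q.num.toNat * b ↔ (x : ℚ) < q * b := by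
  have h1 : (0 : ℚ) < q.den := by exact_mod_cast q.den_pos
  have h2 : 0 < q.num := Rat.num_pos.2 hq
  have h3 : (q.num.toNat : ℤ) = q.num := Int.toNat_of_nonneg h2.le
  have h3' : (q.num.toNat : ℚ) = q.num := by exact_mod_cast h3
  have h4 : q * q.den = q.num := Rat.mul_den_eq_num q
  constructor
  · intro h
    have h5 : ((x * q.den : ℕ) : ℚ) < ((q.num.toNat * b : ℕ) : ℚ) := by exact_mod_cast h
    push_cast at h5
    rw [h3', ← h4] at h5
    have h6 : (x : ℚ) * q.den < (q * b) * q.den := by linarith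
    exact lt_of_mul_lt_mul_right h6 h1.le
  · intro h
    have h6 : (x : ℚ) * q.den < (q * b) * q.den := mul_lt_mul_of_pos_right h h1
    have h5 : ((x * q.den : ℕ) : ℚ) < ((q.num.toNat * b : ℕ) : ℚ) := by
      push_cast
      rw [h3', ← h4]
      linarith
    exact_mod_cast h5

/-- the relation used in the definition of the cut -/
def rho (x s n c b : ℕ) : Prop := x * Nat.beta c s < Nat.beta n s * b

omit hR hA in
theorem rho_D0 {e : Bool} {k : ℕ} {x s n c b : (Fin k → ℕ) → ℕ}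
    (hx : T0 e x) (hs : T0 e s) (hn : T0 e n) (hc : T0 e c) (hb : T0 e b) :
    D0 e (fun w => rho (x w) (s w) (n w) (c w) (b w)) := by
  refine (D0.bex (Q := fun w p => ∃ q, q < c w + 1 ∧ Nat.beta (n w) (s w) = p ∧
    Nat.beta (c w) (s w) = q ∧ x w * q < p * b w) (hn.add T0.one) (D0.bex (hc.init.add T0.one)
    (D0.and (D0.beta hn.init.init hs.init.init T0.last.init)
      (D0.and (D0.beta hc.init.init hs.init.init T0.last)
        (D0.lt (hx.init.init.mul T0.last) (T0.last.init.mul hb.init.init)))))).of_iff fun w => ?_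
  unfold rho
  constructor
  · intro h
    exact ⟨_, Nat.lt_succ_of_le (beta_le _ _), _, Nat.lt_succ_of_le (beta_le _ _), rfl, rfl, h⟩
  · rintro ⟨p, _, q, _, rfl, rfl, h⟩
    exact h

theorem rho_std {s : ℕ} (hs : 0 < z s) (x : Mod F U) {y : Mod F U}
    (hy : ∀ᶠ d in (U : Filter (List ℚ)), rep y d = s) :
    (∀ᶠ d in (U : Filter (List ℚ)), rho (rep x d) (rep y d) (rep (cNM : Mod F U) d)
      (rep (cDM : Mod F U) d) (rep (Hm 0 : Mod F U) d)) ↔
    ∀ᶠ d in (U : Filter (List ℚ)), (rep x d : ℚ) < z s * bb d := by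
  have key : ∀ᶠ d in (U : Filter (List ℚ)), (rho (rep x d) (rep y d) (rep (cNM : Mod F U) d)
      (rep (cDM : Mod F U) d) (rep (Hm 0 : Mod F U) d) ↔ (rep x d : ℚ) < z s * bb d) := by
    filter_upwards [hy, rep_cNM (F := F) (U := U), rep_cDM (F := F) (U := U),
      rep_Hm (F := F) (U := U) 0, hR.pref (s + 1)] with d h1 h2 h3 h4 h5
    rw [h1, h2, h3, h4]
    unfold rho
    rw [beta_cN d s (by omega), beta_cD d s (by omega), h5.2 s (by omega)]
    exact rho_iff (z s) hs _ _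
  constructor
  · intro h
    filter_upwards [h, key] with d h1 h2
    exact h2.1 h1
  · intro h
    filter_upwards [h, key] with d h1 h2
    exact h2.2 h1

theorem mem_J_iff1 (x : Mod F U) : x ∈ Jcut F U u ↔ ∃ m : Mod F U, m ∈ std F U ∧
    ∀ s : Mod F U, s ∈ std F U → (∀ᶠ d in (U : Filter (List ℚ)), rep m d ≤ rep s d) →
      ∀ᶠ d in (U : Filter (List ℚ)), rho (rep x d) (rep s d) (rep (cNM : Mod F U) d)
        (rep (cDM : Mod F U) d) (rep (Hm 0 : Mod F U) d) := by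
  constructor
  · rintro ⟨j, hj⟩
    obtain ⟨m, hm⟩ := hR.lim j
    obtain ⟨m', hm'⟩ := exists_nat (F := F) (U := U) m
    refine ⟨m', ⟨m, hm'⟩, ?_⟩
    rintro s ⟨n, hn⟩ hle
    obtain ⟨d, h1, h2, h3⟩ := (hm'.and (hn.and hle)).exists
    have h4 : m ≤ n := by omega
    have h5 := hm n h4
    rw [rho_std hR ((hR.u_nonneg j).trans_lt h5.1) x hn]
    filter_upwards [hj] with d hd
    have h6 := bb_pos d
    have h7 : u j * bb d < z n * bb d := mul_lt_mul_of_pos_right h5.1 h6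
    linarith
  · rintro ⟨m', ⟨m, hm⟩, h⟩
    rcases dich hR x with h1 | ⟨j, hj⟩
    · exact h1
    · exfalso
      obtain ⟨m2, hm2⟩ := hR.lim j
      obtain ⟨s, hs⟩ := exists_nat (F := F) (U := U) (m + m2)
      have h5 := hm2 (m + m2) (by omega)
      have h2 := h s ⟨_, hs⟩ (by
        filter_upwards [hs, hm] with d h1 h2
        omega)
      rw [rho_std hR ((hR.u_nonneg j).trans_lt h5.1) x hs] at h2
      obtain ⟨d, h3, h4⟩ := (h2.and hj).exists
      have h6 := bb_pos d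
      have h7 : z (m + m2) * bb d < v j * bb d := mul_lt_mul_of_pos_right h5.2 h6
      linarith

theorem mem_J_iff2 (x : Mod F U) : x ∈ Jcut F U u ↔ ∀ m : Mod F U, m ∈ std F U →
    ∃ s : Mod F U, s ∈ std F U ∧ (∀ᶠ d in (U : Filter (List ℚ)), rep m d ≤ rep s d) ∧
      ∀ᶠ d in (U : Filter (List ℚ)), rho (rep x d) (rep s d) (rep (cNM : Mod F U) d)
        (rep (cDM : Mod F U) d) (rep (Hm 0 : Mod F U) d) := by
  constructor
  · rintro ⟨j, hj⟩ m' ⟨m, hm⟩
    obtain ⟨m2, hm2⟩ := hR.lim j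
    obtain ⟨s, hs⟩ := exists_nat (F := F) (U := U) (m + m2)
    have h5 := hm2 (m + m2) (by omega)
    refine ⟨s, ⟨_, hs⟩, ?_, ?_⟩
    · filter_upwards [hs, hm] with d h1 h2
      omega
    · rw [rho_std hR ((hR.u_nonneg j).trans_lt h5.1) x hs]
      filter_upwards [hj] with d hd
      have h6 := bb_pos d
      have h7 : u j * bb d < z (m + m2) * bb d := mul_lt_mul_of_pos_right h5.1 h6
      linarith
  · intro h
    rcases dich hR x with h1 | ⟨j, hj⟩
    · exact h1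
    · exfalso
      obtain ⟨m, hm⟩ := hR.lim j
      obtain ⟨m', hm'⟩ := exists_nat (F := F) (U := U) m
      obtain ⟨s, ⟨n, hn⟩, hle, h2⟩ := h m' ⟨m, hm'⟩
      obtain ⟨d, h1, h3, h4⟩ := (hm'.and (hn.and hle)).exists
      have h4 : m ≤ n := by omega
      have h5 := hm n h4
      rw [rho_std hR ((hR.u_nonneg j).trans_lt h5.1) x hn] at h2
      obtain ⟨d, h3, h4⟩ := (h2.and hj).exists
      have h6 := bb_pos d
      have h7 : z n * bb d < v j * bb d := mul_lt_mul_of_pos_right h5.2 h6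
      linarith

omit hR in
theorem allth_iff {e : Bool} {R : ℕ → ℕ → ℕ → Prop}
    (hR1 : D0 e (fun v : Fin 3 → ℕ => R (v 0) (v 1) (v 2))) (hR2 : ∀ x y, hh x ≤ y ↔ ∀ z, R x y z)
    (k s : Mod F U) :
    (∀ z : Mod F U, ∀ᶠ d in (U : Filter (List ℚ)), th R (rep (Hm 0 : Mod F U) d) (rep k d) (rep s d)
      (rep z d)) ↔ ∀ᶠ d in (U : Filter (List ℚ)), seqOK (bb d) (rep k d) (rep s d) := by
  constructor
  · intro h
    by_contra hcon
    rw [← Ultrafilter.eventually_not] at hcon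
    obtain ⟨z, hz⟩ := exists_fun (e := e) (n := 3) (F := F) (U := U)
      (P := fun w : Fin 4 → ℕ => ¬ th R (w 0) (w 1) (w 2) (w 3))
      (th_D0 hR1 (T0.var 0) (T0.var 1) (T0.var 2) (T0.var 3)).not ![Hm 0, k, s] (by
        filter_upwards [hcon, rep_Hm (F := F) (U := U) 0] with d h1 h2
        rw [← th_iff hR2] at h1
        push Not at h1
        obtain ⟨z, hz⟩ := h1
        refine ⟨z, ?_⟩
        change ¬ th R (rep (Hm 0 : Mod F U) d) (rep k d) (rep s d) z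
        rw [h2]
        exact hz)
    obtain ⟨d, h1, h2⟩ := (hz.and (h z)).exists
    exact h1 h2
  · intro h z
    filter_upwards [h, rep_Hm (F := F) (U := U) 0] with d h1 h2
    rw [h2]
    exact (th_iff hR2 _ _ _).2 h1 _

theorem J_sigma (e : Bool) : SigmaDef e 3 (Jcut F U u) := by
  obtain ⟨R, hR1, hR2⟩ := hh_pi e
  obtain ⟨δ, hδ, hδ'⟩ := D0.syn (e := e) (P := fun w : Fin 10 → ℕ =>
      th R (w 0) (w 4) (w 5) (w 8) ∧ (th R (w 0) (w 6) (w 7) (w 9) →
        (w 4 ≤ w 6 → rho (w 3) (w 6) (w 1) (w 2) (w 0))))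
      ((th_D0 hR1 (T0.var _) (T0.var _) (T0.var _) (T0.var _)).and
        ((th_D0 hR1 (T0.var _) (T0.var _) (T0.var _) (T0.var _)).imp
          ((D0.le (T0.var _) (T0.var _)).imp
            (rho_D0 (T0.var _) (T0.var _) (T0.var _) (T0.var _) (T0.var _)))))
  refine ⟨3, exs 2 (alls 3 (exs 1 δ)), ![Hm 0, cNM, cDM],
    ⟨2, _, ⟨3, _, ⟨1, δ, hδ, rfl⟩, rfl⟩, rfl⟩, fun x => ?_⟩
  rw [mem_J_iff1 hR, sat_exs]
  have key : ∀ m s1 s s2 z1 z2 : Mod F U,
      Sat δ (Fin.append (Fin.append (Fin.append (Fin.snoc ![Hm 0, cNM, cDM] x : Fin 4 → Mod F U)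
        ![m, s1]) ![s, s2, z1]) (fun _ : Fin 1 => z2) : Fin 10 → Mod F U) ↔
      (∀ᶠ d in (U : Filter (List ℚ)), th R (rep (Hm 0 : Mod F U) d) (rep m d) (rep s1 d) (rep z1 d)) ∧
      ((∀ᶠ d in (U : Filter (List ℚ)), th R (rep (Hm 0 : Mod F U) d) (rep s d) (rep s2 d) (rep z2 d)) →
        (∀ᶠ d in (U : Filter (List ℚ)), rep m d ≤ rep s d) →
        ∀ᶠ d in (U : Filter (List ℚ)), rho (rep x d) (rep s d) (rep (cNM : Mod F U) d)
        (rep (cDM : Mod F U) d) (rep (Hm 0 : Mod F U) d)) := by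
    intro m s1 s s2 z1 z2
    rw [los_delta hδ, ← Ultrafilter.eventually_imp, ← Ultrafilter.eventually_imp,
      ← Filter.eventually_and]
    apply iff_of_eq
    congr 1
    funext d
    apply propext
    rw [hδ']
    rfl
  have eta2 : ∀ w : Fin 2 → Mod F U, w = ![w 0, w 1] := by
    intro w; funext i; fin_cases i <;> rfl
  have eta3 : ∀ w : Fin 3 → Mod F U, w = ![w 0, w 1, w 2] := by
    intro w; funext i; fin_cases i <;> rfl
  have eta1 : ∀ w : Fin 1 → Mod F U, w = fun _ => w 0 := by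
    intro w; funext i; fin_cases i; rfl
  constructor
  · rintro ⟨m, hm, h⟩
    obtain ⟨s1, hs1⟩ := (mem_std_iff m).1 hm
    refine ⟨![m, s1], ?_⟩
    rw [sat_alls]
    intro w
    rw [sat_exs, eta3 w]
    have h1 := (allth_iff hR1 hR2 m s1).2 hs1 (w 2)
    by_cases h2 : ∀ᶠ d in (U : Filter (List ℚ)), seqOK (bb d) (rep (w 0) d) (rep (w 1) d)
    · refine ⟨fun _ => 0, ?_⟩
      exact (key m s1 (w 0) (w 1) (w 2) 0).2 ⟨h1, fun _ h3 =>
        h (w 0) ((mem_std_iff _).2 ⟨_, h2⟩) h3⟩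
    · rw [← allth_iff hR1 hR2] at h2
      push Not at h2
      obtain ⟨z2, hz2⟩ := h2
      refine ⟨fun _ => z2, ?_⟩
      refine (key m s1 (w 0) (w 1) (w 2) z2).2 ⟨h1, fun h3 => ?_⟩
      obtain ⟨d, h4, h5⟩ := (h3.and hz2).exists
      exact absurd h4 h5
  · rintro ⟨w, hw⟩
    rw [eta2 w, sat_alls] at hw
    have h1 : ∀ s s2 z1 : Mod F U, ∃ z2 : Mod F U,
      (∀ᶠ d in (U : Filter (List ℚ)), th R (rep (Hm 0 : Mod F U) d) (rep (w 0) d) (rep (w 1) d)
        (rep z1 d)) ∧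
      ((∀ᶠ d in (U : Filter (List ℚ)), th R (rep (Hm 0 : Mod F U) d) (rep s d) (rep s2 d) (rep z2 d)) →
        (∀ᶠ d in (U : Filter (List ℚ)), rep (w 0) d ≤ rep s d) →
        ∀ᶠ d in (U : Filter (List ℚ)), rho (rep x d) (rep s d) (rep (cNM : Mod F U) d)
        (rep (cDM : Mod F U) d) (rep (Hm 0 : Mod F U) d)) := fun s s2 z1 => by
      have h2 := hw ![s, s2, z1]
      rw [sat_exs] at h2
      obtain ⟨w', hw'⟩ := h2
      rw [eta1 w'] at hw'
      exact ⟨w' 0, (key (w 0) (w 1) s s2 z1 (w' 0)).1 hw'⟩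
    have h2 : ∀ᶠ d in (U : Filter (List ℚ)), seqOK (bb d) (rep (w 0) d) (rep (w 1) d) := by
      rw [← allth_iff hR1 hR2]
      intro z1
      obtain ⟨_, h3, _⟩ := h1 0 0 z1
      exact h3
    refine ⟨w 0, (mem_std_iff _).2 ⟨_, h2⟩, fun s hs hle => ?_⟩
    obtain ⟨s2, hs2⟩ := (mem_std_iff s).1 hs
    obtain ⟨z2, _, h4⟩ := h1 s s2 0
    exact h4 ((allth_iff hR1 hR2 s s2).2 hs2 z2) hle

theorem J_pi (e : Bool) : PiDef e 3 (Jcut F U u) := by
  obtain ⟨R, hR1, hR2⟩ := hh_pi e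
  obtain ⟨δ, hδ, hδ'⟩ := D0.syn (e := e) (P := fun w : Fin 10 → ℕ =>
      th R (w 0) (w 4) (w 5) (w 8) → (th R (w 0) (w 6) (w 7) (w 9) ∧
        (w 4 ≤ w 6 ∧ rho (w 3) (w 6) (w 1) (w 2) (w 0))))
      ((th_D0 hR1 (T0.var _) (T0.var _) (T0.var _) (T0.var _)).imp
        ((th_D0 hR1 (T0.var _) (T0.var _) (T0.var _) (T0.var _)).and
          ((D0.le (T0.var _) (T0.var _)).and
            (rho_D0 (T0.var _) (T0.var _) (T0.var _) (T0.var _) (T0.var _)))))
  refine ⟨3, alls 2 (exs 3 (alls 1 δ)), ![Hm 0, cNM, cDM],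
    ⟨2, _, ⟨3, _, ⟨1, δ, hδ, rfl⟩, rfl⟩, rfl⟩, fun x => ?_⟩
  rw [mem_J_iff2 hR, sat_alls]
  have key : ∀ m s1 s s2 z1 z2 : Mod F U,
      Sat δ (Fin.append (Fin.append (Fin.append (Fin.snoc ![Hm 0, cNM, cDM] x : Fin 4 → Mod F U)
        ![m, s1]) ![s, s2, z1]) (fun _ : Fin 1 => z2) : Fin 10 → Mod F U) ↔
      ((∀ᶠ d in (U : Filter (List ℚ)), th R (rep (Hm 0 : Mod F U) d) (rep m d) (rep s1 d) (rep z1 d)) →
      ((∀ᶠ d in (U : Filter (List ℚ)), th R (rep (Hm 0 : Mod F U) d) (rep s d) (rep s2 d) (rep z2 d)) ∧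
        ((∀ᶠ d in (U : Filter (List ℚ)), rep m d ≤ rep s d) ∧
        ∀ᶠ d in (U : Filter (List ℚ)), rho (rep x d) (rep s d) (rep (cNM : Mod F U) d)
        (rep (cDM : Mod F U) d) (rep (Hm 0 : Mod F U) d)))) := by
    intro m s1 s s2 z1 z2
    rw [los_delta hδ, ← Filter.eventually_and, ← Filter.eventually_and, ← Ultrafilter.eventually_imp]
    apply iff_of_eq
    congr 1
    funext d
    apply propext
    rw [hδ']
    rfl
  have eta2 : ∀ w : Fin 2 → Mod F U, w = ![w 0, w 1] := by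
    intro w; funext i; fin_cases i <;> rfl
  have eta3 : ∀ w : Fin 3 → Mod F U, w = ![w 0, w 1, w 2] := by
    intro w; funext i; fin_cases i <;> rfl
  have eta1 : ∀ w : Fin 1 → Mod F U, w = fun _ => w 0 := by
    intro w; funext i; fin_cases i; rfl
  constructor
  · intro h w
    rw [eta2 w, sat_exs]
    by_cases h2 : ∀ᶠ d in (U : Filter (List ℚ)), seqOK (bb d) (rep (w 0) d) (rep (w 1) d)
    · obtain ⟨s, hs, h3, h4⟩ := h (w 0) ((mem_std_iff _).2 ⟨_, h2⟩)
      obtain ⟨s2, hs2⟩ := (mem_std_iff s).1 hs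
      refine ⟨![s, s2, 0], ?_⟩
      rw [sat_alls]
      intro w'
      rw [eta1 w']
      exact (key (w 0) (w 1) s s2 0 (w' 0)).2 fun _ =>
        ⟨(allth_iff hR1 hR2 s s2).2 hs2 _, h3, h4⟩
    · rw [← allth_iff hR1 hR2] at h2
      push Not at h2
      obtain ⟨z1, hz1⟩ := h2
      refine ⟨![0, 0, z1], ?_⟩
      rw [sat_alls]
      intro w'
      rw [eta1 w']
      refine (key (w 0) (w 1) 0 0 z1 (w' 0)).2 fun h3 => ?_
      obtain ⟨d, h4, h5⟩ := (h3.and hz1).exists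
      exact absurd h4 h5
  · intro hw m hm
    obtain ⟨s1, hs1⟩ := (mem_std_iff m).1 hm
    have h1 := hw ![m, s1]
    rw [sat_exs] at h1
    obtain ⟨w', hw'⟩ := h1
    rw [eta3 w', sat_alls] at hw'
    have h2 : ∀ z2 : Mod F U, _ := fun z2 =>
      (key m s1 (w' 0) (w' 1) (w' 2) z2).1 (hw' (fun _ => z2))
        ((allth_iff hR1 hR2 m s1).2 hs1 (w' 2))
    have h3 : ∀ᶠ d in (U : Filter (List ℚ)), seqOK (bb d) (rep (w' 0) d) (rep (w' 1) d) := by
      rw [← allth_iff hR1 hR2]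
      exact fun z2 => (h2 z2).1
    exact ⟨w' 0, (mem_std_iff _).2 ⟨_, h3⟩, (h2 0).2.1, (h2 0).2.2⟩

end

end Pool.Agent.Helper626
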