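import Pool.Agent.Helper626.JCut

namespace Pool.Agent.Helper626

open FirstOrder FirstOrder.Language Filter

section

variable {F : Set (List ℚ → ℕ)} {U : Ultrafilter (List ℚ)} [hA : Fact (Adm F U)]

variable {z u v : ℕ → ℚ} (hR : RData F U z u v)

include hR

/-- there are elements between rational multiples of `b` -/
theorem exists_between' (p q : ℚ) (hp : 0 ≤ p) (hpq : p < q) :
    ∃ x : Mod F U, ∀ᶠ d in (U : Filter (List ℚ)), p * bb d < rep x d ∧ (rep x d : ℚ) < q * bb d := by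
  have hq : 0 < q := hp.trans_lt hpq
  obtain ⟨x, hx⟩ := exists_fun (e := true) (n := 1) (F := F) (U := U)
    (P := fun w : Fin 2 → ℕ => p.num.toNat * w 0 < w 1 * p.den ∧ w 1 * q.den < q.num.toNat * w 0)
    (D0.and (D0.lt ((T0.const _).mul (T0.var 0)) ((T0.var 1).mul (T0.const _)))
      (D0.lt ((T0.var 1).mul (T0.const _)) ((T0.const _).mul (T0.var 0)))) (fun _ => Hm 0) (by
      filter_upwards [rep_Hm (F := F) (U := U) 0, large hR (q - p) (by linarith)] with d h1 h2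
      obtain ⟨n, hn1, hn2⟩ : ∃ n : ℕ, p * bb d < n ∧ (n : ℚ) < q * bb d := by
        refine ⟨⌊p * bb d⌋₊ + 1, ?_, ?_⟩
        · push_cast
          exact Nat.lt_floor_add_one _
        · push_cast
          have h3 : (⌊p * bb d⌋₊ : ℚ) ≤ p * bb d :=
            Nat.floor_le (mul_nonneg hp (bb_pos d).le)
          linarith
      refine ⟨n, ?_, ?_⟩
      · change p.num.toNat * rep (Hm 0 : Mod F U) d < n * p.den
        rw [h1]
        have h5 : (0 : ℚ) < p.den := by exact_mod_cast p.den_pos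
        have h6 : ((p.num.toNat : ℤ)) = p.num := Int.toNat_of_nonneg (Rat.num_nonneg.2 hp)
        have h6' : (p.num.toNat : ℚ) = p.num := by exact_mod_cast h6
        have h7 : p * p.den = p.num := Rat.mul_den_eq_num p
        have h8 : ((p.num.toNat * bb d : ℕ) : ℚ) < ((n * p.den : ℕ) : ℚ) := by
          push_cast
          rw [h6', ← h7]
          have := mul_lt_mul_of_pos_right hn1 h5
          linarith
        exact_mod_cast h8
      · change n * q.den < q.num.toNat * rep (Hm 0 : Mod F U) d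
        rw [h1]
        exact (rho_iff q hq n (bb d)).2 hn2)
  refine ⟨x, ?_⟩
  filter_upwards [hx, rep_Hm (F := F) (U := U) 0] with d h1 h2
  have h3 : p.num.toNat * rep (Hm 0 : Mod F U) d < rep x d * p.den := h1.1
  have h4 : rep x d * q.den < q.num.toNat * rep (Hm 0 : Mod F U) d := h1.2
  rw [h2] at h3 h4
  refine ⟨?_, (rho_iff q hq _ _).1 h4⟩
  have h5 : (0 : ℚ) < p.den := by exact_mod_cast p.den_pos
  have h6 : ((p.num.toNat : ℤ)) = p.num := Int.toNat_of_nonneg (Rat.num_nonneg.2 hp)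
  have h6' : (p.num.toNat : ℚ) = p.num := by exact_mod_cast h6
  have h7 : p * p.den = p.num := Rat.mul_den_eq_num p
  have h8 : ((p.num.toNat * bb d : ℕ) : ℚ) < ((rep x d * p.den : ℕ) : ℚ) := by
    exact_mod_cast h3
  push_cast at h8
  rw [h6', ← h7] at h8
  have h9 : (p * bb d) * p.den < (rep x d : ℚ) * p.den := by linarith
  exact lt_of_mul_lt_mul_right h9 h5.le

omit hR in
/-- a solution of the problem `opGen` in the model -/
theorem gen_solution {e : Bool} {m r : ℕ} {π : Fml e (m + 1 + r)} {k : ℕ} {C : Option (Bool × ℚ)}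
    (hgen : ClosedU (opGen e m r π k C) F) (p : Fin m → Mod F U)
    (h : ∀ᶠ d in (U : Filter (List ℚ)), ∃ x, opGen e m r π k C d (fun i => rep (p i) d) x) :
    ∃ (x : Mod F U) (w : Fin r → Mod F U), ∀ᶠ d in (U : Filter (List ℚ)),
      Sat π (Fin.append (Fin.snoc (fun i => rep (p i) d) (rep x d) : Fin (m + 1) → ℕ)
        (fun i => rep (w i) d)) ∧ side C d (rep x d) := by
  obtain ⟨g, hg, hg'⟩ := hgen (fun i => rep (p i)) (fun i => (rep_pre (p i)).1)
  have h2 : ∀ᶠ d in (U : Filter (List ℚ)), opGen e m r π k C d (fun i => rep (p i) d)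
      (fun b => g b d) := h.mono fun d hd => hg' d hd
  have hpre : ∀ i, IsPre F U (g i) := fun i => ⟨hg i, k, h2.mono fun d hd => hd.1 i⟩
  refine ⟨mkM (g (Fin.last r)) (hpre _), fun i => mkM (g i.castSucc) (hpre _), ?_⟩
  have h6 : ∀ᶠ d in (U : Filter (List ℚ)), ∀ i : Fin r,
      rep (mkM (g i.castSucc) (hpre _)) d = g i.castSucc d := by
    rw [eventually_all]
    exact fun i => rep_mk _ _
  filter_upwards [rep_mk _ (hpre (Fin.last r)), h2, h6] with d h3 h4 h5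
  have e2 : (fun i : Fin r => rep (mkM (g i.castSucc) (hpre _)) d) = fun i => g i.castSucc d :=
    funext h5
  rw [e2, h3]
  exact ⟨h4.2.1, h4.2.2⟩

omit hR in
/-- an instance of the problem `opGen` from elements of the model -/
theorem gen_instance {e : Bool} {m r : ℕ} {π : Fml e (m + 1 + r)} {C : Option (Bool × ℚ)}
    (p : Fin m → Mod F U) (x : Mod F U) (w : Fin r → Mod F U)
    (h : ∀ᶠ d in (U : Filter (List ℚ)), Sat π (Fin.append (Fin.snoc (fun i => rep (p i) d)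
        (rep x d) : Fin (m + 1) → ℕ) (fun i => rep (w i) d)))
    (hC : ∀ᶠ d in (U : Filter (List ℚ)), side C d (rep x d)) :
    ∃ k, ∀ᶠ d in (U : Filter (List ℚ)), ∃ y, opGen e m r π k C d (fun i => rep (p i) d) y := by
  obtain ⟨K, hK⟩ := exists_common_bound (Fin.snoc w x : Fin (r + 1) → Mod F U)
  refine ⟨K, ?_⟩
  filter_upwards [hK, h, hC] with d h1 h2 h3
  refine ⟨Fin.snoc (fun i => rep (w i) d) (rep x d), fun i => ?_, ?_, ?_⟩
  · refine Fin.lastCases ?_ (fun i => ?_) i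
    · have := h1 (Fin.last r)
      simpa using this
    · have := h1 i.castSucc
      simpa using this
  · simpa using h2
  · simpa using h3

theorem J_not_sigma (e : Bool) (hgen : ∀ m r π k C, ClosedU (opGen e m r π k C) F) :
    ¬ SigmaDef e 2 (Jcut F U u) := by
  rintro ⟨m, _, p, ⟨r, π, hπ, rfl⟩, h⟩
  simp only [sat_exs] at h
  have hmem : ∀ (x : Mod F U) (w : Fin r → Mod F U),
      Sat π (Fin.append (Fin.snoc p x : Fin (m + 1) → Mod F U) w) ↔
      ∀ᶠ d in (U : Filter (List ℚ)), Sat π (Fin.append (Fin.snoc (fun i => rep (p i) d)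
        (rep x d) : Fin (m + 1) → ℕ) (fun i => rep (w i) d)) := by
    intro x w
    rw [los_pi hπ]
    simp only [rep_append, rep_snoc]
  rcases hR.ts e m r π (fun i => rep (p i)) true (fun i => (rep_pre (p i)).1) with
    ⟨k, w1, w2, j, _, h2, _, h4⟩ | ⟨j, hj⟩
  · obtain ⟨x, w, hxw⟩ := gen_solution (hgen m r π k (some (true, w2))) p h4
    have h5 : x ∈ Jcut F U u := (h x).2 ⟨w, (hmem x w).2 (hxw.mono fun d hd => hd.1)⟩
    refine not_mem_J hR (j := j) ?_ h5
    filter_upwards [hxw] with d hd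
    have h6 : w2 * bb d < rep x d := hd.2
    have h7 : v j * bb d < w2 * bb d := mul_lt_mul_of_pos_right h2 (bb_pos d)
    linarith
  · obtain ⟨x, hx⟩ := exists_between' hR (u (j + 1)) (u (j + 2)) (hR.u_nonneg _) (hR.hu _)
    have h1 : x ∈ Jcut F U u := ⟨j + 2, hx.mono fun d hd => hd.2⟩
    obtain ⟨w, hw⟩ := (h x).1 h1
    rw [hmem] at hw
    obtain ⟨K, hK⟩ := gen_instance (C := some (true, u (j + 1))) p x w hw
      (hx.mono fun d hd => hd.1)
    have h2 := hj K (u j) (u (j + 1)) le_rfl (hR.hu j) (hR.u_lt_v _ _).le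
    obtain ⟨d, h3, h4⟩ := (h2.and hK).exists
    exact h3 h4

theorem J_not_pi (e : Bool) (hgen : ∀ m r π k C, ClosedU (opGen e m r π k C) F) :
    ¬ PiDef e 2 (Jcut F U u) := by
  rintro ⟨m, _, p, ⟨r, π, hπ, rfl⟩, h⟩
  simp only [sat_alls] at h
  have hmem : ∀ (x : Mod F U) (w : Fin r → Mod F U),
      ¬ Sat π (Fin.append (Fin.snoc p x : Fin (m + 1) → Mod F U) w) ↔
      ∀ᶠ d in (U : Filter (List ℚ)), Sat π.not (Fin.append (Fin.snoc (fun i => rep (p i) d)
        (rep x d) : Fin (m + 1) → ℕ) (fun i => rep (w i) d)) := by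
    intro x w
    rw [los_sigma hπ, ← Ultrafilter.eventually_not]
    simp only [rep_append, rep_snoc, sat_not]
  rcases hR.ts e m r π.not (fun i => rep (p i)) false (fun i => (rep_pre (p i)).1) with
    ⟨k, w1, w2, j, h1, h2, _, h4⟩ | ⟨j, hj⟩
  · obtain ⟨x, w, hxw⟩ := gen_solution (hgen m r π.not k (some (false, w1))) p h4
    have h5 : x ∉ Jcut F U u := by
      rw [h x]
      intro h6
      exact (hmem x w).2 (hxw.mono fun d hd => hd.1) (h6 w)
    apply h5
    refine ⟨j, ?_⟩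
    filter_upwards [hxw] with d hd
    have h6 : (rep x d : ℚ) < w1 * bb d := hd.2
    have h7 : w1 * bb d < u j * bb d := mul_lt_mul_of_pos_right h1 (bb_pos d)
    linarith
  · obtain ⟨x, hx⟩ := exists_between' hR (v (j + 2)) (v (j + 1))
      (((hR.u_nonneg 0)).trans (hR.u_lt_v 0 _).le) (hR.hv _)
    have h1 : x ∉ Jcut F U u := not_mem_J hR (hx.mono fun d hd => hd.1)
    rw [h x] at h1
    push Not at h1
    obtain ⟨w, hw⟩ := h1
    have hw' := (hmem x w).1 hw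
    obtain ⟨K, hK⟩ := gen_instance (C := some (false, v (j + 1))) p x w hw'
      (hx.mono fun d hd => hd.2)
    have h2 := hj K (v (j + 1)) (v j) (hR.u_lt_v _ _).le (hR.hv j) le_rfl
    obtain ⟨d, h3, h4⟩ := (h2.and hK).exists
    exact h3 h4

end

/-- the basic choice problems -/
def baseOps : Set TOp :=
  Set.range (fun k : ℕ => (⟨0, 1, fun d _ w => w 0 = hh^[k] (bb d)⟩ : TOp)) ∪
  {(⟨0, 1, fun d _ w => w 0 = cN d⟩ : TOp), (⟨0, 1, fun d _ w => w 0 = cD d⟩ : TOp)} ∪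
  Set.range (fun x : Σ (e : Bool) (n r : ℕ), Fml e (n + r) =>
    (⟨x.2.1, x.2.2.1, fun _ v w => Sat x.2.2.2 (Fin.append v w)⟩ : TOp)) ∪
  Set.range (fun x : Σ (e : Bool) (m r : ℕ), Fml e (m + 1 + r) × ℕ × Option (Bool × ℚ) =>
    (⟨x.2.1, x.2.2.1 + 1, opGen x.1 x.2.1 x.2.2.1 x.2.2.2.1 x.2.2.2.2.1 x.2.2.2.2.2⟩ : TOp)) ∪
  Set.range (fun x : Σ (e : Bool) (m r : ℕ), Fml e (m + 2 + r) =>
    (⟨x.2.1 + 1, 1, opBs x.1 x.2.1 x.2.2.1 x.2.2.2⟩ : TOp)) ∪
  Set.range (fun x : Σ (e : Bool) (m : ℕ), Fml e (m + 1) =>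
    (⟨x.2.1 + 1, 1, opInd x.1 x.2.1 x.2.2⟩ : TOp))

theorem baseOps_countable : baseOps.Countable := by
  unfold baseOps
  refine Set.Countable.union (Set.Countable.union (Set.Countable.union (Set.Countable.union
    (Set.Countable.union (Set.countable_range _) (by simp)) (Set.countable_range _))
    (Set.countable_range _)) (Set.countable_range _)) (Set.countable_range _)

/-- the basic tests -/
def baseTests (F : Set (List ℚ → ℕ)) : Set Test :=
  Set.range (fun f : F => tConst f.1) ∪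
  Set.range (fun x : Σ (e : Bool) (m r : ℕ), Fml e (m + 1 + r) × (Fin m → F) × Bool =>
    tSig x.1 x.2.1 x.2.2.1 x.2.2.2.1 (fun a => (x.2.2.2.2.1 a).1) x.2.2.2.2.2)

theorem baseTests_countable {F : Set (List ℚ → ℕ)} (hF : F.Countable) :
    (baseTests F).Countable := by
  haveI : Countable F := hF
  unfold baseTests
  exact Set.Countable.union (Set.countable_range _) (Set.countable_range _)

/-- existence of the model data, with additional choice problems and tests -/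
theorem exists_data (𝒯 : Set TOp) (h𝒯 : 𝒯.Countable) (𝓑 : Set (List ℚ → ℕ) → Set Test)
    (h𝓑 : ∀ F : Set (List ℚ → ℕ), F.Countable → (𝓑 F).Countable) :
    ∃ (F : Set (List ℚ → ℕ)) (U : Ultrafilter (List ℚ)) (z u v : ℕ → ℚ),
      Adm F U ∧ RData F U z u v ∧ (∀ e m r π k C, ClosedU (opGen e m r π k C) F) ∧
      (∀ e m r π, ClosedU (opBs e m r π) F) ∧ (∀ e m φ, ClosedU (opInd e m φ) F) ∧
      (∀ T ∈ 𝒯, ClosedU T.2.2 F) ∧ ∀ B ∈ 𝓑 F, Decided U u v B := by
  obtain ⟨F, hF, hcl⟩ := exists_closed (baseOps ∪ 𝒯) (baseOps_countable.union h𝒯)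
  have hct : (baseTests F ∪ 𝓑 F ∪ {fun _ _ _ => ∅}).Countable :=
    ((baseTests_countable hF).union (h𝓑 F hF)).union (Set.countable_singleton _)
  obtain ⟨B, hB⟩ := hct.exists_eq_range ⟨_, Set.mem_union_right _ rfl⟩
  obtain ⟨U, z, u, v, h1, h2, h3, h4, h5, h6, h7, h8⟩ := core B
  have hdec : ∀ T ∈ baseTests F ∪ 𝓑 F ∪ {fun _ _ _ => ∅}, Decided U u v T := by
    intro T hT
    rw [hB] at hT
    obtain ⟨i, rfl⟩ := hT
    exact h8 i
  have hbase : ∀ T ∈ baseOps, ClosedU T.2.2 F := fun T hT => hcl T (Or.inl hT)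
  have hc1 : ∀ (g : List ℚ → ℕ), (⟨0, 1, fun d _ w => w 0 = g d⟩ : TOp) ∈ baseOps → g ∈ F := by
    intro g hg
    obtain ⟨g', hg1, hg2⟩ := hbase _ hg Fin.elim0 (fun a => a.elim0)
    have : g' 0 = g := by
      funext d
      exact hg2 d ⟨fun _ => g d, rfl⟩
    rw [← this]
    exact hg1 0
  refine ⟨F, U, z, u, v, ⟨?_, ?_, ?_, ?_, ?_⟩, ⟨h1, h2, h3, h4, h5, h6, h7, ?_, ?_⟩, ?_, ?_, ?_, ?_, ?_⟩
  · intro k
    exact hc1 _ (Or.inl (Or.inl (Or.inl (Or.inl (Or.inl ⟨k, rfl⟩)))))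
  · exact hc1 _ (Or.inl (Or.inl (Or.inl (Or.inl (Or.inr (Or.inl rfl))))))
  · exact hc1 _ (Or.inl (Or.inl (Or.inl (Or.inl (Or.inr (Or.inr rfl))))))
  · intro e n r φ f hf
    exact hbase ⟨n, r, fun _ v w => Sat φ (Fin.append v w)⟩
      (Or.inl (Or.inl (Or.inl (Or.inr ⟨⟨e, n, r, φ⟩, rfl⟩)))) f hf
  · intro t
    exact (h6 t).mono fun d hd => hd.1
  · intro f hf
    exact hdec _ (Or.inl (Or.inl (Or.inl ⟨⟨f, hf⟩, rfl⟩)))
  · intro e m r π f b hf
    exact hdec _ (Or.inl (Or.inl (Or.inr ⟨⟨e, m, r, π, fun a => ⟨f a, hf a⟩, b⟩, rfl⟩)))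
  · intro e m r π k C
    exact hbase ⟨m, r + 1, opGen e m r π k C⟩ (Or.inl (Or.inl (Or.inr ⟨⟨e, m, r, π, k, C⟩, rfl⟩)))
  · intro e m r π
    exact hbase ⟨m + 1, 1, opBs e m r π⟩ (Or.inl (Or.inr ⟨⟨e, m, r, π⟩, rfl⟩))
  · intro e m φ
    exact hbase ⟨m + 1, 1, opInd e m φ⟩ (Or.inr ⟨⟨e, m, φ⟩, rfl⟩)
  · intro T hT
    exact hcl T (Or.inr hT)
  · intro T hT
    exact hdec _ (Or.inl (Or.inr hT))

theorem exists_genuine (e : Bool) : ∃ (M : Type) (_ : ArithOps M), PAminusExp M ∧ ISigma e 1 M ∧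
    BSigma e 2 M ∧ ¬ ISigma e 2 M ∧ ∃ J : Set M, IsCut J ∧ SigmaDef e 3 J ∧ PiDef e 3 J ∧
      ¬ SigmaDef e 2 J ∧ ¬ PiDef e 2 J := by
  obtain ⟨F, U, z, u, v, hA, hR, hgen, hbs, hind, _, _⟩ :=
    exists_data ∅ Set.countable_empty (fun _ => ∅) (fun _ _ => Set.countable_empty)
  haveI : Fact (Adm F U) := ⟨hA⟩
  exact ⟨Mod F U, inferInstance, mod_PAminusExp, mod_ISigma e (hind e),
    mod_BSigma e (hbs e) (hgen e), not_ISigma e,
    Jcut F U u, J_isCut hR, J_sigma hR e, J_pi hR e, J_not_sigma hR e (hgen e),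
    J_not_pi hR e (hgen e)⟩

end Pool.Agent.Helper626
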