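import Pool.Agent.Helper626.NatH
import Pool.Agent.Helper626.Closure

namespace Pool.Agent.Helper626

open FirstOrder FirstOrder.Language Filter

/-- code of the numerators -/
def cN (d : List ℚ) : ℕ := Nat.unbeta (d.map fun q => q.num.toNat)

/-- code of the denominators -/
def cD (d : List ℚ) : ℕ := Nat.unbeta (d.map fun q => q.den)

/-- a large number -/
def bb (d : List ℚ) : ℕ := cN d + cD d + d.length + 1

theorem beta_cN (d : List ℚ) (s : ℕ) (h : s < d.length) :
    Nat.beta (cN d) s = (d.getD s 0).num.toNat := by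
  have h1 := Nat.beta_unbeta_coe (d.map fun q => q.num.toNat) ⟨s, by simpa using h⟩
  unfold cN
  refine Eq.trans h1 ?_
  simp only [Fin.getElem_fin, List.getElem_map]
  rw [List.getD_eq_getElem _ _ h]

theorem beta_cD (d : List ℚ) (s : ℕ) (h : s < d.length) :
    Nat.beta (cD d) s = (d.getD s 0).den := by
  have h1 := Nat.beta_unbeta_coe (d.map fun q => q.den) ⟨s, by simpa using h⟩
  unfold cD
  refine Eq.trans h1 ?_
  simp only [Fin.getElem_fin, List.getElem_map]
  rw [List.getD_eq_getElem _ _ h]

/-- admissible pairs of a set of functions and an ultrafilter -/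
structure Adm (F : Set (List ℚ → ℕ)) (U : Ultrafilter (List ℚ)) : Prop where
  bbc : ∀ k, (fun d => hh^[k] (bb d)) ∈ F
  cN : cN ∈ F
  cD : cD ∈ F
  sk : ∀ (e : Bool) (n r : ℕ) (φ : Fml e (n + r)) (f : Fin n → (List ℚ → ℕ)), (∀ a, f a ∈ F) →
    ∃ g : Fin r → (List ℚ → ℕ), (∀ b, g b ∈ F) ∧
      ∀ d, (∃ w : Fin r → ℕ, Sat φ (Fin.append (fun a => f a d) w)) →
        Sat φ (Fin.append (fun a => f a d) (fun b => g b d))
  len : ∀ t, ∀ᶠ d in (U : Filter (List ℚ)), t ≤ d.length

/-- the functions representing elements of the model -/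
def IsPre (F : Set (List ℚ → ℕ)) (U : Ultrafilter (List ℚ)) (f : List ℚ → ℕ) : Prop :=
  f ∈ F ∧ ∃ k, ∀ᶠ d in (U : Filter (List ℚ)), f d ≤ hh^[k] (bb d)

instance preSetoid (F : Set (List ℚ → ℕ)) (U : Ultrafilter (List ℚ)) :
    Setoid {f : List ℚ → ℕ // IsPre F U f} where
  r f g := ∀ᶠ d in (U : Filter (List ℚ)), f.1 d = g.1 d
  iseqv := {
    refl := fun f => Eventually.of_forall fun d => rfl
    symm := fun h => h.mono fun d h => h.symm
    trans := fun h h' => h.mp (h'.mono fun d h' h => h.trans h') }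

/-- the model -/
def Mod (F : Set (List ℚ → ℕ)) (U : Ultrafilter (List ℚ)) : Type := Quotient (preSetoid F U)

section

variable {F : Set (List ℚ → ℕ)} {U : Ultrafilter (List ℚ)}

/-- representatives -/
noncomputable def rep (x : Mod F U) : List ℚ → ℕ := (Quotient.out x).1

theorem rep_pre (x : Mod F U) : IsPre F U (rep x) := (Quotient.out x).2

theorem rep_ext {x y : Mod F U} (h : ∀ᶠ d in (U : Filter (List ℚ)), rep x d = rep y d) : x = y := by
  rw [← Quotient.out_eq x, ← Quotient.out_eq y]
  exact Quotient.sound h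

/-- the element represented by a function -/
def mkM (f : List ℚ → ℕ) (h : IsPre F U f) : Mod F U := Quotient.mk (preSetoid F U) ⟨f, h⟩

theorem rep_mk (f : List ℚ → ℕ) (h : IsPre F U f) :
    ∀ᶠ d in (U : Filter (List ℚ)), rep (mkM f h) d = f d := by
  have : Quotient.out (mkM f h) ≈ (⟨f, h⟩ : {f : List ℚ → ℕ // IsPre F U f}) := Quotient.mk_out _
  exact this

theorem exists_rep (f : List ℚ → ℕ) (h : IsPre F U f) :
    ∃ x : Mod F U, ∀ᶠ d in (U : Filter (List ℚ)), rep x d = f d := ⟨_, rep_mk f h⟩

theorem D0.all_fin {e : Bool} {n : ℕ} : ∀ {r : ℕ} {Q : Fin r → (Fin n → ℕ) → Prop},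
    (∀ i, D0 e (Q i)) → D0 e (fun v => ∀ i, Q i v)
  | 0, Q, _ => D0.tru.of_iff fun v => by simp
  | r + 1, Q, h => by
    refine ((D0.all_fin (Q := fun i => Q (Fin.castSucc i)) (fun i => h _)).and
      (h (Fin.last r))).of_iff fun v => ?_
    constructor
    · intro h
      exact ⟨fun i => h _, h _⟩
    · rintro ⟨h1, h2⟩ i
      exact Fin.lastCases h2 h1 i

theorem D0.comp_append {e : Bool} {n m r : ℕ} {P : (Fin (m + r) → ℕ) → Prop} (hP : D0 e P)
    {s : Fin m → (Fin n → ℕ) → ℕ} {t : Fin r → (Fin n → ℕ) → ℕ} (hs : ∀ i, T0 e (s i))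
    (ht : ∀ i, T0 e (t i)) :
    D0 e (fun v => P (Fin.append (fun i => s i v) (fun i => t i v))) := by
  have := hP.comp (n := n) (t := Fin.append s t) (by
    intro i
    refine Fin.addCases (fun i => ?_) (fun i => ?_) i
    · rw [Fin.append_left]; exact hs i
    · rw [Fin.append_right]; exact ht i)
  refine this.of_iff fun v => ?_
  have h2 : (fun i => Fin.append s t i v) = Fin.append (fun i => s i v) (fun i => t i v) := by
    funext i
    refine Fin.addCases (fun i => ?_) (fun i => ?_) i
    · rw [Fin.append_left, Fin.append_left]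
    · rw [Fin.append_right, Fin.append_right]
  rw [h2]

theorem exists_common_bound {n : ℕ} (x : Fin n → Mod F U) :
    ∃ K, ∀ᶠ d in (U : Filter (List ℚ)), ∀ i, rep (x i) d ≤ hh^[K] (bb d) := by
  choose k hk using fun i => (rep_pre (x i)).2
  refine ⟨Finset.univ.sup k, ?_⟩
  rw [eventually_all]
  intro i
  filter_upwards [hk i] with d hd
  exact hd.trans (iter_mono_left (Finset.le_sup (f := k) (Finset.mem_univ i)) _)

variable [hA : Fact (Adm F U)]

theorem skolem {e : Bool} {n r : ℕ} {P : (Fin (n + r) → ℕ) → Prop} (hP : D0 e P)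
    (x : Fin n → Mod F U)
    (h : ∀ᶠ d in (U : Filter (List ℚ)), ∃ w : Fin r → ℕ, P (Fin.append (fun i => rep (x i) d) w)) :
    ∃ z : Fin r → Mod F U, ∀ᶠ d in (U : Filter (List ℚ)),
      P (Fin.append (fun i => rep (x i) d) (fun j => rep (z j) d)) := by
  have A := hA.out
  obtain ⟨K, hK⟩ := exists_common_bound x
  obtain ⟨j, hj⟩ := dom hP
  have hP' : D0 e (fun u : Fin (n + 1 + r) → ℕ =>
      (∀ i : Fin r, u (Fin.natAdd (n + 1) i) ≤ u (Fin.castAdd r (Fin.last n))) ∧
        P (Fin.append (fun i : Fin n => u (Fin.castAdd r i.castSucc))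
          (fun i : Fin r => u (Fin.natAdd (n + 1) i)))) :=
    (D0.all_fin fun i => D0.le (T0.var _) (T0.var _)).and
      (hP.comp_append (s := fun i u => u (Fin.castAdd r i.castSucc))
        (t := fun i u => u (Fin.natAdd (n + 1) i)) (fun i => T0.var _) (fun i => T0.var _))
  obtain ⟨φ, _, hφ⟩ := hP'.syn
  obtain ⟨g, hg, hg'⟩ := A.sk e (n + 1) r φ
    (Fin.snoc (fun i => rep (x i)) (fun d => hh^[j + K] (bb d))) (by
      intro a
      refine Fin.lastCases ?_ (fun a => ?_) a
      · simpa using A.bbc (j + K)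
      · simpa using (rep_pre (x a)).1)
  have key : ∀ᶠ d in (U : Filter (List ℚ)), (∀ i, g i d ≤ hh^[j + K] (bb d)) ∧
      P (Fin.append (fun i => rep (x i) d) (fun i => g i d)) := by
    filter_upwards [h, hK, A.len j] with d hd hKd hjd
    have h1 : j ≤ hh^[K] (bb d) := by
      have h2 := le_iter K (bb d)
      unfold bb at h2 ⊢
      omega
    obtain ⟨w, hw1, hw2⟩ := hj _ h1 _ hKd hd
    have h3 := hg' d
    rw [hφ] at h3
    simp only [hφ] at h3
    have e1 : ∀ w : Fin r → ℕ, (fun i : Fin n => (Fin.append (fun a =>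
        (Fin.snoc (fun i => rep (x i)) (fun d => hh^[j + K] (bb d)) : Fin (n + 1) → List ℚ → ℕ) a d)
          w) (Fin.castAdd r i.castSucc)) = fun i => rep (x i) d := by
      intro w
      funext i
      rw [Fin.append_left]
      simp
    simp only [Fin.append_right, Fin.append_left, Fin.snoc_last, Fin.snoc_castSucc] at h3
    refine h3 ⟨w, ?_, hw2⟩
    intro i
    rw [Function.iterate_add_apply]
    exact hw1 i
  have hpre : ∀ i, IsPre F U (g i) := fun i =>
    ⟨hg i, j + K, key.mono fun d hd => hd.1 i⟩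
  refine ⟨fun i => mkM (g i) (hpre i), ?_⟩
  have h4 : ∀ᶠ d in (U : Filter (List ℚ)), ∀ i, rep (mkM (g i) (hpre i)) d = g i d := by
    rw [eventually_all]
    exact fun i => rep_mk _ _
  filter_upwards [key, h4] with d h5 h6
  have : (fun i => rep (mkM (g i) (hpre i)) d) = fun i => g i d := funext h6
  rw [this]
  exact h5.2

/-- functions defined by bounded formulas act on the model -/
theorem exists_fun {e : Bool} {n : ℕ} {P : (Fin (n + 1) → ℕ) → Prop} (hP : D0 e P)
    (x : Fin n → Mod F U)
    (h : ∀ᶠ d in (U : Filter (List ℚ)), ∃ w : ℕ, P (Fin.snoc (fun i => rep (x i) d) w)) :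
    ∃ z : Mod F U, ∀ᶠ d in (U : Filter (List ℚ)),
      P (Fin.snoc (fun i => rep (x i) d) (rep z d)) := by
  have e1 : ∀ (v : Fin n → ℕ) (w : Fin 1 → ℕ), Fin.append v w = Fin.snoc v (w 0) :=
    fun v w => Fin.append_right_eq_snoc v w
  obtain ⟨z, hz⟩ := skolem (r := 1) hP x (h.mono fun d hd => by
    obtain ⟨w, hw⟩ := hd
    refine ⟨fun _ => w, ?_⟩
    rw [e1]
    exact hw)
  refine ⟨z 0, hz.mono fun d hd => ?_⟩
  rw [e1] at hd
  exact hd

theorem exists_term {e : Bool} {n : ℕ} {t : (Fin n → ℕ) → ℕ} (ht : T0 e t) (x : Fin n → Mod F U) :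
    ∃ z : Mod F U, ∀ᶠ d in (U : Filter (List ℚ)), rep z d = t (fun i => rep (x i) d) := by
  obtain ⟨z, hz⟩ := exists_fun (P := fun u : Fin (n + 1) → ℕ => u (Fin.last n) = t (Fin.init u))
    (D0.eq T0.last ht.init) x (Eventually.of_forall fun d => ⟨t (fun i => rep (x i) d), by simp⟩)
  exact ⟨z, hz.mono fun d hd => by simpa using hd⟩

theorem exists_zero : ∃ z : Mod F U, ∀ᶠ d in (U : Filter (List ℚ)), rep z d = 0 :=
  exists_term (e := true) (n := 0) T0.zero Fin.elim0

theorem exists_one : ∃ z : Mod F U, ∀ᶠ d in (U : Filter (List ℚ)), rep z d = 1 :=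
  exists_term (e := true) (n := 0) T0.one Fin.elim0

theorem exists_add (x y : Mod F U) :
    ∃ z : Mod F U, ∀ᶠ d in (U : Filter (List ℚ)), rep z d = rep x d + rep y d :=
  exists_term (e := true) ((T0.var 0).add (T0.var 1)) ![x, y]

theorem exists_mul (x y : Mod F U) :
    ∃ z : Mod F U, ∀ᶠ d in (U : Filter (List ℚ)), rep z d = rep x d * rep y d :=
  exists_term (e := true) ((T0.var 0).mul (T0.var 1)) ![x, y]

theorem exists_pow (x y : Mod F U) :
    ∃ z : Mod F U, ∀ᶠ d in (U : Filter (List ℚ)), rep z d = rep x d ^ rep y d :=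
  exists_term (e := true) (T0.pow rfl (T0.var 0) (T0.var 1)) ![x, y]

noncomputable instance modOps : ArithOps (Mod F U) where
  zero := Classical.choose (exists_zero (F := F) (U := U))
  one := Classical.choose (exists_one (F := F) (U := U))
  add x y := Classical.choose (exists_add x y)
  mul x y := Classical.choose (exists_mul x y)
  pow x y := Classical.choose (exists_pow x y)
  lt x y := ∀ᶠ d in (U : Filter (List ℚ)), rep x d < rep y d

theorem rep_zero : ∀ᶠ d in (U : Filter (List ℚ)), rep (0 : Mod F U) d = 0 :=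
  Classical.choose_spec (exists_zero (F := F) (U := U))

theorem rep_one : ∀ᶠ d in (U : Filter (List ℚ)), rep (1 : Mod F U) d = 1 :=
  Classical.choose_spec (exists_one (F := F) (U := U))

theorem rep_add (x y : Mod F U) :
    ∀ᶠ d in (U : Filter (List ℚ)), rep (x + y) d = rep x d + rep y d :=
  Classical.choose_spec (exists_add x y)

theorem rep_mul (x y : Mod F U) :
    ∀ᶠ d in (U : Filter (List ℚ)), rep (x * y) d = rep x d * rep y d :=
  Classical.choose_spec (exists_mul x y)

theorem rep_pow (x y : Mod F U) :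
    ∀ᶠ d in (U : Filter (List ℚ)), rep (x ^ y) d = rep x d ^ rep y d :=
  Classical.choose_spec (exists_pow x y)

theorem lt_iff (x y : Mod F U) :
    x < y ↔ ∀ᶠ d in (U : Filter (List ℚ)), rep x d < rep y d := Iff.rfl

theorem eq_iff (x y : Mod F U) :
    x = y ↔ ∀ᶠ d in (U : Filter (List ℚ)), rep x d = rep y d :=
  ⟨fun h => Eventually.of_forall fun d => by rw [h], rep_ext⟩

theorem rep_snoc {n : ℕ} (x : Fin n → Mod F U) (y : Mod F U) (d : List ℚ) :
    (fun i => rep ((Fin.snoc x y : Fin (n + 1) → Mod F U) i) d) =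
      (Fin.snoc (fun i => rep (x i) d) (rep y d) : Fin (n + 1) → ℕ) := by
  funext i
  refine Fin.lastCases ?_ (fun i => ?_) i
  · simp
  · simp

theorem rep_append {n r : ℕ} (x : Fin n → Mod F U) (y : Fin r → Mod F U) (d : List ℚ) :
    (fun i => rep (Fin.append x y i) d) =
      Fin.append (fun i => rep (x i) d) (fun i => rep (y i) d) := by
  funext i
  refine Fin.addCases (fun i => ?_) (fun i => ?_) i
  · rw [Fin.append_left, Fin.append_left]
  · rw [Fin.append_right, Fin.append_right]

/-- Łoś for terms -/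
theorem los_term {e : Bool} {n : ℕ} (t : Trm e n) (x : Fin n → Mod F U) :
    ∀ᶠ d in (U : Filter (List ℚ)), rep (tval t x) d = tval t (fun i => rep (x i) d) := by
  unfold tval
  induction t with
  | var a =>
    rcases a with a | i
    · exact a.elim
    · exact Eventually.of_forall fun d => rfl
  | @func l f ts ih =>
    change AFunc e l at f
    cases f with
    | zero => exact rep_zero
    | one => exact rep_one
    | add =>
      filter_upwards [ih 0, ih 1, rep_add (F := F) (U := U)
        ((ts 0).realize (Sum.elim (fun a : Empty => a.elim) x))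
        ((ts 1).realize (Sum.elim (fun a : Empty => a.elim) x))] with d h0 h1 h2
      refine Eq.trans h2 ?_
      rw [h0, h1]
      rfl
    | mul =>
      filter_upwards [ih 0, ih 1, rep_mul (F := F) (U := U)
        ((ts 0).realize (Sum.elim (fun a : Empty => a.elim) x))
        ((ts 1).realize (Sum.elim (fun a : Empty => a.elim) x))] with d h0 h1 h2
      refine Eq.trans h2 ?_
      rw [h0, h1]
      rfl
    | pow h =>
      filter_upwards [ih 0, ih 1, rep_pow (F := F) (U := U)
        ((ts 0).realize (Sum.elim (fun a : Empty => a.elim) x))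
        ((ts 1).realize (Sum.elim (fun a : Empty => a.elim) x))] with d h0 h1 h2
      refine Eq.trans h2 ?_
      rw [h0, h1]
      rfl

/-- Łoś for bounded formulas -/
theorem los_delta {e : Bool} {n : ℕ} {φ : Fml e n} (h : IsDelta0 φ) : ∀ x : Fin n → Mod F U,
    (Sat φ x ↔ ∀ᶠ d in (U : Filter (List ℚ)), Sat φ (fun i => rep (x i) d)) := by
  induction h with
  | falsum =>
    intro x
    simp only [sat_bot]
    rw [Filter.eventually_false_iff_eq_bot]
    exact ⟨fun h => h.elim, fun h => U.neBot.ne h⟩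
  | eq s t =>
    intro x
    simp only [sat_eq, eq_iff]
    constructor
    · intro h
      filter_upwards [h, los_term s x, los_term t x] with d h1 h2 h3
      rw [← h2, ← h3, h1]
    · intro h
      filter_upwards [h, los_term s x, los_term t x] with d h1 h2 h3
      rw [h2, h3, h1]
  | lt s t =>
    intro x
    simp only [sat_lt, lt_iff]
    constructor
    · intro h
      filter_upwards [h, los_term s x, los_term t x] with d h1 h2 h3
      rw [← h2, ← h3]
      exact h1
    · intro h
      filter_upwards [h, los_term s x, los_term t x] with d h1 h2 h3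
      rw [h2, h3]
      exact h1
  | imp _ _ ih1 ih2 =>
    intro x
    simp only [sat_imp, Ultrafilter.eventually_imp]
    rw [ih1, ih2]
  | @ball n t φ hφ ih =>
    intro x
    simp only [sat_ball]
    constructor
    · intro h
      by_contra hcon
      rw [← Ultrafilter.eventually_not] at hcon
      have hD : D0 e (fun u : Fin (n + 1) → ℕ => u (Fin.last n) < tval t (Fin.init u) ∧
          ¬ Sat φ u) := (D0.lt T0.last (T0.of_trm t).init).and (D0.of_delta0 hφ).not
      obtain ⟨z, hz⟩ := exists_fun hD x (hcon.mono fun d hd => by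
        push Not at hd
        obtain ⟨y, hy1, hy2⟩ := hd
        exact ⟨y, by simpa using hy1, hy2⟩)
      have h1 : z < tval t x := by
        rw [lt_iff]
        filter_upwards [hz, los_term t x] with d h1 h2
        rw [h2]
        simpa using h1.1
      have h2 := (ih _).1 (h z h1)
      simp only [rep_snoc] at h2
      obtain ⟨d, hd1, hd2⟩ := (hz.and h2).exists
      exact hd1.2 hd2
    · intro h y hy
      rw [ih]
      simp only [rep_snoc]
      filter_upwards [h, hy, los_term t x] with d h1 h2 h3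
      exact h1 _ (by rw [← h3]; exact h2)

/-- Łoś for `Σ_1` formulas -/
theorem los_sigma {e : Bool} {n : ℕ} {φ : Fml e n} (h : IsSigma 1 φ) (x : Fin n → Mod F U) :
    (Sat φ x ↔ ∀ᶠ d in (U : Filter (List ℚ)), Sat φ (fun i => rep (x i) d)) := by
  obtain ⟨r, ψ, hψ, rfl⟩ := h
  have hψ' : IsDelta0 ψ := hψ
  simp only [sat_exs]
  constructor
  · rintro ⟨w, hw⟩
    rw [los_delta hψ'] at hw
    simp only [rep_append] at hw
    exact hw.mono fun d hd => ⟨_, hd⟩
  · intro h
    obtain ⟨z, hz⟩ := skolem (D0.of_delta0 hψ') x h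
    refine ⟨z, ?_⟩
    rw [los_delta hψ']
    simp only [rep_append]
    exact hz

/-- Łoś for `Π_1` formulas -/
theorem los_pi {e : Bool} {n : ℕ} {φ : Fml e n} (h : IsPi 1 φ) (x : Fin n → Mod F U) :
    (Sat φ x ↔ ∀ᶠ d in (U : Filter (List ℚ)), Sat φ (fun i => rep (x i) d)) := by
  obtain ⟨r, ψ, hψ, rfl⟩ := h
  have hψ' : IsDelta0 ψ := hψ
  simp only [sat_alls]
  constructor
  · intro h
    by_contra hcon
    rw [← Ultrafilter.eventually_not] at hcon
    obtain ⟨z, hz⟩ := skolem (D0.of_delta0 hψ').not x (hcon.mono fun d hd => by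
      push Not at hd
      exact hd)
    have h1 := (los_delta hψ' _).1 (h z)
    simp only [rep_append] at h1
    obtain ⟨d, hd1, hd2⟩ := (hz.and h1).exists
    exact hd1 hd2
  · intro h w
    rw [los_delta hψ']
    simp only [rep_append]
    exact h.mono fun d hd => hd _

theorem mod_PAminusExp : PAminusExp (Mod F U) where
  add_assoc x y z := by
    rw [eq_iff]
    filter_upwards [rep_add (x + y) z, rep_add x y, rep_add x (y + z), rep_add y z] with d h1 h2 h3 h4
    rw [h1, h2, h3, h4, Nat.add_assoc]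
  add_comm x y := by
    rw [eq_iff]
    filter_upwards [rep_add x y, rep_add y x] with d h1 h2
    rw [h1, h2, Nat.add_comm]
  mul_assoc x y z := by
    rw [eq_iff]
    filter_upwards [rep_mul (x * y) z, rep_mul x y, rep_mul x (y * z), rep_mul y z] with d h1 h2 h3 h4
    rw [h1, h2, h3, h4, Nat.mul_assoc]
  mul_comm x y := by
    rw [eq_iff]
    filter_upwards [rep_mul x y, rep_mul y x] with d h1 h2
    rw [h1, h2, Nat.mul_comm]
  mul_add x y z := by
    rw [eq_iff]
    filter_upwards [rep_mul x (y + z), rep_add y z, rep_add (x * y) (x * z), rep_mul x y,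
      rep_mul x z] with d h1 h2 h3 h4 h5
    rw [h1, h2, h3, h4, h5, Nat.mul_add]
  add_zero x := by
    rw [eq_iff]
    filter_upwards [rep_add x 0, rep_zero (F := F) (U := U)] with d h1 h2
    rw [h1, h2, Nat.add_zero]
  mul_zero x := by
    rw [eq_iff]
    filter_upwards [rep_mul x 0, rep_zero (F := F) (U := U)] with d h1 h2
    rw [h1, h2, Nat.mul_zero]
  mul_one x := by
    rw [eq_iff]
    filter_upwards [rep_mul x 1, rep_one (F := F) (U := U)] with d h1 h2
    rw [h1, h2, Nat.mul_one]
  lt_trans x y z h1 h2 := by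
    rw [lt_iff]
    filter_upwards [h1, h2] with d h1 h2
    exact h1.trans h2
  lt_irrefl x h := by
    obtain ⟨d, hd⟩ := (h : ∀ᶠ d in (U : Filter (List ℚ)), rep x d < rep x d).exists
    exact absurd hd (Nat.lt_irrefl _)
  lt_trichotomy x y := by
    have : ∀ᶠ d in (U : Filter (List ℚ)), rep x d < rep y d ∨ (rep x d = rep y d ∨ rep y d < rep x d) :=
      Eventually.of_forall fun d => lt_trichotomy _ _
    rw [Ultrafilter.eventually_or, Ultrafilter.eventually_or] at this
    rw [eq_iff]
    exact this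
  add_lt_add x y z h := by
    rw [lt_iff]
    filter_upwards [h, rep_add x z, rep_add y z] with d h1 h2 h3
    rw [h2, h3]
    exact Nat.add_lt_add_right h1 _
  mul_lt_mul x y z hz h := by
    rw [lt_iff]
    filter_upwards [h, rep_mul x z, rep_mul y z, hz, rep_zero (F := F) (U := U)] with d h1 h2 h3 h4 h5
    rw [h2, h3]
    rw [h5] at h4
    exact Nat.mul_lt_mul_of_pos_right h1 h4
  exists_add x y h := by
    obtain ⟨z, hz⟩ := exists_fun (e := true) (n := 2) (F := F) (U := U)
      (P := fun u : Fin 3 → ℕ => u 0 + u 2 = u 1) (D0.eq ((T0.var 0).add (T0.var 2)) (T0.var 1))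
      ![x, y] (h.mono fun d hd => ⟨rep y d - rep x d, by
        change rep x d + (rep y d - rep x d) = rep y d
        omega⟩)
    refine ⟨z, ?_⟩
    rw [eq_iff]
    filter_upwards [rep_add x z, hz] with d h1 h2
    rw [h1]
    exact h2
  zero_lt_one := by
    rw [lt_iff]
    filter_upwards [rep_zero (F := F) (U := U), rep_one (F := F) (U := U)] with d h1 h2
    omega
  discrete x h := by
    rw [eq_iff, lt_iff, ← Ultrafilter.eventually_or]
    filter_upwards [h, rep_zero (F := F) (U := U), rep_one (F := F) (U := U)] with d h1 h2 h3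
    omega
  nonneg x := by
    rw [eq_iff, lt_iff, ← Ultrafilter.eventually_or]
    filter_upwards [rep_zero (F := F) (U := U)] with d h2
    omega
  pow_zero x := by
    rw [eq_iff]
    filter_upwards [rep_pow x 0, rep_zero (F := F) (U := U), rep_one (F := F) (U := U)] with d h1 h2 h3
    rw [h1, h2, h3, Nat.pow_zero]
  pow_succ x y := by
    rw [eq_iff]
    filter_upwards [rep_pow x (y + 1), rep_add y 1, rep_one (F := F) (U := U), rep_mul (x ^ y) x,
      rep_pow x y] with d h1 h2 h3 h4 h5
    rw [h1, h2, h3, h4, h5, Nat.pow_succ]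

end

end Pool.Agent.Helper626
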