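import Pool.Agent.Helper626.Basic

namespace Pool.Agent.Helper626

open FirstOrder FirstOrder.Language

/-- functions given by terms -/
inductive T0 (e : Bool) : ∀ {n : ℕ}, ((Fin n → ℕ) → ℕ) → Prop
  | var {n : ℕ} (i : Fin n) : T0 e (fun v : Fin n → ℕ => v i)
  | zero {n : ℕ} : T0 e (fun _ : Fin n → ℕ => 0)
  | one {n : ℕ} : T0 e (fun _ : Fin n → ℕ => 1)
  | add {n : ℕ} {s t : (Fin n → ℕ) → ℕ} : T0 e s → T0 e t → T0 e (fun v => s v + t v)
  | mul {n : ℕ} {s t : (Fin n → ℕ) → ℕ} : T0 e s → T0 e t → T0 e (fun v => s v * t v)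
  | pow {n : ℕ} {s t : (Fin n → ℕ) → ℕ} (h : e = true) :
      T0 e s → T0 e t → T0 e (fun v => s v ^ t v)

/-- relations on the natural numbers defined by bounded formulas -/
inductive D0 (e : Bool) : ∀ {n : ℕ}, ((Fin n → ℕ) → Prop) → Prop
  | fls {n : ℕ} : D0 e (fun _ : Fin n → ℕ => False)
  | eq {n : ℕ} {s t : (Fin n → ℕ) → ℕ} : T0 e s → T0 e t → D0 e (fun v => s v = t v)
  | lt {n : ℕ} {s t : (Fin n → ℕ) → ℕ} : T0 e s → T0 e t → D0 e (fun v => s v < t v)
  | imp {n : ℕ} {P Q : (Fin n → ℕ) → Prop} : D0 e P → D0 e Q → D0 e (fun v => P v → Q v)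
  | ball0 {n : ℕ} {t : (Fin n → ℕ) → ℕ} {P : (Fin (n + 1) → ℕ) → Prop} : T0 e t → D0 e P →
      D0 e (fun v => ∀ x : ℕ, x < t v → P (Fin.snoc v x))

section T0

variable {e : Bool} {n m : ℕ}

theorem T0.const : ∀ k : ℕ, T0 e (fun _ : Fin n → ℕ => k)
  | 0 => T0.zero
  | k + 1 => (T0.const k).add T0.one

theorem T0.comp {s : (Fin m → ℕ) → ℕ} (hs : T0 e s) :
    ∀ {t : Fin m → (Fin n → ℕ) → ℕ}, (∀ i, T0 e (t i)) → T0 e (fun v => s (fun i => t i v)) := by
  induction hs with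
  | var => intro t ht; exact ht _
  | zero => intro t _; exact T0.zero
  | one => intro t _; exact T0.one
  | add _ _ ih1 ih2 => intro t ht; exact (ih1 ht).add (ih2 ht)
  | mul _ _ ih1 ih2 => intro t ht; exact (ih1 ht).mul (ih2 ht)
  | pow h _ _ ih1 ih2 => intro t ht; exact T0.pow h (ih1 ht) (ih2 ht)

theorem T0.init {s : (Fin n → ℕ) → ℕ} (hs : T0 e s) :
    T0 e (fun v : Fin (n + 1) → ℕ => s (Fin.init v)) :=
  hs.comp (t := fun i v => v i.castSucc) (fun i => T0.var _)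

theorem T0.last : T0 e (fun v : Fin (n + 1) → ℕ => v (Fin.last n)) := T0.var _

theorem T0.syn {s : (Fin n → ℕ) → ℕ} (hs : T0 e s) :
    ∃ t : Trm e n, ∀ v : Fin n → ℕ, tval t v = s v := by
  induction hs with
  | var i => exact ⟨Term.var (Sum.inr i), fun v => rfl⟩
  | zero =>
    exact ⟨Term.func (L := LA e) (l := 0) AFunc.zero Fin.elim0, fun v => rfl⟩
  | one =>
    exact ⟨Term.func (L := LA e) (l := 0) AFunc.one Fin.elim0, fun v => rfl⟩
  | add _ _ ih1 ih2 =>
    obtain ⟨t1, h1⟩ := ih1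
    obtain ⟨t2, h2⟩ := ih2
    refine ⟨Term.func (L := LA e) (l := 2) AFunc.add ![t1, t2], fun v => ?_⟩
    exact congrArg₂ (· + ·) (h1 v) (h2 v)
  | mul _ _ ih1 ih2 =>
    obtain ⟨t1, h1⟩ := ih1
    obtain ⟨t2, h2⟩ := ih2
    refine ⟨Term.func (L := LA e) (l := 2) AFunc.mul ![t1, t2], fun v => ?_⟩
    exact congrArg₂ (· * ·) (h1 v) (h2 v)
  | pow h _ _ ih1 ih2 =>
    obtain ⟨t1, h1⟩ := ih1
    obtain ⟨t2, h2⟩ := ih2
    refine ⟨Term.func (L := LA e) (l := 2) (AFunc.pow h) ![t1, t2], fun v => ?_⟩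
    exact congrArg₂ (· ^ ·) (h1 v) (h2 v)

theorem T0.of_trm (t : Trm e n) : T0 e (fun v : Fin n → ℕ => tval t v) := by
  unfold tval
  induction t with
  | var a =>
    rcases a with a | i
    · exact a.elim
    · exact T0.var i
  | @func l f ts ih =>
    change AFunc e l at f
    cases f with
    | zero => exact T0.zero
    | one => exact T0.one
    | add => exact (ih 0).add (ih 1)
    | mul => exact (ih 0).mul (ih 1)
    | pow h => exact T0.pow h (ih 0) (ih 1)

end T0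

section D0

variable {e : Bool} {n m : ℕ}

theorem D0.of_iff {P Q : (Fin n → ℕ) → Prop} (h : D0 e P) (H : ∀ v, Q v ↔ P v) : D0 e Q := by
  have : Q = P := funext fun v => propext (H v)
  rw [this]
  exact h

theorem D0.not {P : (Fin n → ℕ) → Prop} (h : D0 e P) : D0 e (fun v => ¬ P v) :=
  h.imp D0.fls

theorem D0.or {P Q : (Fin n → ℕ) → Prop} (h : D0 e P) (h' : D0 e Q) :
    D0 e (fun v => P v ∨ Q v) :=
  (h.not.imp h').of_iff fun v => by tauto

theorem D0.and {P Q : (Fin n → ℕ) → Prop} (h : D0 e P) (h' : D0 e Q) :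
    D0 e (fun v => P v ∧ Q v) :=
  (h.imp h'.not).not.of_iff fun v => by tauto

theorem D0.tru : D0 e (fun _ : Fin n → ℕ => True) :=
  (D0.fls.imp D0.fls).of_iff fun v => by tauto

theorem D0.le {s t : (Fin n → ℕ) → ℕ} (hs : T0 e s) (ht : T0 e t) : D0 e (fun v => s v ≤ t v) :=
  (D0.lt hs (ht.add T0.one)).of_iff fun v => by omega

theorem D0.ball {t : (Fin n → ℕ) → ℕ} {Q : (Fin n → ℕ) → ℕ → Prop} (ht : T0 e t)
    (h : D0 e (fun w : Fin (n + 1) → ℕ => Q (Fin.init w) (w (Fin.last n)))) :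
    D0 e (fun v => ∀ x, x < t v → Q v x) :=
  (D0.ball0 ht h).of_iff fun v => by simp

theorem D0.bex {t : (Fin n → ℕ) → ℕ} {Q : (Fin n → ℕ) → ℕ → Prop} (ht : T0 e t)
    (h : D0 e (fun w : Fin (n + 1) → ℕ => Q (Fin.init w) (w (Fin.last n)))) :
    D0 e (fun v => ∃ x, x < t v ∧ Q v x) :=
  (D0.ball (Q := fun v x => ¬ Q v x) ht h.not).not.of_iff fun v => by
    push Not
    rfl

theorem D0.comp {P : (Fin m → ℕ) → Prop} (hP : D0 e P) :
    ∀ {n : ℕ} {t : Fin m → (Fin n → ℕ) → ℕ}, (∀ i, T0 e (t i)) →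
      D0 e (fun v => P (fun i => t i v)) := by
  induction hP with
  | fls => intro n t _; exact D0.fls
  | eq h1 h2 => intro n t ht; exact D0.eq (h1.comp ht) (h2.comp ht)
  | lt h1 h2 => intro n t ht; exact D0.lt (h1.comp ht) (h2.comp ht)
  | imp _ _ ih1 ih2 => intro n t ht; exact (ih1 ht).imp (ih2 ht)
  | @ball0 m s P hs _ ih =>
    intro n t ht
    have h1 := hs.comp ht
    have h2 := ih (n := n + 1)
      (t := Fin.snoc (α := fun _ => (Fin (n + 1) → ℕ) → ℕ)
        (fun i v => t i (Fin.init v)) (fun v => v (Fin.last n))) (by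
        intro i
        refine Fin.lastCases ?_ (fun i => ?_) i
        · simp only [Fin.snoc_last]
          exact T0.last
        · simp only [Fin.snoc_castSucc]
          exact (ht i).init)
    refine (D0.ball0 h1 h2).of_iff fun v => ?_
    apply forall_congr'
    intro x
    apply imp_congr Iff.rfl
    have : (fun i => (Fin.snoc (α := fun _ => (Fin (n + 1) → ℕ) → ℕ)
        (fun i v => t i (Fin.init v)) (fun v => v (Fin.last n)) i) (Fin.snoc v x)) =
        (Fin.snoc (fun i => t i v) x : Fin (m + 1) → ℕ) := by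
      funext i
      refine Fin.lastCases ?_ (fun i => ?_) i
      · simp
      · simp
    rw [this]

theorem D0.comp_snoc {P : (Fin (m + 1) → ℕ) → Prop} (hP : D0 e P)
    {s : Fin m → (Fin n → ℕ) → ℕ} {t : (Fin n → ℕ) → ℕ} (hs : ∀ i, T0 e (s i)) (ht : T0 e t) :
    D0 e (fun v => P (Fin.snoc (fun i => s i v) (t v))) := by
  have := hP.comp (n := n) (t := Fin.snoc (α := fun _ => (Fin n → ℕ) → ℕ) s t) (by
    intro i
    refine Fin.lastCases ?_ (fun i => ?_) i
    · simpa using ht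
    · simpa using hs i)
  refine this.of_iff fun v => ?_
  have h2 : (fun i => (Fin.snoc (α := fun _ => (Fin n → ℕ) → ℕ) s t i) v) =
      (Fin.snoc (fun i => s i v) (t v) : Fin (m + 1) → ℕ) := by
    funext i
    refine Fin.lastCases ?_ (fun i => ?_) i
    · simp
    · simp
  rw [h2]

theorem tval_liftT_nat (t : Trm e n) (v : Fin n → ℕ) (x : ℕ) :
    tval (liftT t) (Fin.snoc v x : Fin (n + 1) → ℕ) = tval t v := tval_lift t v x

theorem D0.syn {P : (Fin n → ℕ) → Prop} (h : D0 e P) :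
    ∃ φ : Fml e n, IsDelta0 φ ∧ ∀ v : Fin n → ℕ, Sat φ v ↔ P v := by
  induction h with
  | fls => exact ⟨⊥, IsDelta0.falsum, fun v => Iff.rfl⟩
  | eq h1 h2 =>
    obtain ⟨s, hs⟩ := h1.syn
    obtain ⟨t, ht⟩ := h2.syn
    refine ⟨s.bdEqual t, IsDelta0.eq s t, fun v => ?_⟩
    rw [sat_eq, hs, ht]
  | lt h1 h2 =>
    obtain ⟨s, hs⟩ := h1.syn
    obtain ⟨t, ht⟩ := h2.syn
    refine ⟨ltF s t, IsDelta0.lt s t, fun v => ?_⟩
    rw [sat_lt, hs, ht]
  | imp _ _ ih1 ih2 =>
    obtain ⟨φ, hφ, h1⟩ := ih1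
    obtain ⟨ψ, hψ, h2⟩ := ih2
    refine ⟨φ.imp ψ, hφ.imp hψ, fun v => ?_⟩
    rw [sat_imp, h1, h2]
  | @ball0 n t P ht _ ih =>
    obtain ⟨t', ht'⟩ := ht.syn
    obtain ⟨φ, hφ, h1⟩ := ih
    refine ⟨_, IsDelta0.ball t' hφ, fun v => ?_⟩
    rw [sat_ball, ht']
    apply forall_congr'
    intro x
    rw [h1]

theorem D0.of_delta0 {φ : Fml e n} (h : IsDelta0 φ) : D0 e (fun v : Fin n → ℕ => Sat φ v) := by
  induction h with
  | falsum => exact D0.fls
  | eq s t => exact D0.eq (T0.of_trm s) (T0.of_trm t)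
  | lt s t =>
    refine (D0.lt (T0.of_trm s) (T0.of_trm t)).of_iff fun v => ?_
    rw [sat_lt]
  | imp _ _ ih1 ih2 => exact ih1.imp ih2
  | ball t _ ih =>
    refine (D0.ball0 (T0.of_trm t) ih).of_iff fun v => ?_
    rw [sat_ball]

end D0

/-- `Σ_1` relations on the natural numbers -/
def S1 (e : Bool) {n : ℕ} (R : (Fin n → ℕ) → Prop) : Prop :=
  ∃ R' : (Fin (n + 1) → ℕ) → Prop, D0 e R' ∧ ∀ v, R v ↔ ∃ z : ℕ, R' (Fin.snoc v z)

section S1

variable {e : Bool} {n m : ℕ}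

theorem S1.of_iff {P Q : (Fin n → ℕ) → Prop} (h : S1 e P) (H : ∀ v, Q v ↔ P v) : S1 e Q := by
  have : Q = P := funext fun v => propext (H v)
  rw [this]
  exact h

theorem D0.s1 {P : (Fin n → ℕ) → Prop} (h : D0 e P) : S1 e P := by
  refine ⟨fun w => P (Fin.init w), h.comp (t := fun i w => w i.castSucc) (fun i => T0.var _), ?_⟩
  intro v
  simp

theorem S1.and {P Q : (Fin n → ℕ) → Prop} (h : S1 e P) (h' : S1 e Q) :
    S1 e (fun v => P v ∧ Q v) := by
  obtain ⟨P', hP', hP⟩ := h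
  obtain ⟨Q', hQ', hQ⟩ := h'
  refine ⟨fun w => (∃ x, x < w (Fin.last n) + 1 ∧ P' (Fin.snoc (Fin.init w) x)) ∧
    (∃ x, x < w (Fin.last n) + 1 ∧ Q' (Fin.snoc (Fin.init w) x)), ?_, ?_⟩
  · refine D0.and (D0.bex (T0.last.add T0.one) ?_) (D0.bex (T0.last.add T0.one) ?_)
    · exact hP'.comp_snoc (s := fun i w => Fin.init (Fin.init w) i) (fun i => T0.var _) T0.last
    · exact hQ'.comp_snoc (s := fun i w => Fin.init (Fin.init w) i) (fun i => T0.var _) T0.last
  · intro v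
    beta_reduce
    rw [hP, hQ]
    constructor
    · rintro ⟨⟨x, hx⟩, ⟨y, hy⟩⟩
      refine ⟨x + y, ⟨x, ?_, ?_⟩, ⟨y, ?_, ?_⟩⟩
      · simp only [Fin.snoc_last]; omega
      · simpa using hx
      · simp only [Fin.snoc_last]; omega
      · simpa using hy
    · rintro ⟨z, ⟨x, _, hx⟩, ⟨y, _, hy⟩⟩
      exact ⟨⟨x, by simpa using hx⟩, ⟨y, by simpa using hy⟩⟩

theorem S1.or {P Q : (Fin n → ℕ) → Prop} (h : S1 e P) (h' : S1 e Q) :
    S1 e (fun v => P v ∨ Q v) := by
  obtain ⟨P', hP', hP⟩ := h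
  obtain ⟨Q', hQ', hQ⟩ := h'
  refine ⟨fun w => P' w ∨ Q' w, hP'.or hQ', ?_⟩
  intro v
  beta_reduce
  rw [hP, hQ]
  constructor
  · rintro (⟨x, hx⟩ | ⟨x, hx⟩)
    · exact ⟨x, Or.inl hx⟩
    · exact ⟨x, Or.inr hx⟩
  · rintro ⟨x, hx | hx⟩
    · exact Or.inl ⟨x, hx⟩
    · exact Or.inr ⟨x, hx⟩

theorem S1.ex {Q : (Fin n → ℕ) → ℕ → Prop}
    (h : S1 e (fun w : Fin (n + 1) → ℕ => Q (Fin.init w) (w (Fin.last n)))) :
    S1 e (fun v => ∃ x, Q v x) := by
  obtain ⟨Q', hQ', hQ⟩ := h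
  refine ⟨fun w => ∃ x, x < w (Fin.last n) + 1 ∧ ∃ z, z < w (Fin.last n) + 1 ∧
    Q' (Fin.snoc (Fin.snoc (Fin.init w) x : Fin (n + 1) → ℕ) z), ?_, ?_⟩
  · refine D0.bex (T0.last.add T0.one) (D0.bex (T0.last.init.add T0.one) ?_)
    refine (hQ'.comp_snoc (s := Fin.snoc (α := fun _ => (Fin (n + 1 + 1 + 1) → ℕ) → ℕ)
      (fun i w => w i.castSucc.castSucc.castSucc) (fun w => w (Fin.last (n + 1)).castSucc))
      (t := fun w => w (Fin.last _)) ?_ T0.last).of_iff ?_
    · intro i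
      refine Fin.lastCases ?_ (fun i => ?_) i
      · simp only [Fin.snoc_last]
        exact T0.var _
      · simp only [Fin.snoc_castSucc]
        exact T0.var _
    · intro w
      have : (fun i => (Fin.snoc (α := fun _ => (Fin (n + 1 + 1 + 1) → ℕ) → ℕ)
          (fun i w => w i.castSucc.castSucc.castSucc) (fun w => w (Fin.last (n + 1)).castSucc) i) w)
          = (Fin.snoc (fun i : Fin n => w i.castSucc.castSucc.castSucc)
            (w (Fin.last (n + 1)).castSucc) : Fin (n + 1) → ℕ) := by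
        funext i
        refine Fin.lastCases ?_ (fun i => ?_) i
        · simp
        · simp
      rw [this]
      rfl
  · intro v
    constructor
    · rintro ⟨x, hx⟩
      have h1 := hQ (Fin.snoc v x)
      simp only [Fin.init_snoc, Fin.snoc_last] at h1
      rw [h1] at hx
      obtain ⟨z, hz⟩ := hx
      refine ⟨x + z, x, ?_, z, ?_, ?_⟩
      · simp only [Fin.snoc_last]; omega
      · simp only [Fin.snoc_last]; omega
      · simpa using hz
    · rintro ⟨y, x, _, z, _, hz⟩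
      refine ⟨x, ?_⟩
      have h1 := hQ (Fin.snoc v x)
      simp only [Fin.init_snoc, Fin.snoc_last] at h1
      rw [h1]
      exact ⟨z, by simpa using hz⟩

theorem S1.ball {t : (Fin n → ℕ) → ℕ} {Q : (Fin n → ℕ) → ℕ → Prop} (ht : T0 e t)
    (h : S1 e (fun w : Fin (n + 1) → ℕ => Q (Fin.init w) (w (Fin.last n)))) :
    S1 e (fun v => ∀ x, x < t v → Q v x) := by
  obtain ⟨Q', hQ', hQ⟩ := h
  refine ⟨fun w => ∀ x, x < t (Fin.init w) → ∃ z, z < w (Fin.last n) + 1 ∧
    Q' (Fin.snoc (Fin.snoc (Fin.init w) x : Fin (n + 1) → ℕ) z), ?_, ?_⟩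
  · refine D0.ball ht.init (D0.bex (T0.last.init.add T0.one) ?_)
    refine (hQ'.comp_snoc (s := Fin.snoc (α := fun _ => (Fin (n + 1 + 1 + 1) → ℕ) → ℕ)
      (fun i w => w i.castSucc.castSucc.castSucc) (fun w => w (Fin.last (n + 1)).castSucc))
      (t := fun w => w (Fin.last _)) ?_ T0.last).of_iff ?_
    · intro i
      refine Fin.lastCases ?_ (fun i => ?_) i
      · simp only [Fin.snoc_last]
        exact T0.var _
      · simp only [Fin.snoc_castSucc]
        exact T0.var _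
    · intro w
      have : (fun i => (Fin.snoc (α := fun _ => (Fin (n + 1 + 1 + 1) → ℕ) → ℕ)
          (fun i w => w i.castSucc.castSucc.castSucc) (fun w => w (Fin.last (n + 1)).castSucc) i) w)
          = (Fin.snoc (fun i : Fin n => w i.castSucc.castSucc.castSucc)
            (w (Fin.last (n + 1)).castSucc) : Fin (n + 1) → ℕ) := by
        funext i
        refine Fin.lastCases ?_ (fun i => ?_) i
        · simp
        · simp
      rw [this]
      rfl
  · intro v
    constructor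
    · intro hx
      have h1 : ∀ x, x < t v → ∃ z, Q' (Fin.snoc (Fin.snoc v x : Fin (n + 1) → ℕ) z) := by
        intro x hxt
        have h1 := hQ (Fin.snoc v x)
        simp only [Fin.init_snoc, Fin.snoc_last] at h1
        exact h1.1 (hx x hxt)
      have h2 : ∀ k : ℕ, k ≤ t v → ∃ b : ℕ, ∀ x, x < k →
          ∃ z, z < b + 1 ∧ Q' (Fin.snoc (Fin.snoc v x : Fin (n + 1) → ℕ) z) := by
        intro k
        induction k with
        | zero => intro _; exact ⟨0, fun x hx => absurd hx (Nat.not_lt_zero _)⟩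
        | succ k ih =>
          intro hk
          obtain ⟨b, hb⟩ := ih (by omega)
          obtain ⟨z, hz⟩ := h1 k (by omega)
          refine ⟨b + z, fun x hx => ?_⟩
          rcases Nat.lt_succ_iff_lt_or_eq.1 hx with h | h
          · obtain ⟨z', hz', hz''⟩ := hb x h
            exact ⟨z', by omega, hz''⟩
          · subst h
            exact ⟨z, by omega, hz⟩
      obtain ⟨b, hb⟩ := h2 (t v) le_rfl
      refine ⟨b, ?_⟩
      intro x hx'
      simp only [Fin.init_snoc, Fin.snoc_last] at hx' ⊢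
      exact hb x hx'
    · rintro ⟨b, hb⟩ x hx
      have h1 := hQ (Fin.snoc v x)
      simp only [Fin.init_snoc, Fin.snoc_last] at h1
      rw [h1]
      have := hb x (by simpa using hx)
      obtain ⟨z, _, hz⟩ := this
      exact ⟨z, by simpa using hz⟩

theorem S1.comp {P : (Fin m → ℕ) → Prop} (hP : S1 e P) {t : Fin m → (Fin n → ℕ) → ℕ}
    (ht : ∀ i, T0 e (t i)) : S1 e (fun v => P (fun i => t i v)) := by
  obtain ⟨P', hP', h⟩ := hP
  refine ⟨fun w => P' (Fin.snoc (fun i => t i (Fin.init w)) (w (Fin.last n))), ?_, ?_⟩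
  · exact hP'.comp_snoc (s := fun i w => t i (Fin.init w)) (fun i => (ht i).init) T0.last
  · intro v
    beta_reduce
    rw [h]
    simp

end S1

end Pool.Agent.Helper626
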