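import Pool.Agent.Helper626.NatRec

namespace Pool.Agent.Helper626

open FirstOrder FirstOrder.Language

open Nat.Partrec (Code)

/-- the universal partial recursive function -/
def uni (k : ℕ) : Part ℕ := Code.eval (Denumerable.ofNat Code k.unpair.1) k.unpair.2

theorem uni_partrec : Nat.Partrec uni := by
  rw [← Partrec.nat_iff]
  unfold uni
  exact Code.eval_part.comp
    ((Computable.ofNat Code).comp (Computable.fst.comp Computable.unpair))
    (Computable.snd.comp Computable.unpair)

/-- `y` bounds `(x+2)^2` and all the values of the first `x` programs at inputs at most `x` -/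
def PH (x y : ℕ) : Prop :=
  (x + (1 + 1)) * (x + (1 + 1)) ≤ y ∧ ∀ i, i < x + 1 → ∀ n, n < x + 1 → ∀ z, z ∈ uni (Nat.pair i n) → z ≤ y

theorem PH.mono {x x' y y' : ℕ} (h : PH x y) (hx : x' ≤ x) (hy : y ≤ y') : PH x' y' := by
  refine ⟨?_, fun i hi n hn z hz => ?_⟩
  · have : (x' + (1 + 1)) * (x' + (1 + 1)) ≤ (x + (1 + 1)) * (x + (1 + 1)) :=
      Nat.mul_le_mul (by omega) (by omega)
    exact this.trans (h.1.trans hy)
  · exact (h.2 i (by omega) n (by omega) z hz).trans hy

theorem exists_bound (p : ℕ → Part ℕ) (k : ℕ) : ∃ y, ∀ i, i < k → ∀ z, z ∈ p i → z ≤ y := by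
  induction k with
  | zero => exact ⟨0, fun i hi => absurd hi (Nat.not_lt_zero _)⟩
  | succ k ih =>
    obtain ⟨y, hy⟩ := ih
    by_cases h : ∃ z, z ∈ p k
    · obtain ⟨z, hz⟩ := h
      refine ⟨y + z, fun i hi z' hz' => ?_⟩
      rcases Nat.lt_succ_iff_lt_or_eq.1 hi with h | h
      · exact (hy i h z' hz').trans (Nat.le_add_right _ _)
      · subst h
        rw [Part.mem_unique hz' hz]
        exact Nat.le_add_left _ _
    · refine ⟨y, fun i hi z' hz' => ?_⟩
      rcases Nat.lt_succ_iff_lt_or_eq.1 hi with h' | h'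
      · exact hy i h' z' hz'
      · subst h'
        exact absurd ⟨z', hz'⟩ h

theorem exists_PH (x : ℕ) : ∃ y, PH x y := by
  obtain ⟨y, hy⟩ := exists_bound uni ((x + 1) * (x + 1) + (x + 1) + (x + 1) + 1)
  refine ⟨y + (x + (1 + 1)) * (x + (1 + 1)), Nat.le_add_left _ _, fun i hi n hn z hz => ?_⟩
  refine (hy (Nat.pair i n) ?_ z hz).trans (Nat.le_add_right _ _)
  have h1 := Nat.pair_lt_max_add_one_sq i n
  have h2 : max i n + 1 ≤ x + 1 := by
    have := max_le (Nat.lt_succ_iff.1 hi) (Nat.lt_succ_iff.1 hn)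
    omega
  have h3 : (max i n + 1) ^ 2 ≤ (x + 1) ^ 2 := Nat.pow_le_pow_left h2 2
  have h4 : (x + 1) ^ 2 = (x + 1) * (x + 1) := by ring
  omega

open Classical in
/-- a function growing faster than the iterates of all `Σ_1` Skolem functions -/
noncomputable def hh (x : ℕ) : ℕ := Nat.find (exists_PH x)

theorem PH_hh (x : ℕ) : PH x (hh x) := by
  classical
  exact Nat.find_spec (exists_PH x)

theorem PH_iff (x y : ℕ) : PH x y ↔ hh x ≤ y := by
  classical
  constructor
  · intro h
    exact Nat.find_min' (exists_PH x) h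
  · intro h
    exact (PH_hh x).mono le_rfl h

theorem hh_mono : Monotone hh := fun x y h => (PH_iff x (hh y)).1 ((PH_hh y).mono h le_rfl)

theorem hh_sq (x : ℕ) : (x + 2) * (x + 2) ≤ hh x := (PH_hh x).1

theorem lt_hh (x : ℕ) : x < hh x := by
  have := hh_sq x
  nlinarith

theorem uni_le_hh {i n x z : ℕ} (hi : i ≤ x) (hn : n ≤ x) (hz : z ∈ uni (Nat.pair i n)) :
    z ≤ hh x := (PH_hh x).2 i (by omega) n (by omega) z hz

theorem le_iter (j x : ℕ) : x ≤ hh^[j] x := by
  induction j with
  | zero => exact le_rfl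
  | succ j ih =>
    rw [Function.iterate_succ_apply']
    exact ih.trans (lt_hh _).le

theorem iter_mono_right {j : ℕ} {x y : ℕ} (h : x ≤ y) : hh^[j] x ≤ hh^[j] y :=
  hh_mono.iterate j h

theorem iter_mono_left {j k : ℕ} (h : j ≤ k) (x : ℕ) : hh^[j] x ≤ hh^[k] x := by
  obtain ⟨d, rfl⟩ := Nat.exists_eq_add_of_le h
  rw [Function.iterate_add_apply]
  exact iter_mono_right (le_iter d x)

theorem iter_strict {j k : ℕ} (h : j < k) (x : ℕ) : hh^[j] x < hh^[k] x := by
  have h1 : hh^[j + 1] x ≤ hh^[k] x := iter_mono_left h x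
  have h2 : hh^[j] x < hh^[j + 1] x := by
    rw [Function.iterate_succ_apply']
    exact lt_hh _
  omega

/-- decoding of tuples -/
def dec : ∀ n : ℕ, ℕ → (Fin n → ℕ)
  | 0, _ => Fin.elim0
  | n + 1, c => Fin.snoc (dec n c.unpair.1) c.unpair.2

/-- coding of tuples -/
def enc : ∀ n : ℕ, (Fin n → ℕ) → ℕ
  | 0, _ => 0
  | n + 1, v => Nat.pair (enc n (Fin.init v)) (v (Fin.last n))

theorem dec_enc : ∀ (n : ℕ) (v : Fin n → ℕ), dec n (enc n v) = v
  | 0, v => by funext i; exact i.elim0
  | n + 1, v => by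
    unfold enc dec
    simp only [Nat.unpair_pair]
    rw [dec_enc n]
    exact Fin.snoc_init_self v

theorem dec_le : ∀ (n c : ℕ) (i : Fin n), dec n c i ≤ c
  | 0, _, i => i.elim0
  | n + 1, c, i => by
    unfold dec
    refine Fin.lastCases ?_ (fun i => ?_) i
    · simp only [Fin.snoc_last]
      exact Nat.unpair_right_le c
    · simp only [Fin.snoc_castSucc]
      exact (dec_le n _ i).trans (Nat.unpair_left_le c)

theorem enc_le : ∀ (n : ℕ) (B : ℕ) (v : Fin n → ℕ), (∀ i, v i ≤ B) → enc n v ≤ hh^[n] B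
  | 0, B, v, _ => Nat.zero_le _
  | n + 1, B, v, h => by
    unfold enc
    rw [Function.iterate_succ_apply']
    have h1 := enc_le n B (Fin.init v) (fun i => h _)
    have h2 : v (Fin.last n) ≤ hh^[n] B := (h _).trans (le_iter _ _)
    have h3 := Nat.pair_lt_max_add_one_sq (enc n (Fin.init v)) (v (Fin.last n))
    have h4 : (max (enc n (Fin.init v)) (v (Fin.last n)) + 1) ^ 2 ≤ (hh^[n] B + 1) ^ 2 :=
      Nat.pow_le_pow_left (Nat.succ_le_succ (max_le h1 h2)) 2
    have h5 := hh_sq (hh^[n] B)
    nlinarith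

theorem dec_primrec : ∀ (n : ℕ) (i : Fin n), Primrec (fun c => dec n c i)
  | 0, i => i.elim0
  | n + 1, i => by
    unfold dec
    refine Fin.lastCases ?_ (fun i => ?_) i
    · simp only [Fin.snoc_last]
      exact Primrec.snd.comp Primrec.unpair
    · simp only [Fin.snoc_castSucc]
      exact (dec_primrec n i).comp (Primrec.fst.comp Primrec.unpair)

theorem T0.primrec {e : Bool} {n : ℕ} {s : (Fin n → ℕ) → ℕ} (h : T0 e s) :
    ∀ g : ℕ → (Fin n → ℕ), (∀ i, Primrec (fun x => g x i)) → Primrec (fun x => s (g x)) := by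
  induction h with
  | var i => intro g hg; exact hg i
  | zero => intro g _; exact Primrec.const 0
  | one => intro g _; exact Primrec.const 1
  | add _ _ ih1 ih2 => intro g hg; exact Primrec.nat_add.comp (ih1 g hg) (ih2 g hg)
  | mul _ _ ih1 ih2 => intro g hg; exact Primrec.nat_mul.comp (ih1 g hg) (ih2 g hg)
  | pow _ _ _ ih1 ih2 =>
    intro g hg
    have hp : Primrec₂ (fun a b : ℕ => a ^ b) := Primrec₂.unpaired'.1 Nat.Primrec.pow
    exact hp.comp (ih1 g hg) (ih2 g hg)

theorem D0.primrec {e : Bool} {n : ℕ} {P : (Fin n → ℕ) → Prop} (h : D0 e P) :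
    ∀ g : ℕ → (Fin n → ℕ), (∀ i, Primrec (fun x => g x i)) → PrimrecPred (fun x => P (g x)) := by
  induction h with
  | fls =>
    intro g _
    exact Primrec.primrecPred (Primrec.const false |>.of_eq fun n => by simp)
  | eq h1 h2 => intro g hg; exact Primrec.eq.comp (h1.primrec g hg) (h2.primrec g hg)
  | lt h1 h2 => intro g hg; exact Primrec.nat_lt.comp (h1.primrec g hg) (h2.primrec g hg)
  | imp _ _ ih1 ih2 =>
    intro g hg
    exact ((ih1 g hg).not.or (ih2 g hg)).of_eq fun x => by tauto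
  | @ball0 n t P ht _ ih =>
    intro g hg
    have h1 : PrimrecPred (fun z : ℕ => P (Fin.snoc (g z.unpair.1) z.unpair.2)) := by
      refine ih (fun z => Fin.snoc (g z.unpair.1) z.unpair.2) ?_
      intro i
      refine Fin.lastCases ?_ (fun i => ?_) i
      · simp only [Fin.snoc_last]
        exact Primrec.snd.comp Primrec.unpair
      · simp only [Fin.snoc_castSucc]
        exact (hg i).comp (Primrec.fst.comp Primrec.unpair)
    have h2 : PrimrecRel (fun a b : ℕ => P (Fin.snoc (g b) a)) := by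
      refine (h1.comp (Primrec₂.natPair.comp Primrec.snd Primrec.fst)).of_eq ?_
      intro x
      simp
    exact h2.forall_lt.comp (ht.primrec g hg) Primrec.id

/-- `hh` dominates Skolem functions -/
theorem dom {e : Bool} {n r : ℕ} {P : (Fin (n + r) → ℕ) → Prop} (hP : D0 e P) :
    ∃ j, ∀ B, j ≤ B → ∀ v : Fin n → ℕ, (∀ i, v i ≤ B) → (∃ w : Fin r → ℕ, P (Fin.append v w)) →
      ∃ w : Fin r → ℕ, (∀ i, w i ≤ hh^[j] B) ∧ P (Fin.append v w) := by
  have h1 : PrimrecPred (fun z : ℕ => P (Fin.append (dec n z.unpair.1) (dec r z.unpair.2))) := by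
    refine hP.primrec (fun z => Fin.append (dec n z.unpair.1) (dec r z.unpair.2)) ?_
    intro i
    refine Fin.addCases (fun i => ?_) (fun i => ?_) i
    · simp only [Fin.append_left]
      exact (dec_primrec n i).comp (Primrec.fst.comp Primrec.unpair)
    · simp only [Fin.append_right]
      exact (dec_primrec r i).comp (Primrec.snd.comp Primrec.unpair)
  obtain ⟨inst, h2⟩ := h1
  have h3 : Partrec₂ (fun (c w : ℕ) => (Part.some (decide
      (P (Fin.append (dec n (Nat.pair c w).unpair.1) (dec r (Nat.pair c w).unpair.2)))) : Part Bool)) := by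
    have h4 : Computable (fun p : ℕ × ℕ => decide
      (P (Fin.append (dec n (Nat.pair p.1 p.2).unpair.1) (dec r (Nat.pair p.1 p.2).unpair.2)))) :=
      (h2.comp (Primrec₂.natPair.comp Primrec.fst Primrec.snd)).to_comp
    exact h4.partrec
  have h5 := Partrec.rfind h3
  rw [Partrec.nat_iff] at h5
  obtain ⟨c, hc⟩ := Code.exists_code.1 h5
  refine ⟨Encodable.encode c + n + 1, fun B hB v hv hw => ?_⟩
  obtain ⟨w, hw⟩ := hw
  have h6 : ∃ z, z ∈ Nat.rfind (fun w : ℕ => (Part.some (decide
      (P (Fin.append (dec n (Nat.pair (enc n v) w).unpair.1)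
        (dec r (Nat.pair (enc n v) w).unpair.2)))) : Part Bool)) := by
    obtain ⟨z, hz, _⟩ := Nat.rfind_min' (p := fun w : ℕ => (decide
      (P (Fin.append (dec n (Nat.pair (enc n v) w).unpair.1)
        (dec r (Nat.pair (enc n v) w).unpair.2))))) (m := enc r w) (by
          simp only [Nat.unpair_pair, dec_enc, decide_eq_true_eq]
          exact hw)
    exact ⟨z, hz⟩
  obtain ⟨z, hz⟩ := h6
  have h7 := Nat.rfind_spec hz
  have h7' := of_decide_eq_true (Part.mem_some_iff.1 h7).symm
  rw [Nat.unpair_pair] at h7'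
  simp only [dec_enc] at h7'
  have h8 : z ∈ uni (Nat.pair (Encodable.encode c) (enc n v)) := by
    unfold uni
    simp only [Nat.unpair_pair, Denumerable.ofNat_encode]
    rw [hc]
    exact hz
  refine ⟨dec r z, fun i => ?_, h7'⟩
  refine (dec_le r z i).trans ?_
  have h9 : Encodable.encode c ≤ hh^[n] B := by
    have := le_iter n B
    omega
  have h10 := enc_le n B v hv
  have h11 := uni_le_hh h9 h10 h8
  refine h11.trans ?_
  rw [← Function.iterate_succ_apply' hh n B]
  exact iter_mono_left (by omega) B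

/-- `hh x ≤ y` is a `Π_1` relation, in the form `∀ z, R x y z` with `R` bounded. -/
theorem hh_pi (e : Bool) : ∃ R : ℕ → ℕ → ℕ → Prop,
    D0 e (fun v : Fin 3 → ℕ => R (v 0) (v 1) (v 2)) ∧ ∀ x y, hh x ≤ y ↔ ∀ z, R x y z := by
  obtain ⟨U, hU, hU'⟩ := S1.of_partrec (e := e) uni_partrec
  refine ⟨fun x y u => (x + (1 + 1)) * (x + (1 + 1)) < y + 1 ∧ ∀ i, i < x + 1 → ∀ n, n < x + 1 →
    ∀ z, z < u + 1 → ∀ t, t < u + 1 → ∀ k, k < (x + 1) * (x + 1) + 1 → (Nat.pair i n = k →
      (U ![k, z, t] → z < y + 1)), ?_, ?_⟩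
  · refine D0.and (D0.lt (((T0.var 0).add (T0.one.add T0.one)).mul
      ((T0.var 0).add (T0.one.add T0.one))) ((T0.var 1).add T0.one)) ?_
    refine D0.ball ((T0.var 0).add T0.one) (D0.ball ((T0.var 0).init.add T0.one)
      (D0.ball ((T0.var 2).init.init.add T0.one) (D0.ball ((T0.var 2).init.init.init.add T0.one)
      (D0.ball (((((T0.var 0).add T0.one).mul ((T0.var 0).add T0.one)).add T0.one).init.init.init.init)
        ?_))))
    refine D0.imp (D0.pair T0.last.init.init.init.init T0.last.init.init.init T0.last) ?_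
    refine D0.imp ?_ (D0.lt T0.last.init.init ((T0.var 1).init.init.init.init.init.add T0.one))
    have := hU.comp (n := 8) (t := ![fun w => w 7, fun w => w 5, fun w => w 6]) (by
      intro i
      fin_cases i
      · exact T0.var _
      · exact T0.var _
      · exact T0.var _)
    refine this.of_iff fun v => ?_
    apply iff_of_eq
    congr 1
    funext i
    fin_cases i <;> rfl
  · intro x y
    rw [← PH_iff]
    have key : ∀ k z : ℕ, z ∈ uni k ↔ ∃ t, U ![k, z, t] := by
      intro k z
      have := hU' ![k, z]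
      simp only [Matrix.cons_val_zero, Matrix.cons_val_one] at this
      rw [this]
      apply exists_congr
      intro t
      apply iff_of_eq
      congr 1
      funext i
      fin_cases i <;> rfl
    constructor
    · rintro ⟨h1, h2⟩ u
      refine ⟨by omega, fun i hi n hn z hz t ht k hk hp hu => ?_⟩
      have := h2 i hi n hn z (by rw [hp]; exact (key k z).2 ⟨t, hu⟩)
      omega
    · intro h
      refine ⟨by have := (h 0).1; omega, fun i hi n hn z hz => ?_⟩
      obtain ⟨t, ht⟩ := (key _ z).1 hz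
      have h1 := Nat.pair_lt_max_add_one_sq i n
      have h2 : max i n + 1 ≤ x + 1 := by
        have := max_le (Nat.lt_succ_iff.1 hi) (Nat.lt_succ_iff.1 hn)
        omega
      have h3 : (max i n + 1) ^ 2 ≤ (x + 1) ^ 2 := Nat.pow_le_pow_left h2 2
      have h4 : (x + 1) ^ 2 = (x + 1) * (x + 1) := by ring
      have := (h (z + t)).2 i hi n hn z (by omega) t (by omega) (Nat.pair i n) (by omega) rfl ht
      omega

end Pool.Agent.Helper626
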