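import Pool.Agent.Helper626.NatDef

namespace Pool.Agent.Helper626

open FirstOrder FirstOrder.Language

section

variable {e : Bool} {n m : ℕ}

theorem D0.pair {a b c : (Fin n → ℕ) → ℕ} (ha : T0 e a) (hb : T0 e b) (hc : T0 e c) :
    D0 e (fun v => Nat.pair (a v) (b v) = c v) := by
  refine (((D0.lt ha hb).and (D0.eq ((hb.mul hb).add ha) hc)).or
    ((D0.lt ha hb).not.and (D0.eq (((ha.mul ha).add ha).add hb) hc))).of_iff fun v => ?_
  unfold Nat.pair
  by_cases h : a v < b v
  · simp [h]
  · simp [h]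

theorem beta_iff (s i x : ℕ) : Nat.beta s i = x ↔
    ∃ a, a < s + 1 ∧ ∃ c, c < s + 1 ∧ Nat.pair a c = s ∧ x < (i + 1) * c + 1 ∧
      ∃ q, q < a + 1 ∧ a = ((i + 1) * c + 1) * q + x := by
  unfold Nat.beta
  constructor
  · intro h
    refine ⟨s.unpair.1, by have := Nat.unpair_left_le s; omega, s.unpair.2,
      by have := Nat.unpair_right_le s; omega, by simp, ?_,
      s.unpair.1 / ((i + 1) * s.unpair.2 + 1), ?_, ?_⟩
    · rw [← h]
      exact Nat.mod_lt _ (Nat.succ_pos _)
    · have := Nat.div_le_self s.unpair.1 ((i + 1) * s.unpair.2 + 1)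
      omega
    · rw [← h]
      exact (Nat.div_add_mod _ _).symm
  · rintro ⟨a, _, c, _, h, hx, q, _, h'⟩
    rw [← h]
    simp only [Nat.unpair_pair]
    rw [h']
    rw [Nat.mul_add_mod, Nat.mod_eq_of_lt hx]

theorem D0.beta {s i x : (Fin n → ℕ) → ℕ} (hs : T0 e s) (hi : T0 e i) (hx : T0 e x) :
    D0 e (fun v => Nat.beta (s v) (i v) = x v) := by
  simp only [beta_iff]
  refine D0.bex (hs.add T0.one) (D0.bex (hs.init.add T0.one) ?_)
  refine D0.and (D0.pair T0.last.init T0.last hs.init.init) (D0.and ?_ ?_)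
  · exact D0.lt hx.init.init (((hi.init.init.add T0.one).mul T0.last).add T0.one)
  · refine D0.bex (T0.last.init.add T0.one) ?_
    exact D0.eq T0.last.init.init
      ((((((hi.init.init.init).add T0.one).mul T0.last.init).add T0.one).mul T0.last).add
        hx.init.init.init)

theorem beta_exists (x : ℕ → ℕ) (n : ℕ) : ∃ s, ∀ i, i ≤ n → Nat.beta s i = x i := by
  refine ⟨Nat.unbeta (List.ofFn (fun i : Fin (n + 1) => x i)), fun i hi => ?_⟩
  have h := Nat.beta_unbeta_coe (List.ofFn (fun i : Fin (n + 1) => x i))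
    ⟨i, by simp; omega⟩
  refine Eq.trans h ?_
  simp only [Fin.getElem_fin, List.getElem_ofFn]

/-- application of a binary relation to terms -/
theorem S1.app {R : ℕ → ℕ → Prop} (h : S1 e (fun v : Fin 2 → ℕ => R (v 0) (v 1)))
    {a b : (Fin n → ℕ) → ℕ} (ha : T0 e a) (hb : T0 e b) : S1 e (fun v => R (a v) (b v)) := by
  have := h.comp (n := n) (t := ![a, b]) (by
    intro i
    fin_cases i
    · exact ha
    · exact hb)
  exact this

theorem S1.eq {s t : (Fin n → ℕ) → ℕ} (hs : T0 e s) (ht : T0 e t) :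
    S1 e (fun v => s v = t v) := (D0.eq hs ht).s1

theorem prec_chain (f : ℕ →. ℕ) (g : ℕ →. ℕ) (a m : ℕ) : ∀ n : ℕ,
    m ∈ (Nat.rec (f a) (fun y IH => Part.bind IH fun i => g (Nat.pair a (Nat.pair y i))) n : Part ℕ) ↔
      ∃ x : ℕ → ℕ, x 0 ∈ f a ∧ (∀ i, i < n → x (i + 1) ∈ g (Nat.pair a (Nat.pair i (x i)))) ∧
        x n = m := by
  intro n
  induction n generalizing m with
  | zero =>
    constructor
    · intro h
      exact ⟨fun _ => m, h, fun i hi => absurd hi (Nat.not_lt_zero _), rfl⟩
    · rintro ⟨x, h0, _, h⟩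
      rw [← h]
      exact h0
  | succ n ih =>
    constructor
    · intro h
      obtain ⟨i, hi, hm⟩ := Part.mem_bind_iff.1 h
      obtain ⟨x, h0, h1, h2⟩ := (ih i).1 hi
      refine ⟨fun k => if k ≤ n then x k else m, ?_, ?_, ?_⟩
      · simpa using h0
      · intro k hk
        rcases Nat.lt_succ_iff_lt_or_eq.1 hk with h | h
        · have h3 : k + 1 ≤ n := h
          have h4 : k ≤ n := by omega
          simp only [h3, h4, if_true]
          exact h1 k h
        · subst h
          have h3 : ¬ (k + 1 ≤ k) := by omega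
          simp only [h3, if_false, le_refl, if_true]
          rw [h2]
          exact hm
      · have h3 : ¬ (n + 1 ≤ n) := by omega
        simp only [h3, if_false]
    · rintro ⟨x, h0, h1, h2⟩
      refine Part.mem_bind_iff.2 ⟨x n, (ih _).2 ⟨x, h0, fun i hi => h1 i (by omega), rfl⟩, ?_⟩
      rw [← h2]
      exact h1 n (by omega)

theorem S1.of_partrec {f : ℕ →. ℕ} (hf : Nat.Partrec f) :
    S1 e (fun v : Fin 2 → ℕ => v 1 ∈ f (v 0)) := by
  induction hf with
  | zero =>
    refine (S1.eq (T0.var 1) T0.zero).of_iff fun v => ?_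
    simp [pure, PFun.pure]
  | succ =>
    refine (S1.eq (T0.var 1) ((T0.var 0).add T0.one)).of_iff fun v => ?_
    simp
  | left =>
    refine (D0.bex (Q := fun v c => Nat.pair (v 1) c = v 0) ((T0.var 0).add T0.one)
      (D0.pair (T0.var 1).init T0.last (T0.var 0).init)).s1.of_iff fun v => ?_
    constructor
    · intro h
      have h' : v 1 = (v 0).unpair.1 := by simpa using h
      refine ⟨(v 0).unpair.2, by have := Nat.unpair_right_le (v 0); omega, ?_⟩
      rw [h']
      simp
    · rintro ⟨c, _, hc⟩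
      have : v 1 = (v 0).unpair.1 := by
        rw [← hc]; simp
      simp [this]
  | right =>
    refine (D0.bex (Q := fun v c => Nat.pair c (v 1) = v 0) ((T0.var 0).add T0.one)
      (D0.pair T0.last (T0.var 1).init (T0.var 0).init)).s1.of_iff fun v => ?_
    constructor
    · intro h
      have h' : v 1 = (v 0).unpair.2 := by simpa using h
      refine ⟨(v 0).unpair.1, by have := Nat.unpair_left_le (v 0); omega, ?_⟩
      rw [h']
      simp
    · rintro ⟨c, _, hc⟩
      have : v 1 = (v 0).unpair.2 := by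
        rw [← hc]; simp
      simp [this]
  | @pair f g _ _ ihf ihg =>
    refine (S1.ex (Q := fun v a => ∃ b, a ∈ f (v 0) ∧ b ∈ g (v 0) ∧ Nat.pair a b = v 1)
      (S1.ex ?_)).of_iff fun v => ?_
    · refine S1.and (ihf.app (R := fun x y => y ∈ f x) (T0.var 0).init.init T0.last.init)
        (S1.and (ihg.app (R := fun x y => y ∈ g x) (T0.var 0).init.init T0.last) ?_)
      exact (D0.pair T0.last.init T0.last (T0.var 1).init.init).s1
    · simp only [Seq.seq, Part.mem_bind_iff, Part.mem_map_iff, Functor.map]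
      constructor
      · rintro ⟨_, ⟨a, ha, rfl⟩, b, hb, h⟩
        exact ⟨a, b, ha, hb, h⟩
      · rintro ⟨a, b, ha, hb, h⟩
        exact ⟨_, ⟨a, ha, rfl⟩, b, hb, h⟩
  | @comp f g _ _ ihf ihg =>
    refine (S1.ex (Q := fun v a => a ∈ g (v 0) ∧ v 1 ∈ f a)
      (S1.and (ihg.app (R := fun x y => y ∈ g x) (T0.var 0).init T0.last)
        (ihf.app (R := fun x y => y ∈ f x) T0.last (T0.var 1).init))).of_iff fun v => ?_
    exact Part.mem_bind_iff
  | @prec f g _ _ ihf ihg =>
    refine (S1.ex (Q := fun v a => ∃ k, Nat.pair a k = v 0 ∧ ∃ s,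
        (∃ x, Nat.beta s 0 = x ∧ x ∈ f a) ∧
        (∀ i, i < k → ∃ x, ∃ y, ∃ p, ∃ q, Nat.beta s i = x ∧ Nat.beta s (i + 1) = y ∧
          Nat.pair i x = p ∧ Nat.pair a p = q ∧ y ∈ g q) ∧
        Nat.beta s k = v 1)
      (S1.ex (S1.and (D0.pair T0.last.init T0.last (T0.var 0).init.init).s1 (S1.ex
        (S1.and (S1.ex (S1.and (D0.beta T0.last.init T0.zero T0.last).s1
          (ihf.app (R := fun x y => y ∈ f x) T0.last.init.init.init T0.last)))
          (S1.and (S1.ball T0.last.init (S1.ex (S1.ex (S1.ex (S1.ex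
            (S1.and ?_ (S1.and ?_ (S1.and ?_ (S1.and ?_ ?_)))))))))
            (D0.beta T0.last T0.last.init (T0.var 1).init.init.init).s1)))))).of_iff
        fun v => ?_
    · exact (D0.beta T0.last.init.init.init.init.init T0.last.init.init.init.init
        T0.last.init.init.init).s1
    · exact (D0.beta T0.last.init.init.init.init.init (T0.last.init.init.init.init.add T0.one)
        T0.last.init.init).s1
    · exact (D0.pair T0.last.init.init.init.init T0.last.init.init.init T0.last.init).s1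
    · exact (D0.pair T0.last.init.init.init.init.init.init.init T0.last.init T0.last).s1
    · exact ihg.app (R := fun x y => y ∈ g x) T0.last T0.last.init.init
    · have key := prec_chain f g (v 0).unpair.1 (v 1) (v 0).unpair.2
      refine Iff.trans key ?_
      constructor
      · rintro ⟨x, h0, h1, h2⟩
        obtain ⟨s, hs⟩ := beta_exists x (v 0).unpair.2
        refine ⟨(v 0).unpair.1, (v 0).unpair.2, by simp, s, ⟨_, rfl, ?_⟩, ?_, ?_⟩
        · rw [hs 0 (Nat.zero_le _)]
          exact h0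
        · intro i hi
          refine ⟨x i, x (i + 1), _, _, hs i (by omega), hs (i + 1) (by omega), rfl, rfl, ?_⟩
          exact h1 i hi
        · rw [hs _ le_rfl]
          exact h2
      · rintro ⟨a, k, hak, s, ⟨x, hx, hx'⟩, h1, h2⟩
        have ha : (v 0).unpair.1 = a := by rw [← hak]; simp
        have hk : (v 0).unpair.2 = k := by rw [← hak]; simp
        rw [ha, hk]
        refine ⟨fun i => Nat.beta s i, ?_, ?_, h2⟩
        · beta_reduce
          rw [hx]
          exact hx'
        · intro i hi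
          obtain ⟨x, y, p, q, hx, hy, hp, hq, h⟩ := h1 i hi
          beta_reduce
          rw [hx, hy, hp, hq]
          exact h
  | @rfind f _ ih =>
    refine (S1.and (P := fun v : Fin 2 → ℕ => ∃ p, Nat.pair (v 0) (v 1) = p ∧ ∃ z, z = 0 ∧ z ∈ f p)
      (Q := fun v : Fin 2 → ℕ => ∀ i, i < v 1 → ∃ p, Nat.pair (v 0) i = p ∧ ∃ z, ∃ w, w = z + 1 ∧
        w ∈ f p)
      (S1.ex (S1.and (D0.pair (T0.var 0).init (T0.var 1).init T0.last).s1
        (S1.ex (S1.and (S1.eq T0.last T0.zero)
          (ih.app (R := fun x y => y ∈ f x) T0.last.init T0.last)))))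
      (S1.ball (T0.var 1) (S1.ex (S1.and (D0.pair (T0.var 0).init.init T0.last.init T0.last).s1
        (S1.ex (S1.ex (S1.and (S1.eq T0.last (T0.last.init.add T0.one))
          (ih.app (R := fun x y => y ∈ f x) T0.last.init.init T0.last)))))))).of_iff fun v => ?_
    rw [Nat.mem_rfind]
    constructor
    · rintro ⟨h1, h2⟩
      refine ⟨⟨_, rfl, 0, rfl, ?_⟩, fun i hi => ?_⟩
      · obtain ⟨z, hz, hz'⟩ := (Part.mem_map_iff _).1 h1
        have : z = 0 := by simpa using hz'
        rw [← this]
        exact hz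
      · obtain ⟨z, hz, hz'⟩ := (Part.mem_map_iff _).1 (h2 hi)
        have : z ≠ 0 := by simpa using hz'
        refine ⟨_, rfl, z - 1, z, by omega, hz⟩
    · rintro ⟨⟨p, hp, z, hz, h⟩, h2⟩
      refine ⟨(Part.mem_map_iff _).2 ⟨z, ?_, ?_⟩, fun {i} hi => ?_⟩
      · rw [hp]
        exact h
      · simp [hz]
      · obtain ⟨p, hp, z, w, hw, h⟩ := h2 i hi
        refine (Part.mem_map_iff _).2 ⟨w, ?_, ?_⟩
        · rw [hp]
          exact h
        · simp [hw]

end

end Pool.Agent.Helper626
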